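import Pool.Agent.TT2.Defs

/-!
# Project TT2, module C (chains) (see /team-store/7dd320_TT.md)
-/

namespace Pool.Agent.TT2

open Finset
open Pool.Agent.helper11.OG (Free HasCopy)

section C
variable {ι β : Type*} [DecidableEq ι] (R : ι → ι → Prop) [DecidableRel R]

private theorem mem_chains' {r : ℕ} {Y : Finset ι} {f : Fin r → ι} :
    f ∈ chains R r Y ↔ (∀ i, f i ∈ Y) ∧ ∀ i j, i < j → R (f i) (f j) := by
  simp [chains, Fintype.mem_piFinset]

/-- C1 -/
theorem card_chains (r : ℕ) (Y : Finset ι) : (chains R r Y).card = tc R r Y := by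
  induction r generalizing Y with
  | zero =>
    have h : chains R 0 Y = Finset.univ := by
      ext f
      rw [mem_chains']
      exact ⟨fun _ => Finset.mem_univ _, fun _ => ⟨fun i => i.elim0, fun i => i.elim0⟩⟩
    rw [h]
    simp [tc]
  | succ r ih =>
    rw [Finset.card_eq_sum_card_fiberwise (f := fun f : Fin (r + 1) → ι => f 0) (t := Y)
      (fun f hf => ((mem_chains' R).1 hf).1 0)]
    show _ = ∑ t ∈ Y, tc R r (Y.filter (R t))
    refine Finset.sum_congr rfl fun t ht => ?_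
    rw [← ih (Y.filter (R t))]
    refine Finset.card_nbij' (fun f => Fin.tail f) (fun g => Fin.cons t g) ?_ ?_ ?_ ?_
    · intro f hf
      have hf' := Finset.mem_filter.1 hf
      obtain ⟨hf1, hf2⟩ := (mem_chains' R).1 hf'.1
      have hf0 : f 0 = t := hf'.2
      refine (mem_chains' R).2 ⟨fun i => Finset.mem_filter.2 ⟨hf1 _, ?_⟩, fun i j hij => ?_⟩
      · rw [← hf0]
        exact hf2 0 i.succ (Fin.succ_pos i)
      · exact hf2 _ _ (Fin.succ_lt_succ_iff.2 hij)
    · intro g hg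
      obtain ⟨hg1, hg2⟩ := (mem_chains' R).1 hg
      refine Finset.mem_filter.2 ⟨(mem_chains' R).2 ⟨fun i => ?_, fun i j hij => ?_⟩, ?_⟩
      · refine Fin.cases ?_ (fun i => ?_) i
        · simpa using ht
        · simpa using (Finset.mem_filter.1 (hg1 i)).1
      · induction j using Fin.cases with
        | zero => exact absurd hij (Fin.not_lt_zero i)
        | succ j =>
          induction i using Fin.cases with
          | zero => simpa using (Finset.mem_filter.1 (hg1 j)).2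
          | succ i => simpa using hg2 i j (Fin.succ_lt_succ_iff.1 hij)
      · rfl
    · intro f hf
      have hf0 : f 0 = t := (Finset.mem_filter.1 hf).2
      show Fin.cons t (Fin.tail f) = f
      rw [← hf0]
      exact Fin.cons_self_tail f
    · intro g hg
      funext i
      rfl

omit [DecidableEq ι] in
private theorem ec_eq_sum {α γ : Type*} (G : α → γ → Prop) [∀ a b, Decidable (G a b)]
    (U : Finset α) (W : Finset γ) : ec G U W = ∑ t ∈ U, (W.filter (G t)).card := by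
  unfold ec
  rw [Finset.card_filter, Finset.sum_product]
  refine Finset.sum_congr rfl fun t _ => ?_
  rw [Finset.card_filter]

omit [DecidableEq ι] in
private theorem tc_le (r : ℕ) (Y : Finset ι) : tc R r Y ≤ Y.card ^ r := by
  induction r generalizing Y with
  | zero => simp [tc]
  | succ r ih =>
    show ∑ t ∈ Y, tc R r (Y.filter (R t)) ≤ _
    calc ∑ t ∈ Y, tc R r (Y.filter (R t)) ≤ ∑ t ∈ Y, Y.card ^ r := by
          refine Finset.sum_le_sum fun t _ => (ih _).trans ?_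
          exact Nat.pow_le_pow_left (Finset.card_filter_le _ _) r
      _ = Y.card ^ (r + 1) := by
          rw [Finset.sum_const, smul_eq_mul, pow_succ, mul_comm]

/-- C2 -/
theorem tc_lower (X₀ : Finset ι) (η K : ℝ) (hη : 0 < η) (hη1 : η ≤ 1) (hK : 0 < K)
    (hJ : ∀ Y ⊆ X₀, K ≤ Y.card → η * (Y.card : ℝ) ^ 2 ≤ ec R Y Y) (r : ℕ) (Y : Finset ι) (hY : Y ⊆ X₀)
    (hYK : K * (2 / η) ^ r ≤ Y.card) :
    (η / 2) ^ ((r + 1).choose 2) * (Y.card : ℝ) ^ r ≤ tc R r Y := by
  induction r generalizing Y with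
  | zero => simp [tc]
  | succ r ih =>
    have h2η : 1 ≤ 2 / η := by
      rw [le_div_iff₀ hη]
      linarith
    have hη0 : η ≠ 0 := hη.ne'
    have hKY : K ≤ Y.card := by
      have h1 : (1 : ℝ) ≤ (2 / η) ^ (r + 1) := one_le_pow₀ h2η
      nlinarith
    have hYpos : (0 : ℝ) < Y.card := lt_of_lt_of_le hK hKY
    have hec := hJ Y hY hKY
    rw [ec_eq_sum] at hec
    push_cast at hec
    set G : Finset ι := Y.filter (fun t => η / 2 * (Y.card : ℝ) ≤ ((Y.filter (R t)).card : ℝ)) with hG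
    -- many elements with large out-neighbourhood
    have hcount : η / 2 * (Y.card : ℝ) ≤ G.card := by
      have hsum : ∑ t ∈ Y, ((Y.filter (R t)).card : ℝ) ≤
          (G.card : ℝ) * Y.card + Y.card * (η / 2 * Y.card) := by
        rw [← Finset.sum_filter_add_sum_filter_not Y
          (fun t => η / 2 * (Y.card : ℝ) ≤ ((Y.filter (R t)).card : ℝ))]
        refine add_le_add ?_ ?_
        · calc ∑ t ∈ G, ((Y.filter (R t)).card : ℝ) ≤ ∑ t ∈ G, (Y.card : ℝ) := by
                refine Finset.sum_le_sum fun t _ => ?_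
                exact_mod_cast Finset.card_filter_le _ _
            _ = (G.card : ℝ) * Y.card := by rw [Finset.sum_const, nsmul_eq_mul]
        · calc ∑ t ∈ Y.filter (fun t => ¬ (η / 2 * (Y.card : ℝ) ≤ ((Y.filter (R t)).card : ℝ))),
                ((Y.filter (R t)).card : ℝ)
              ≤ ∑ t ∈ Y.filter (fun t => ¬ (η / 2 * (Y.card : ℝ) ≤ ((Y.filter (R t)).card : ℝ))),
                (η / 2 * Y.card) := by
                refine Finset.sum_le_sum fun t ht => ?_
                exact (not_le.1 (Finset.mem_filter.1 ht).2).le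
            _ ≤ Y.card * (η / 2 * Y.card) := by
                rw [Finset.sum_const, nsmul_eq_mul]
                refine mul_le_mul_of_nonneg_right ?_ (by positivity)
                exact_mod_cast Finset.card_filter_le _ _
      have h3 : η / 2 * (Y.card : ℝ) * Y.card ≤ (G.card : ℝ) * Y.card := by nlinarith
      exact le_of_mul_le_mul_right h3 hYpos
    -- induction hypothesis on these elements
    have hterm : ∀ t ∈ G, (η / 2) ^ ((r + 1).choose 2) * (η / 2 * (Y.card : ℝ)) ^ r ≤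
        (tc R r (Y.filter (R t)) : ℝ) := by
      intro t ht
      have ht2 := (Finset.mem_filter.1 ht).2
      have hsub : Y.filter (R t) ⊆ X₀ := (Finset.filter_subset _ _).trans hY
      have hlarge : K * (2 / η) ^ r ≤ ((Y.filter (R t)).card : ℝ) := by
        refine le_trans ?_ ht2
        have h1 : η / 2 * (K * (2 / η) ^ (r + 1)) ≤ η / 2 * (Y.card : ℝ) :=
          mul_le_mul_of_nonneg_left hYK (by positivity)
        refine le_trans (le_of_eq ?_) h1
        rw [pow_succ]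
        field_simp
      refine le_trans ?_ (ih (Y.filter (R t)) hsub hlarge)
      refine mul_le_mul_of_nonneg_left ?_ (by positivity)
      exact pow_le_pow_left₀ (by positivity) ht2 r
    show _ ≤ ((∑ t ∈ Y, tc R r (Y.filter (R t)) : ℕ) : ℝ)
    push_cast
    have hchoose : (r + 1 + 1).choose 2 = (r + 1).choose 2 + (r + 1) := by
      rw [Nat.choose_succ_succ' (r + 1) 1, Nat.choose_one_right]
      ring
    calc (η / 2) ^ ((r + 1 + 1).choose 2) * (Y.card : ℝ) ^ (r + 1)
        = (η / 2 * (Y.card : ℝ)) * ((η / 2) ^ ((r + 1).choose 2) * (η / 2 * (Y.card : ℝ)) ^ r) := by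
          rw [hchoose, pow_add, mul_pow, pow_succ (η / 2) r, pow_succ (Y.card : ℝ) r]
          ring
      _ ≤ (G.card : ℝ) * ((η / 2) ^ ((r + 1).choose 2) * (η / 2 * (Y.card : ℝ)) ^ r) :=
          mul_le_mul_of_nonneg_right hcount (by positivity)
      _ = ∑ t ∈ G, ((η / 2) ^ ((r + 1).choose 2) * (η / 2 * (Y.card : ℝ)) ^ r) := by
          rw [Finset.sum_const, nsmul_eq_mul]
      _ ≤ ∑ t ∈ G, (tc R r (Y.filter (R t)) : ℝ) := Finset.sum_le_sum hterm
      _ ≤ ∑ t ∈ Y, (tc R r (Y.filter (R t)) : ℝ) := by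
          refine Finset.sum_le_sum_of_subset_of_nonneg (Finset.filter_subset _ _) ?_
          intro t _ _
          positivity

/-- C3 -/
theorem extremal (X₀ : Finset ι) (K r E : ℕ) (hrE : r ≤ E) (τ : ℝ) (hK : 1 ≤ K) (hX : K ≤ X₀.card)
    (hτ : 0 < τ) (hlow : ∀ Y ⊆ X₀, K ≤ Y.card → τ * (Y.card : ℝ) ^ r ≤ tc R r Y) :
    ∃ I ⊆ X₀, K ≤ I.card ∧ τ * (X₀.card : ℝ) ^ (E - r) ≤ (I.card : ℝ) ^ (E - r) ∧
      ∀ D ⊆ I, K ≤ D.card → (tc R r I : ℝ) * (D.card : ℝ) ^ E ≤ tc R r D * (I.card : ℝ) ^ E := by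
  have hne : (X₀.powerset.filter (fun Y => K ≤ Y.card)).Nonempty :=
    ⟨X₀, Finset.mem_filter.2 ⟨Finset.mem_powerset_self _, hX⟩⟩
  obtain ⟨I, hI, hmin⟩ := Finset.exists_min_image (X₀.powerset.filter (fun Y => K ≤ Y.card))
    (fun Y => (tc R r Y : ℝ) / (Y.card : ℝ) ^ E) hne
  obtain ⟨hI1, hI2⟩ := Finset.mem_filter.1 hI
  have hIX : I ⊆ X₀ := Finset.mem_powerset.1 hI1
  have hkey : ∀ D ⊆ X₀, K ≤ D.card →
      (tc R r I : ℝ) * (D.card : ℝ) ^ E ≤ tc R r D * (I.card : ℝ) ^ E := by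
    intro D hD hDK
    have h1 := hmin D (Finset.mem_filter.2 ⟨Finset.mem_powerset.2 hD, hDK⟩)
    have hDpos : (0 : ℝ) < D.card := by
      have : 0 < D.card := lt_of_lt_of_le hK hDK
      exact_mod_cast this
    have hIpos : (0 : ℝ) < I.card := by
      have : 0 < I.card := lt_of_lt_of_le hK hI2
      exact_mod_cast this
    have h2 : (tc R r I : ℝ) / (I.card : ℝ) ^ E ≤ (tc R r D : ℝ) / (D.card : ℝ) ^ E := h1
    rw [div_le_div_iff₀ (by positivity) (by positivity)] at h2
    exact h2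
  refine ⟨I, hIX, hI2, ?_, fun D hD hDK => hkey D (hD.trans hIX) hDK⟩
  have hIpos : (0 : ℝ) < I.card := by
    have : 0 < I.card := lt_of_lt_of_le hK hI2
    exact_mod_cast this
  have hXpos : (0 : ℝ) < X₀.card := by
    have : 0 < X₀.card := lt_of_lt_of_le hK hX
    exact_mod_cast this
  have h1 := hkey X₀ (Finset.Subset.refl _) hX
  have h2 := hlow I hIX hI2
  have h3 : (tc R r X₀ : ℝ) ≤ (X₀.card : ℝ) ^ r := by exact_mod_cast tc_le R r X₀
  have h4 : τ * (I.card : ℝ) ^ r * (X₀.card : ℝ) ^ E ≤ (X₀.card : ℝ) ^ r * (I.card : ℝ) ^ E :=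
    calc τ * (I.card : ℝ) ^ r * (X₀.card : ℝ) ^ E ≤ (tc R r I : ℝ) * (X₀.card : ℝ) ^ E :=
          mul_le_mul_of_nonneg_right h2 (by positivity)
      _ ≤ tc R r X₀ * (I.card : ℝ) ^ E := h1
      _ ≤ (X₀.card : ℝ) ^ r * (I.card : ℝ) ^ E := mul_le_mul_of_nonneg_right h3 (by positivity)
  have h5 : (X₀.card : ℝ) ^ E = (X₀.card : ℝ) ^ (E - r) * (X₀.card : ℝ) ^ r := by
    rw [← pow_add, Nat.sub_add_cancel hrE]
  have h6 : (I.card : ℝ) ^ E = (I.card : ℝ) ^ (E - r) * (I.card : ℝ) ^ r := by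
    rw [← pow_add, Nat.sub_add_cancel hrE]
  rw [h5, h6] at h4
  have h7 : (τ * (X₀.card : ℝ) ^ (E - r)) * ((I.card : ℝ) ^ r * (X₀.card : ℝ) ^ r) ≤
      (I.card : ℝ) ^ (E - r) * ((I.card : ℝ) ^ r * (X₀.card : ℝ) ^ r) := by
    calc (τ * (X₀.card : ℝ) ^ (E - r)) * ((I.card : ℝ) ^ r * (X₀.card : ℝ) ^ r)
        = τ * (I.card : ℝ) ^ r * ((X₀.card : ℝ) ^ (E - r) * (X₀.card : ℝ) ^ r) := by ring
      _ ≤ (X₀.card : ℝ) ^ r * ((I.card : ℝ) ^ (E - r) * (I.card : ℝ) ^ r) := h4
      _ = (I.card : ℝ) ^ (E - r) * ((I.card : ℝ) ^ r * (X₀.card : ℝ) ^ r) := by ring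
  exact le_of_mul_le_mul_right h7 (by positivity)

/-- C4 -/
theorem sum_common (G : ι → β → Prop) [∀ i z, Decidable (G i z)] (r : ℕ) (Y : Finset ι) (Z : Finset β) :
    ∑ f ∈ chains R r Y, (Z.filter (fun z => ∀ i, G (f i) z)).card
      = ∑ z ∈ Z, tc R r (Y.filter (fun i => G i z)) := by
  have h1 : ∀ z ∈ Z, tc R r (Y.filter (fun i => G i z)) =
      ((chains R r Y).filter (fun f => ∀ i, G (f i) z)).card := by
    intro z _
    rw [← card_chains]
    congr 1
    ext f
    rw [mem_chains', Finset.mem_filter, mem_chains']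
    simp only [Finset.mem_filter]
    constructor
    · rintro ⟨h1, h2⟩
      exact ⟨⟨fun i => (h1 i).1, h2⟩, fun i => (h1 i).2⟩
    · rintro ⟨⟨h1, h2⟩, h3⟩
      exact ⟨fun i => ⟨h1 i, h3 i⟩, h2⟩
  rw [Finset.sum_congr rfl h1]
  exact Finset.sum_card_bipartiteAbove_eq_sum_card_bipartiteBelow
    (fun (f : Fin r → ι) (z : β) => ∀ i, G (f i) z)

/-- C5 -/
theorem many_good (G : ι → β → Prop) [∀ i z, Decidable (G i z)] (I : Finset ι) (Z : Finset β)
    (K r E : ℕ) (hE : 1 ≤ E) (ρ : ℝ) (hρ : 0 < ρ) (hρ1 : ρ ≤ 1)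
    (hext : ∀ D ⊆ I, K ≤ D.card → (tc R r I : ℝ) * (D.card : ℝ) ^ E ≤ tc R r D * (I.card : ℝ) ^ E)
    (hI : 0 < I.card) (hKI : (K : ℝ) ≤ ρ / 2 * I.card)
    (hG : ρ * (I.card * Z.card : ℝ) ≤ ec G I Z) (w : ℝ) (hw : w ≤ ρ ^ E / 4 * Z.card) :
    ρ ^ E / 4 * (tc R r I : ℝ) ≤
      ((chains R r I).filter (fun f => w ≤ ((Z.filter (fun z => ∀ i, G (f i) z)).card : ℝ))).card := by
  have hρE0 : 0 < ρ ^ E := pow_pos hρ E
  have hρE1 : ρ ^ E ≤ 1 := pow_le_one₀ hρ.le hρ1
  have htc0 : (0 : ℝ) ≤ tc R r I := Nat.cast_nonneg _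
  have hIpos : (0 : ℝ) < I.card := by exact_mod_cast hI
  rcases Nat.eq_zero_or_pos Z.card with hZ | hZ
  · -- no `z`: all chains are good
    have hw0 : w ≤ 0 := by
      rw [hZ] at hw
      simpa using hw
    have hall : (chains R r I).filter
        (fun f => w ≤ ((Z.filter (fun z => ∀ i, G (f i) z)).card : ℝ)) = chains R r I := by
      refine Finset.filter_true_of_mem fun f _ => ?_
      exact hw0.trans (Nat.cast_nonneg _)
    rw [hall, card_chains]
    nlinarith
  have hZpos : (0 : ℝ) < Z.card := by exact_mod_cast hZ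
  -- the sum of the sizes of the common neighbourhoods
  set d : β → ℝ := fun z => ((I.filter (fun i => G i z)).card : ℝ) with hd
  have hec : (ec G I Z : ℝ) = ∑ z ∈ Z, d z := by
    have h1 : ec G I Z = ∑ z ∈ Z, (I.filter (fun i => G i z)).card := by
      rw [ec_eq_sum]
      exact Finset.sum_card_bipartiteAbove_eq_sum_card_bipartiteBelow (fun i z => G i z)
    rw [h1]
    push_cast
    rfl
  have hpoint : ∀ z ∈ Z, (tc R r I : ℝ) * ((d z) ^ E - (K : ℝ) ^ E) ≤
      (tc R r (I.filter (fun i => G i z)) : ℝ) * (I.card : ℝ) ^ E := by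
    intro z _
    by_cases hK : K ≤ (I.filter (fun i => G i z)).card
    · refine le_trans ?_ (hext _ (Finset.filter_subset _ _) hK)
      refine mul_le_mul_of_nonneg_left ?_ htc0
      have : (0 : ℝ) ≤ (K : ℝ) ^ E := by positivity
      simp only [hd]
      linarith
    · have h1 : d z ≤ (K : ℝ) := by
        have h2 : (I.filter (fun i => G i z)).card ≤ K := (not_le.1 hK).le
        simp only [hd]
        exact_mod_cast h2
      have h0 : 0 ≤ d z := by simp only [hd]; positivity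
      have h2 : (d z) ^ E ≤ (K : ℝ) ^ E := pow_le_pow_left₀ h0 h1 E
      have h3 : (tc R r I : ℝ) * ((d z) ^ E - (K : ℝ) ^ E) ≤ 0 :=
        mul_nonpos_of_nonneg_of_nonpos htc0 (by linarith)
      refine h3.trans ?_
      positivity
  have hsum1 : (tc R r I : ℝ) * (∑ z ∈ Z, (d z) ^ E - Z.card * (K : ℝ) ^ E) ≤
      (∑ z ∈ Z, (tc R r (I.filter (fun i => G i z)) : ℝ)) * (I.card : ℝ) ^ E := by
    have h1 := Finset.sum_le_sum hpoint
    rw [← Finset.mul_sum, Finset.sum_sub_distrib, Finset.sum_const, nsmul_eq_mul,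
      ← Finset.sum_mul] at h1
    exact h1
  -- power mean
  have hpm : ρ ^ E * (I.card : ℝ) ^ E * Z.card ≤ ∑ z ∈ Z, (d z) ^ E := by
    obtain ⟨E', rfl⟩ : ∃ E', E = E' + 1 := ⟨E - 1, by omega⟩
    have h1 : (∑ z ∈ Z, d z) ^ (E' + 1) ≤ (Z.card : ℝ) ^ E' * ∑ z ∈ Z, (d z) ^ (E' + 1) :=
      pow_sum_le_card_mul_sum_pow (fun z _ => by simp only [hd]; positivity) E'
    have h2 : (ρ * (I.card * Z.card : ℝ)) ^ (E' + 1) ≤ (∑ z ∈ Z, d z) ^ (E' + 1) := by
      rw [← hec]
      exact pow_le_pow_left₀ (by positivity) hG _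
    have h3 := h2.trans h1
    have h4 : (Z.card : ℝ) ^ E' * (ρ ^ (E' + 1) * (I.card : ℝ) ^ (E' + 1) * Z.card) ≤
        (Z.card : ℝ) ^ E' * ∑ z ∈ Z, (d z) ^ (E' + 1) := by
      refine le_trans (le_of_eq ?_) h3
      rw [mul_pow, mul_pow, pow_succ (Z.card : ℝ) E']
      ring
    exact le_of_mul_le_mul_left h4 (by positivity)
  have hKE : (K : ℝ) ^ E ≤ ρ ^ E / 2 * (I.card : ℝ) ^ E := by
    have h1 : (K : ℝ) ^ E ≤ (ρ / 2 * I.card) ^ E := pow_le_pow_left₀ (by positivity) hKI E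
    refine h1.trans ?_
    rw [mul_pow, div_pow]
    refine mul_le_mul_of_nonneg_right ?_ (by positivity)
    refine div_le_div_of_nonneg_left hρE0.le (by norm_num) ?_
    calc (2 : ℝ) = 2 ^ 1 := by norm_num
      _ ≤ 2 ^ E := pow_le_pow_right₀ (by norm_num) hE
  have hS : (tc R r I : ℝ) * (ρ ^ E / 2 * Z.card) ≤
      ∑ z ∈ Z, (tc R r (I.filter (fun i => G i z)) : ℝ) := by
    have h1 : (tc R r I : ℝ) * (ρ ^ E / 2 * Z.card) * (I.card : ℝ) ^ E ≤
        (∑ z ∈ Z, (tc R r (I.filter (fun i => G i z)) : ℝ)) * (I.card : ℝ) ^ E := by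
      refine le_trans ?_ hsum1
      rw [mul_assoc]
      refine mul_le_mul_of_nonneg_left ?_ htc0
      have h2 : (Z.card : ℝ) * (K : ℝ) ^ E ≤ Z.card * (ρ ^ E / 2 * (I.card : ℝ) ^ E) :=
        mul_le_mul_of_nonneg_left hKE hZpos.le
      nlinarith
    exact le_of_mul_le_mul_right h1 (by positivity)
  -- split the chains
  have hC4 : ∑ f ∈ chains R r I, ((Z.filter (fun z => ∀ i, G (f i) z)).card : ℝ) =
      ∑ z ∈ Z, (tc R r (I.filter (fun i => G i z)) : ℝ) := by
    have h1 := sum_common R G r I Z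
    exact_mod_cast h1
  have hsplit : ∑ f ∈ chains R r I, ((Z.filter (fun z => ∀ i, G (f i) z)).card : ℝ) ≤
      (((chains R r I).filter
        (fun f => w ≤ ((Z.filter (fun z => ∀ i, G (f i) z)).card : ℝ))).card : ℝ) * Z.card +
      (tc R r I : ℝ) * (ρ ^ E / 4 * Z.card) := by
    rw [← Finset.sum_filter_add_sum_filter_not (chains R r I)
      (fun f => w ≤ ((Z.filter (fun z => ∀ i, G (f i) z)).card : ℝ))]
    refine add_le_add ?_ ?_
    · calc _ ≤ ∑ f ∈ (chains R r I).filter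
            (fun f => w ≤ ((Z.filter (fun z => ∀ i, G (f i) z)).card : ℝ)), (Z.card : ℝ) := by
            refine Finset.sum_le_sum fun f _ => ?_
            exact_mod_cast Finset.card_filter_le _ _
        _ = _ := by rw [Finset.sum_const, nsmul_eq_mul]
    · calc _ ≤ ∑ f ∈ (chains R r I).filter
            (fun f => ¬ w ≤ ((Z.filter (fun z => ∀ i, G (f i) z)).card : ℝ)),
              (ρ ^ E / 4 * Z.card) := by
            refine Finset.sum_le_sum fun f hf => ?_
            exact (not_le.1 (Finset.mem_filter.1 hf).2).le.trans hw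
        _ ≤ _ := by
            rw [Finset.sum_const, nsmul_eq_mul]
            refine mul_le_mul_of_nonneg_right ?_ (by positivity)
            rw [← card_chains]
            exact_mod_cast Finset.card_filter_le _ _
  rw [hC4] at hsplit
  have h9 : (ρ ^ E / 4 * (tc R r I : ℝ)) * Z.card ≤
      (((chains R r I).filter
        (fun f => w ≤ ((Z.filter (fun z => ∀ i, G (f i) z)).card : ℝ))).card : ℝ) * Z.card := by
    have h10 := hS.trans hsplit
    nlinarith
  exact le_of_mul_le_mul_right h9 hZpos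

end C


end Pool.Agent.TT2
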