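import Mathlib
import Pool.Agent.helper11.OG.Defs

/-!
# Project TT2 (MP_7dd320): OMaker builds TT_k with k = (2 + δ) log n in the orientation game.
Definitions shared by all modules.
-/

namespace Pool.Agent.TT2

open Finset
open Pool.Agent.helper11.OG (Free HasCopy)

/-- The transitive tournament on `Fin k`. -/
def TTk (k : ℕ) : Fin k → Fin k → Prop := fun i j => i < j

/-- `MWins T t A`: OMaker wins the game with target `T` from the position `A`; it is OMaker's turn if
`t = true` and OBreaker's turn if `t = false`.  The game ends when no edge is undirected, and then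
OMaker wins if there is a copy of `T`. -/
inductive MWins {n k : ℕ} (T : Fin k → Fin k → Prop) : Bool → Finset (Fin n × Fin n) → Prop
  | finish (t : Bool) (A : Finset (Fin n × Fin n)) (h : ∀ a, ¬ Free A a) (hc : HasCopy T A) :
      MWins T t A
  | maker (A : Finset (Fin n × Fin n)) (a : Fin n × Fin n) (h : Free A a)
      (hw : MWins T false (insert a A)) : MWins T true A
  | breaker (A : Finset (Fin n × Fin n)) (h : ∃ a, Free A a)
      (hw : ∀ a, Free A a → MWins T true (insert a A)) : MWins T false A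

/-- OMaker has a winning strategy in `Or(T, n)`; OMaker moves first. -/
def OMakerWins {k : ℕ} (T : Fin k → Fin k → Prop) (n : ℕ) : Prop :=
  MWins T true (∅ : Finset (Fin n × Fin n))

/-! ### chains -/

/-- Number of chains `t₁ → t₂ → ... → t_r` (all `R t_i t_j`, `i < j`) inside `Y`. -/
def tc {ι : Type*} (R : ι → ι → Prop) [DecidableRel R] : ℕ → Finset ι → ℕ
  | 0, _ => 1
  | (r + 1), Y => ∑ t ∈ Y, tc R r (Y.filter (R t))

/-- The chains themselves, as functions on `Fin r`. -/
def chains {ι : Type*} [DecidableEq ι] (R : ι → ι → Prop) [DecidableRel R] (r : ℕ) (Y : Finset ι) :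
    Finset (Fin r → ι) :=
  (Fintype.piFinset fun _ => Y).filter (fun f => ∀ i j, i < j → R (f i) (f j))

/-- Number of pairs `(u, v) ∈ U × W` with `R u v`. -/
def ec {α β : Type*} (R : α → β → Prop) [∀ a b, Decidable (R a b)] (U : Finset α) (W : Finset β) : ℕ :=
  ((U ×ˢ W).filter (fun p => R p.1 p.2)).card

/-- `Y` contains a chain (list, pairwise `R`) of length `k`. -/
def HasChain {ι : Type*} (R : ι → ι → Prop) (Y : Finset ι) (k : ℕ) : Prop :=
  ∃ l : List ι, l.length = k ∧ l.Pairwise R ∧ ∀ x ∈ l, x ∈ Y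

/-- All four arcs between the twins `p` and `q` go from `p` to `q`. -/
def Tw {V : Type*} (R : V → V → Prop) (p q : V × V) : Prop :=
  R p.1 q.1 ∧ R p.1 q.2 ∧ R p.2 q.1 ∧ R p.2 q.2

instance {V : Type*} (R : V → V → Prop) [DecidableRel R] : DecidableRel (Tw R) := fun p q => by
  unfold Tw; infer_instance

/-- The pairs of `𝒳` are vertex disjoint (and have two different vertices). -/
def VDisj {V : Type*} (𝒳 : Finset (V × V)) : Prop :=
  (∀ p ∈ 𝒳, ∀ q ∈ 𝒳, p.1 = q.1 → p = q) ∧ (∀ p ∈ 𝒳, ∀ q ∈ 𝒳, p.2 = q.2 → p = q) ∧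
    ∀ p ∈ 𝒳, ∀ q ∈ 𝒳, p.1 ≠ q.2

/-! ### Maker-Breaker -/

/-- Maker (to move) wins on the free set `F` when she has already claimed `X`: she can reach a set with
`W`.  (`W` is used for sets that only grow; Maker moves first, Breaker answers.) -/
inductive MBWin {E : Type*} [DecidableEq E] (W : Finset E → Prop) : Finset E → Finset E → Prop
  | win (F X : Finset E) (h : W X) : MBWin W F X
  | move (F X : Finset E) (e : E) (he : e ∈ F) (hlast : F.erase e = ∅ → W (insert e X))
      (hw : ∀ f ∈ F.erase e, MBWin W ((F.erase e).erase f) (insert e X)) : MBWin W F X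

/-- The pairs `(x, y)`, `x < y`, of a finite set. -/
def prs {V : Type*} [LinearOrder V] (S : Finset V) : Finset (V × V) :=
  (S ×ˢ S).filter (fun p => p.1 < p.2)

/-! ### positions -/

instance {n : ℕ} (A : Finset (Fin n × Fin n)) : DecidablePred (Free A) := fun a =>
  inferInstanceAs (Decidable (a.1 ≠ a.2 ∧ a ∉ A ∧ a.swap ∉ A))

/-- No loops, no 2-cycles. -/
def IsPos {n : ℕ} (A : Finset (Fin n × Fin n)) : Prop := ∀ a ∈ A, a.1 ≠ a.2 ∧ a.swap ∉ A

/-- Both edges of the block (twin `p`, vertex `z`) are undirected. -/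
def Untouched {n : ℕ} (A : Finset (Fin n × Fin n)) (p : Fin n × Fin n) (z : Fin n) : Prop :=
  Free A (p.1, z) ∧ Free A (p.2, z)

/-- The block (twin `p`, vertex `z`) has one of the three good types plus-plus, plus-minus,
minus-minus. -/
def OKtype {n : ℕ} (A : Finset (Fin n × Fin n)) (p : Fin n × Fin n) (z : Fin n) : Prop :=
  ((p.1, z) ∈ A ∧ (p.2, z) ∈ A) ∨ ((p.1, z) ∈ A ∧ (z, p.2) ∈ A) ∨ ((z, p.1) ∈ A ∧ (z, p.2) ∈ A)

end Pool.Agent.TT2
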