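import Pool.Agent.TT2.Defs

/-!
# Project TT2, module P0 (selection lemma) (see /team-store/7dd320_TT.md)
-/

namespace Pool.Agent.TT2

open Finset
open Pool.Agent.helper11.OG (Free HasCopy)

/-- Two fixed coordinates of a uniform map agree with probability at most `1 / |Pool|`. -/
private lemma coll_card {J π : Type*} [Fintype J] [DecidableEq J] [DecidableEq π] (Pool : Finset π)
    (i i' : J) (hne : i' ≠ i) :
    ((Fintype.piFinset fun _ : J => Pool).filter (fun ψ => ψ i' = ψ i)).card * Pool.card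
      ≤ (Fintype.piFinset fun _ : J => Pool).card := by
  rw [← Finset.card_product]
  apply Finset.card_le_card_of_injOn (fun x : (J → π) × π => Function.update x.1 i x.2)
  · rintro ⟨ψ, p⟩ h
    rw [Finset.mem_coe, Finset.mem_product, Finset.mem_filter, Fintype.mem_piFinset] at h
    rw [Finset.mem_coe, Fintype.mem_piFinset]
    intro a
    by_cases ha : a = i
    · subst ha
      simpa using h.2
    · simpa [Function.update_of_ne ha] using h.1.1 a
  · rintro ⟨ψ, p⟩ h ⟨ψ', p'⟩ h' heq
    rw [Finset.mem_coe, Finset.mem_product, Finset.mem_filter, Fintype.mem_piFinset] at h h'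
    have heq' : Function.update ψ i p = Function.update ψ' i p' := heq
    have h1 : p = p' := by
      have := congrFun heq' i
      simpa using this
    have h2 : ∀ a, a ≠ i → ψ a = ψ' a := by
      intro a ha
      have := congrFun heq' a
      simpa [Function.update_of_ne ha] using this
    have h3 : ψ = ψ' := by
      funext a
      by_cases ha : a = i
      · subst ha
        have e1 : ψ i' = ψ a := h.1.2
        have e2 : ψ' i' = ψ' a := h'.1.2
        rw [← e1, ← e2]
        exact h2 i' hne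
      · exact h2 a ha
    rw [h1, h3]

/-- Exponential moment of the number of hits. -/
private lemma mgf {J π : Type*} [Fintype J] [DecidableEq J] [DecidableEq π] (Pool : Finset π)
    (hJ : 0 < Fintype.card J) (hPool : Pool.card = 8 * Fintype.card J) (B : J → Finset π) (K : ℕ)
    (hB : ∀ i, B i ⊆ Pool ∧ (B i).card ≤ K) (lam : ℝ) (hlam : 1 ≤ lam) :
    ∑ ψ ∈ Fintype.piFinset (fun _ : J => Pool), lam ^ (univ.filter (fun i => ψ i ∈ B i)).card
      ≤ ((Fintype.piFinset (fun _ : J => Pool)).card : ℝ) * Real.exp (lam * K / 8) := by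
  have hP : (0 : ℝ) < Pool.card := by
    rw [hPool]; exact_mod_cast (by omega : 0 < 8 * Fintype.card J)
  have h1 : ∑ ψ ∈ Fintype.piFinset (fun _ : J => Pool), lam ^ (univ.filter (fun i => ψ i ∈ B i)).card
      = ∑ ψ ∈ Fintype.piFinset (fun _ : J => Pool), ∏ i : J, (if ψ i ∈ B i then lam else 1) := by
    apply Finset.sum_congr rfl
    intro ψ _
    rw [Finset.prod_ite]
    simp
  have h2 : ∑ ψ ∈ Fintype.piFinset (fun _ : J => Pool), ∏ i : J, (if ψ i ∈ B i then lam else 1)
      = ∏ i : J, ∑ p ∈ Pool, (if p ∈ B i then lam else 1) :=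
    (Finset.prod_univ_sum (fun _ : J => Pool) (fun i p => if p ∈ B i then lam else (1 : ℝ))).symm
  have h3 : ∀ i : J, ∑ p ∈ Pool, (if p ∈ B i then lam else 1)
      ≤ (Pool.card : ℝ) * Real.exp (lam * K / 8 / Fintype.card J) := by
    intro i
    have e1 : ∑ p ∈ Pool, (if p ∈ B i then lam else 1)
        = (Pool.card : ℝ) + (lam - 1) * (B i).card := by
      have : ∀ p ∈ Pool, (if p ∈ B i then lam else 1) = 1 + (if p ∈ B i then (lam - 1) else 0) := by
        intro p _
        split_ifs <;> ring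
      rw [Finset.sum_congr rfl this, Finset.sum_add_distrib, Finset.sum_ite_mem,
        Finset.inter_eq_right.mpr (hB i).1, Finset.sum_const, Finset.sum_const]
      simp only [nsmul_eq_mul]
      ring
    rw [e1]
    have e2 : (1 : ℝ) + lam * K / 8 / Fintype.card J ≤ Real.exp (lam * K / 8 / Fintype.card J) := by
      have := Real.add_one_le_exp (lam * K / 8 / Fintype.card J : ℝ)
      linarith
    have e3 : ((B i).card : ℝ) ≤ K := by exact_mod_cast (hB i).2
    have e4 : (lam - 1) * ((B i).card : ℝ) ≤ lam * K := by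
      have a1 : (lam - 1) * ((B i).card : ℝ) ≤ (lam - 1) * K :=
        mul_le_mul_of_nonneg_left e3 (by linarith)
      have a2 : (0 : ℝ) ≤ K := Nat.cast_nonneg K
      nlinarith
    have e5 : (Pool.card : ℝ) = 8 * Fintype.card J := by rw [hPool]; push_cast; ring
    have hJ' : (0 : ℝ) < Fintype.card J := by exact_mod_cast hJ
    calc (Pool.card : ℝ) + (lam - 1) * (B i).card ≤ (Pool.card : ℝ) + lam * K := by linarith
      _ = (Pool.card : ℝ) * (1 + lam * K / 8 / Fintype.card J) := by
          rw [e5]; field_simp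
      _ ≤ (Pool.card : ℝ) * Real.exp (lam * K / 8 / Fintype.card J) :=
          mul_le_mul_of_nonneg_left e2 hP.le
  rw [h1, h2]
  calc ∏ i : J, ∑ p ∈ Pool, (if p ∈ B i then lam else 1)
      ≤ ∏ _i : J, ((Pool.card : ℝ) * Real.exp (lam * K / 8 / Fintype.card J)) := by
        apply Finset.prod_le_prod
        · intro i _
          apply Finset.sum_nonneg
          intro p _
          split_ifs <;> linarith
        · intro i _
          exact h3 i
    _ = ((Fintype.piFinset (fun _ : J => Pool)).card : ℝ) * Real.exp (lam * K / 8) := by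
        have hJ' : (Fintype.card J : ℝ) ≠ 0 := by exact_mod_cast hJ.ne'
        rw [Finset.prod_const, mul_pow, ← Real.exp_nat_mul, Fintype.card_piFinset,
          Finset.prod_const, Finset.card_univ]
        push_cast
        congr 2
        field_simp

/-- P0: selection lemma (first moment over all maps `J → Pool`) -/
theorem select {ι π α : Type*} [DecidableEq ι] [DecidableEq π] (J : Finset ι) (Pool : Finset π)
    (hJ : J.Nonempty) (hPool : Pool.card = 8 * J.card) (Tests : Finset α) (Bad : α → ι → Finset π)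
    (K f : α → ℕ) (hBad : ∀ t ∈ Tests, ∀ i ∈ J, Bad t i ⊆ Pool ∧ (Bad t i).card ≤ K t)
    (lam : ℝ) (hlam : 1 ≤ lam)
    (hsum : ∑ t ∈ Tests, Real.exp (lam * K t / 8) / lam ^ (f t) < 3 / 4) :
    ∃ φ : ι → π, (∀ i ∈ J, φ i ∈ Pool) ∧
      (∀ t ∈ Tests, (J.filter (fun i => φ i ∈ Bad t i)).card < f t) ∧
      2 * (J.filter (fun i => ∃ i' ∈ J, i' ≠ i ∧ φ i' = φ i)).card < J.card := by
  classical
  have hJc : 0 < J.card := hJ.card_pos
  have hFc : Fintype.card J = J.card := Fintype.card_coe J
  have hPpos : 0 < Pool.card := by omega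
  obtain ⟨p0, hp0⟩ : Pool.Nonempty := Finset.card_pos.mp hPpos
  have hlam0 : (0 : ℝ) < lam := by linarith
  set Ω : Finset (J → π) := Fintype.piFinset (fun _ : J => Pool) with hΩ
  have hΩpos : (0 : ℝ) < Ω.card := by
    have : 0 < Ω.card := by
      rw [hΩ, Fintype.card_piFinset, Finset.prod_const]
      exact pow_pos hPpos _
    exact_mod_cast this
  -- number of hits and of collisions
  set X : α → (J → π) → ℕ := fun t ψ => (univ.filter (fun i : J => ψ i ∈ Bad t i)).card with hX
  set C : (J → π) → ℕ := fun ψ => (univ.filter (fun i : J => ∃ i' : J, i' ≠ i ∧ ψ i' = ψ i)).card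
    with hC
  -- bound for the tests
  have hT : ∀ t ∈ Tests, ∑ ψ ∈ Ω, lam ^ (X t ψ) / lam ^ (f t)
      ≤ (Ω.card : ℝ) * (Real.exp (lam * K t / 8) / lam ^ (f t)) := by
    intro t ht
    rw [← Finset.sum_div, mul_div_assoc']
    apply div_le_div_of_nonneg_right _ (pow_nonneg hlam0.le _)
    exact mgf Pool (by rw [hFc]; exact hJc) (by rw [hFc]; exact hPool) (fun i : J => Bad t i) (K t)
      (fun i => hBad t ht i i.2) lam hlam
  -- bound for the collisions
  have hCol : ∑ ψ ∈ Ω, (C ψ : ℝ) * 8 ≤ (Ω.card : ℝ) * J.card := by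
    have h1 : ∀ ψ ∈ Ω, C ψ ≤ ∑ i : J, ∑ i' ∈ univ.erase i, (if ψ i' = ψ i then 1 else 0) := by
      intro ψ _
      rw [hC]
      simp only
      rw [Finset.card_filter]
      apply Finset.sum_le_sum
      intro i _
      split_ifs with h
      · obtain ⟨i', h1, h2⟩ := h
        have : (if ψ i' = ψ i then 1 else 0) ≤ ∑ i' ∈ univ.erase i, (if ψ i' = ψ i then 1 else 0) :=
          Finset.single_le_sum (f := fun i' => if ψ i' = ψ i then 1 else 0)
            (fun _ _ => Nat.zero_le _) (Finset.mem_erase.mpr ⟨h1, Finset.mem_univ _⟩)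
        simpa [h2] using this
      · exact Nat.zero_le _
    have h2 : (∑ ψ ∈ Ω, C ψ) * Pool.card ≤ J.card * J.card * Ω.card := by
      calc (∑ ψ ∈ Ω, C ψ) * Pool.card
          ≤ (∑ ψ ∈ Ω, ∑ i : J, ∑ i' ∈ univ.erase i, (if ψ i' = ψ i then 1 else 0)) * Pool.card :=
            Nat.mul_le_mul_right _ (Finset.sum_le_sum h1)
        _ = ∑ i : J, ∑ i' ∈ univ.erase i, (Ω.filter (fun ψ => ψ i' = ψ i)).card * Pool.card := by
            rw [Finset.sum_comm, Finset.sum_mul]
            apply Finset.sum_congr rfl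
            intro i _
            rw [Finset.sum_comm, Finset.sum_mul]
            apply Finset.sum_congr rfl
            intro i' _
            rw [Finset.card_filter]
        _ ≤ ∑ i : J, ∑ i' ∈ univ.erase i, Ω.card := by
            apply Finset.sum_le_sum
            intro i _
            apply Finset.sum_le_sum
            intro i' hi'
            exact coll_card Pool i i' (Finset.ne_of_mem_erase hi')
        _ ≤ ∑ i : J, ∑ i' : J, Ω.card := by
            apply Finset.sum_le_sum
            intro i _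
            exact Finset.sum_le_sum_of_subset (Finset.erase_subset _ _)
        _ = J.card * J.card * Ω.card := by
            simp [Finset.sum_const, mul_assoc]
    have h3 : (∑ ψ ∈ Ω, C ψ) * 8 ≤ J.card * Ω.card := by
      rw [hPool] at h2
      have : J.card * ((∑ ψ ∈ Ω, C ψ) * 8) ≤ J.card * (J.card * Ω.card) := by
        calc J.card * ((∑ ψ ∈ Ω, C ψ) * 8) = (∑ ψ ∈ Ω, C ψ) * (8 * J.card) := by ring
          _ ≤ J.card * J.card * Ω.card := h2
          _ = J.card * (J.card * Ω.card) := by ring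
      exact Nat.le_of_mul_le_mul_left this hJc
    have h4 : ((∑ ψ ∈ Ω, C ψ : ℕ) : ℝ) * 8 ≤ J.card * Ω.card := by exact_mod_cast h3
    rw [← Finset.sum_mul]
    push_cast at h4
    linarith
  -- a good map
  have hJr : (0 : ℝ) < J.card := by exact_mod_cast hJc
  have hkey : ∃ ψ ∈ Ω, (∑ t ∈ Tests, lam ^ (X t ψ) / lam ^ (f t)) + 2 * (C ψ : ℝ) / J.card < 1 := by
    by_contra hcon
    push Not at hcon
    have h1 : (Ω.card : ℝ) ≤
        ∑ ψ ∈ Ω, ((∑ t ∈ Tests, lam ^ (X t ψ) / lam ^ (f t)) + 2 * (C ψ : ℝ) / J.card) := by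
      have := Finset.card_nsmul_le_sum Ω
        (fun ψ => (∑ t ∈ Tests, lam ^ (X t ψ) / lam ^ (f t)) + 2 * (C ψ : ℝ) / J.card) 1 hcon
      simpa using this
    rw [Finset.sum_add_distrib, Finset.sum_comm] at h1
    have h2 : ∑ t ∈ Tests, ∑ ψ ∈ Ω, lam ^ (X t ψ) / lam ^ (f t)
        ≤ (Ω.card : ℝ) * ∑ t ∈ Tests, (Real.exp (lam * K t / 8) / lam ^ (f t)) := by
      rw [Finset.mul_sum]
      exact Finset.sum_le_sum hT
    have h3 : ∑ ψ ∈ Ω, 2 * (C ψ : ℝ) / J.card ≤ (Ω.card : ℝ) * (1 / 4) := by
      have e1 : ∑ ψ ∈ Ω, 2 * (C ψ : ℝ) / J.card = (∑ ψ ∈ Ω, (C ψ : ℝ) * 8) / (4 * J.card) := by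
        rw [Finset.sum_div]
        apply Finset.sum_congr rfl
        intro ψ _
        field_simp
        ring
      rw [e1, div_le_iff₀ (by positivity)]
      calc ∑ ψ ∈ Ω, (C ψ : ℝ) * 8 ≤ (Ω.card : ℝ) * J.card := hCol
        _ = (Ω.card : ℝ) * (1 / 4) * (4 * J.card) := by ring
    have h4 : (Ω.card : ℝ) * ∑ t ∈ Tests, (Real.exp (lam * K t / 8) / lam ^ (f t))
        < (Ω.card : ℝ) * (3 / 4) := mul_lt_mul_of_pos_left hsum hΩpos
    linarith
  obtain ⟨ψ, hψ, hw⟩ := hkey
  have hnn : ∀ t, 0 ≤ lam ^ (X t ψ) / lam ^ (f t) := fun t => by positivity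
  have hCn : (0 : ℝ) ≤ 2 * (C ψ : ℝ) / J.card := by positivity
  have hSn : (0 : ℝ) ≤ ∑ t ∈ Tests, lam ^ (X t ψ) / lam ^ (f t) :=
    Finset.sum_nonneg fun t _ => hnn t
  set φ : ι → π := fun i => if h : i ∈ J then ψ ⟨i, h⟩ else p0 with hφ
  have hφψ : ∀ i : J, φ i = ψ i := by
    intro i
    simp [hφ, i.2]
  have hψmem : ∀ i : J, ψ i ∈ Pool := Fintype.mem_piFinset.mp hψ
  refine ⟨φ, ?_, ?_, ?_⟩
  · intro i hi
    have := hψmem ⟨i, hi⟩
    rw [← hφψ] at this
    exact this
  · intro t ht
    have hcard : (J.filter (fun i => φ i ∈ Bad t i)).card = X t ψ := by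
      rw [hX]
      simp only
      symm
      apply Finset.card_bij (fun (i : J) _ => (i : ι))
      · intro i hi
        rw [Finset.mem_filter] at hi ⊢
        refine ⟨i.2, ?_⟩
        rw [hφψ]
        exact hi.2
      · intro a _ b _ hab
        exact Subtype.ext hab
      · intro i hi
        rw [Finset.mem_filter] at hi
        refine ⟨⟨i, hi.1⟩, ?_, rfl⟩
        rw [Finset.mem_filter]
        refine ⟨Finset.mem_univ _, ?_⟩
        rw [← hφψ]
        exact hi.2
    rw [hcard]
    by_contra hge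
    push Not at hge
    have h1 : 1 ≤ lam ^ (X t ψ) / lam ^ (f t) := by
      rw [one_le_div (pow_pos hlam0 _)]
      exact pow_le_pow_right₀ hlam hge
    have h2 : lam ^ (X t ψ) / lam ^ (f t) ≤ ∑ t ∈ Tests, lam ^ (X t ψ) / lam ^ (f t) :=
      Finset.single_le_sum (f := fun t => lam ^ (X t ψ) / lam ^ (f t)) (fun t _ => hnn t) ht
    linarith
  · have hcard : (J.filter (fun i => ∃ i' ∈ J, i' ≠ i ∧ φ i' = φ i)).card = C ψ := by
      rw [hC]
      simp only
      symm
      apply Finset.card_bij (fun (i : J) _ => (i : ι))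
      · intro i hi
        rw [Finset.mem_filter] at hi ⊢
        obtain ⟨-, i', h1, h2⟩ := hi
        refine ⟨i.2, i', i'.2, ?_, ?_⟩
        · intro h
          exact h1 (Subtype.ext h)
        · rw [hφψ, hφψ]
          exact h2
      · intro a _ b _ hab
        exact Subtype.ext hab
      · intro i hi
        rw [Finset.mem_filter] at hi
        obtain ⟨hi1, i', hi', h1, h2⟩ := hi
        refine ⟨⟨i, hi1⟩, ?_, rfl⟩
        rw [Finset.mem_filter]
        refine ⟨Finset.mem_univ _, ⟨i', hi'⟩, ?_, ?_⟩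
        · intro h
          exact h1 (congrArg Subtype.val h)
        · rw [← hφψ, ← hφψ]
          exact h2
    rw [hcard]
    have h1 : 2 * (C ψ : ℝ) / J.card < 1 := by linarith
    rw [div_lt_one hJr] at h1
    exact_mod_cast h1

end Pool.Agent.TT2
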