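import Pool.Agent.TT2.Defs
import Pool.Agent.TT2.P0
/-!
# Project TT2, module P (pairing lemma) (see /team-store/7dd320_TT.md)
-/

namespace Pool.Agent.TT2

open Finset
open Pool.Agent.helper11.OG (Free HasCopy)

/-! ### counting -/

private theorem dcount {α β : Type*} (r : α → β → Prop) [∀ a b, Decidable (r a b)] (A : Finset α)
    (U : Finset β) : ∑ a ∈ A, (U.filter (fun t => r a t)).card =
      ∑ t ∈ U, (A.filter (fun a => r a t)).card := by
  simp only [card_filter]
  exact sum_comm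

private theorem ec_eq {α β : Type*} (r : α → β → Prop) [∀ a b, Decidable (r a b)] (A : Finset α)
    (U : Finset β) : ec r A U = ∑ t ∈ U, (A.filter (fun a => r a t)).card := by
  unfold ec
  rw [card_filter, sum_product_right]
  simp only [card_filter]

private theorem ec_eq' {α β : Type*} (r : α → β → Prop) [∀ a b, Decidable (r a b)] (A : Finset α)
    (U : Finset β) : ec r A U = ∑ a ∈ A, (U.filter (fun t => r a t)).card := by
  rw [ec_eq, dcount]

private theorem ec_mono {α β : Type*} (r : α → β → Prop) [∀ a b, Decidable (r a b)] {A A' : Finset α}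
    {U U' : Finset β} (hA : A ⊆ A') (hU : U ⊆ U') : ec r A U ≤ ec r A' U' := by
  unfold ec
  exact card_le_card (filter_subset_filter _ (product_subset_product hA hU))

private theorem ec_union {α β : Type*} [DecidableEq β] (r : α → β → Prop)
    [∀ a b, Decidable (r a b)] (A : Finset α) {U U' : Finset β} (h : Disjoint U U') :
    ec r A (U ∪ U') = ec r A U + ec r A U' := by
  rw [ec_eq, ec_eq, ec_eq, sum_union h]

private theorem ec_union_left {α β : Type*} [DecidableEq α] (r : α → β → Prop)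
    [∀ a b, Decidable (r a b)] {A A' : Finset α} (U : Finset β) (h : Disjoint A A') :
    ec r (A ∪ A') U = ec r A U + ec r A' U := by
  rw [ec_eq', ec_eq', ec_eq', sum_union h]

/-- among the subsets of size `k` there is one with small sum -/
private theorem small_sum {β : Type*} [DecidableEq β] (d : β → ℕ) (k : ℕ) :
    ∀ n : ℕ, ∀ S : Finset β, S.card = n → k ≤ n →
      ∃ U ⊆ S, U.card = k ∧ S.card * ∑ x ∈ U, d x ≤ k * ∑ x ∈ S, d x := by
  intro n
  induction n with
  | zero =>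
    intro S hS hk
    have : k = 0 := by omega
    subst this
    exact ⟨∅, empty_subset _, by simp, by simp⟩
  | succ n ih =>
    intro S hS hk
    rcases Nat.lt_or_ge n k with h | h
    · have : k = n + 1 := by omega
      subst this
      exact ⟨S, Subset.refl _, hS, by rw [hS]⟩
    · have hne : S.Nonempty := card_pos.mp (by omega)
      obtain ⟨x, hx, hmax⟩ := exists_max_image S d hne
      obtain ⟨U, hU, hUc, hUs⟩ := ih (S.erase x) (by rw [card_erase_of_mem hx, hS]; rfl) h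
      refine ⟨U, hU.trans (erase_subset _ _), hUc, ?_⟩
      have hsum : d x + ∑ y ∈ S.erase x, d y = ∑ y ∈ S, d y := add_sum_erase S d hx
      have hle : ∑ y ∈ S, d y ≤ (n + 1) * d x := by
        calc ∑ y ∈ S, d y ≤ ∑ _y ∈ S, d x := sum_le_sum hmax
          _ = (n + 1) * d x := by rw [sum_const, hS, smul_eq_mul]
      have hc : (S.erase x).card = n := by rw [card_erase_of_mem hx, hS]; rfl
      rw [hc] at hUs
      rw [hS]
      rcases Nat.eq_zero_or_pos n with h0 | h0
      · subst h0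
        have : k = 0 := by omega
        subst this
        have : U = ∅ := card_eq_zero.mp hUc
        subst this
        simp
      · set a := ∑ y ∈ U, d y
        set b := ∑ y ∈ S.erase x, d y
        set c := ∑ y ∈ S, d y
        have h1 : (n + 1) * b ≤ n * c := by
          have : (n + 1) * b + (n + 1) * d x = (n + 1) * c := by rw [← hsum]; ring
          nlinarith
        have h2 : n * ((n + 1) * a) ≤ n * (k * c) := by
          calc n * ((n + 1) * a) = (n + 1) * (n * a) := by ring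
            _ ≤ (n + 1) * (k * b) := Nat.mul_le_mul_left _ hUs
            _ = k * ((n + 1) * b) := by ring
            _ ≤ k * (n * c) := Nat.mul_le_mul_left _ h1
            _ = n * (k * c) := by ring
        exact Nat.le_of_mul_le_mul_left h2 h0

/-! ### the properties of a block -/

private def Dm {V : Type*} (R : V → V → Prop) (a : V) (t : V × V) : Prop := R a t.1 ∧ R a t.2

private instance {V : Type*} (R : V → V → Prop) [DecidableRel R] (a : V) (t : V × V) :
    Decidable (Dm R a t) := by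
  unfold Dm; infer_instance

private def E1 {V : Type*} (R : V → V → Prop) [DecidableRel R] (X : Finset V) (q1 w : ℕ)
    (T : Finset (V × V)) : Prop :=
  ∀ A ⊆ X, A.card = q1 →
    (T.filter (fun t => 36000000 * (A.filter (fun a => Dm R a t)).card < q1)).card < w

private def E2 {V : Type*} (R : V → V → Prop) [DecidableRel R] (q2 w : ℕ)
    (T T' : Finset (V × V)) : Prop :=
  ∀ U ⊆ T', U.card = q2 →
    (T.filter (fun t => 4 * 6000 ^ 4 * (U.filter (fun t' => Tw R t t')).card < q2)).card < w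

/-- few exceptions in the weakly jumbled set -/
private theorem wj {V : Type*} [DecidableEq V] (R : V → V → Prop) [DecidableRel R] (X : Finset V)
    (K₀ : ℕ) (hK₀ : 1 ≤ K₀)
    (hWJ : ∀ U ⊆ X, ∀ W ⊆ X, K₀ ≤ U.card → K₀ ≤ W.card → U.card * W.card ≤ 6000 * ec R U W)
    (A W : Finset V) (hA : A ⊆ X) (hW : W ⊆ X) (hAc : K₀ ≤ A.card) :
    (W.filter (fun v => 6000 * (A.filter (fun a => R a v)).card < A.card)).card < K₀ := by
  by_contra hge
  push Not at hge
  set W' := W.filter (fun v => 6000 * (A.filter (fun a => R a v)).card < A.card) with hW'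
  have h1 := hWJ A hA W' ((filter_subset _ _).trans hW) hAc hge
  have hne : W'.Nonempty := card_pos.mp (by omega)
  have h2 : ∑ v ∈ W', 6000 * (A.filter (fun a => R a v)).card < ∑ _v ∈ W', A.card :=
    sum_lt_sum_of_nonempty hne (fun v hv => (mem_filter.mp hv).2)
  rw [sum_const, smul_eq_mul, ← mul_sum, ← ec_eq] at h2
  rw [mul_comm] at h1
  omega

/-- the dual of E1 -/
private theorem dual {V : Type*} [DecidableEq V] (R : V → V → Prop) [DecidableRel R] (X : Finset V)
    (q1 w : ℕ) (hq1 : 1 ≤ q1) (T : Finset (V × V)) (h : E1 R X q1 w T) (U : Finset (V × V))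
    (hU : U ⊆ T) (hUc : 2 * w ≤ U.card) :
    (X.filter (fun a => 72000000 * (U.filter (fun t => Dm R a t)).card < U.card)).card < q1 := by
  by_contra hge
  push Not at hge
  obtain ⟨A, hA, hAc⟩ := exists_subset_card_eq hge
  have hAX : A ⊆ X := hA.trans (filter_subset _ _)
  have hne : A.Nonempty := card_pos.mp (by omega)
  have h1 : ∑ a ∈ A, 72000000 * (U.filter (fun t => Dm R a t)).card < ∑ _a ∈ A, U.card :=
    sum_lt_sum_of_nonempty hne (fun a ha => (mem_filter.mp (hA ha)).2)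
  rw [sum_const, smul_eq_mul, ← mul_sum, dcount, hAc] at h1
  have hbad : (U.filter (fun t => 36000000 * (A.filter (fun a => Dm R a t)).card < q1)).card < w :=
    lt_of_le_of_lt (card_le_card (filter_subset_filter _ hU)) (h A hAX hAc)
  have hsplit := card_filter_add_card_filter_not (s := U)
    (fun t => 36000000 * (A.filter (fun a => Dm R a t)).card < q1)
  set g := (U.filter (fun t => ¬ 36000000 * (A.filter (fun a => Dm R a t)).card < q1)).card with hg
  have h2 : q1 * g ≤ 36000000 * ∑ t ∈ U, (A.filter (fun a => Dm R a t)).card := by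
    rw [mul_sum]
    calc q1 * g = ∑ _t ∈ U.filter (fun t => ¬ 36000000 * (A.filter (fun a => Dm R a t)).card < q1),
          q1 := by rw [sum_const, smul_eq_mul, mul_comm]
      _ ≤ ∑ t ∈ U.filter (fun t => ¬ 36000000 * (A.filter (fun a => Dm R a t)).card < q1),
          36000000 * (A.filter (fun a => Dm R a t)).card :=
          sum_le_sum (fun t ht => not_lt.mp (mem_filter.mp ht).2)
      _ ≤ _ := sum_le_sum_of_subset (filter_subset _ _)
  have h3 : U.card ≤ 2 * g := by omega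
  have h4 : q1 * U.card ≤ q1 * (2 * g) := Nat.mul_le_mul_left _ h3
  have h5 : q1 * (2 * g) = 2 * (q1 * g) := by ring
  omega

/-- E3 -/
private theorem e3 {V : Type*} [DecidableEq V] (R : V → V → Prop) [DecidableRel R] (q2 w : ℕ)
    (hq2 : 1 ≤ q2) (T T' : Finset (V × V)) (h : E2 R q2 w T T') (U U' : Finset (V × V)) (hU : U ⊆ T)
    (hU' : U' ⊆ T') (hUc : 2 * w ≤ U.card) (hUc' : q2 ≤ U'.card) :
    U.card * U'.card ≤ 8 * 6000 ^ 4 * ec (Tw R) U U' := by
  obtain ⟨S, hS, hSc, hSs⟩ := small_sum (fun t' => (U.filter (fun t => Tw R t t')).card) q2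
    U'.card U' rfl hUc'
  rw [← ec_eq, ← ec_eq] at hSs
  have hbad : (U.filter (fun t => 4 * 6000 ^ 4 * (S.filter (fun t' => Tw R t t')).card < q2)).card
      < w := lt_of_le_of_lt (card_le_card (filter_subset_filter _ hU)) (h S (hS.trans hU') hSc)
  have hsplit := card_filter_add_card_filter_not (s := U)
    (fun t => 4 * 6000 ^ 4 * (S.filter (fun t' => Tw R t t')).card < q2)
  set g := (U.filter (fun t => ¬ 4 * 6000 ^ 4 * (S.filter (fun t' => Tw R t t')).card < q2)).card
    with hg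
  have h2 : q2 * g ≤ 4 * 6000 ^ 4 * ec (Tw R) U S := by
    rw [ec_eq', mul_sum]
    calc q2 * g = ∑ _t ∈ U.filter (fun t => ¬ 4 * 6000 ^ 4 *
          (S.filter (fun t' => Tw R t t')).card < q2), q2 := by rw [sum_const, smul_eq_mul, mul_comm]
      _ ≤ ∑ t ∈ U.filter (fun t => ¬ 4 * 6000 ^ 4 * (S.filter (fun t' => Tw R t t')).card < q2),
          4 * 6000 ^ 4 * (S.filter (fun t' => Tw R t t')).card :=
          sum_le_sum (fun t ht => not_lt.mp (mem_filter.mp ht).2)
      _ ≤ _ := sum_le_sum_of_subset (filter_subset _ _)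
  have h3 : U.card ≤ 2 * g := by omega
  have h4 : q2 * U.card ≤ 8 * 6000 ^ 4 * ec (Tw R) U S := by
    calc q2 * U.card ≤ q2 * (2 * g) := Nat.mul_le_mul_left _ h3
      _ = 2 * (q2 * g) := by ring
      _ ≤ 2 * (4 * 6000 ^ 4 * ec (Tw R) U S) := Nat.mul_le_mul_left _ h2
      _ = _ := by ring
  have h5 : q2 * (U.card * U'.card) ≤ q2 * (8 * 6000 ^ 4 * ec (Tw R) U U') := by
    calc q2 * (U.card * U'.card) = U'.card * (q2 * U.card) := by ring
      _ ≤ U'.card * (8 * 6000 ^ 4 * ec (Tw R) U S) := Nat.mul_le_mul_left _ h4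
      _ = 8 * 6000 ^ 4 * (U'.card * ec (Tw R) U S) := by ring
      _ ≤ 8 * 6000 ^ 4 * (q2 * ec (Tw R) U U') := Nat.mul_le_mul_left _ hSs
      _ = _ := by ring
  exact Nat.le_of_mul_le_mul_left h5 (by omega)

/-! ### one more block -/

private theorem exp_bound (y : ℕ) : Real.exp ((y : ℝ) / 8) ≤ 2 ^ y := by
  have h1 : Real.exp ((y : ℝ) / 8) ≤ Real.exp ((y : ℝ) * Real.log 2) := by
    apply Real.exp_le_exp.mpr
    have := Real.log_two_gt_d9
    have hy : (0 : ℝ) ≤ y := Nat.cast_nonneg y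
    nlinarith
  rw [Real.exp_nat_mul, Real.exp_log (by norm_num)] at h1
  exact h1

private theorem term_bound (N κ q e₁ K f : ℕ) (he : 1 ≤ e₁) (hN : N ≤ 2 ^ (κ * q))
    (hf : κ * q + 2 ^ e₁ * K + 3 ≤ f) :
    (N : ℝ) * (Real.exp ((2 : ℝ) ^ e₁ * K / 8) / ((2 : ℝ) ^ e₁) ^ f) ≤ 1 / 8 := by
  have h1 : Real.exp ((2 : ℝ) ^ e₁ * K / 8) ≤ 2 ^ (2 ^ e₁ * K) := by
    have := exp_bound (2 ^ e₁ * K)
    push_cast at this
    exact this
  have hN' : (N : ℝ) ≤ 2 ^ (κ * q) := by exact_mod_cast hN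
  have h2 : (2 : ℝ) ^ f ≤ ((2 : ℝ) ^ e₁) ^ f := by
    apply pow_le_pow_left₀ (by norm_num)
    calc (2 : ℝ) = 2 ^ 1 := by norm_num
      _ ≤ 2 ^ e₁ := pow_le_pow_right₀ (by norm_num) he
  have h3 : (2 : ℝ) ^ (κ * q + 2 ^ e₁ * K + 3) ≤ 2 ^ f := pow_le_pow_right₀ (by norm_num) hf
  have hpos : (0 : ℝ) < ((2 : ℝ) ^ e₁) ^ f := by positivity
  rw [← mul_div_assoc, div_le_iff₀ hpos]
  calc (N : ℝ) * Real.exp ((2 : ℝ) ^ e₁ * K / 8) ≤ 2 ^ (κ * q) * 2 ^ (2 ^ e₁ * K) :=
        mul_le_mul hN' h1 (Real.exp_pos _).le (by positivity)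
    _ = 1 / 8 * 2 ^ (κ * q + 2 ^ e₁ * K + 3) := by rw [pow_add, pow_add]; ring
    _ ≤ 1 / 8 * ((2 : ℝ) ^ e₁) ^ f := by linarith

private theorem card_powersetCard_le {β : Type*} (S : Finset β) (q κ : ℕ)
    (h : S.card ≤ 2 ^ κ) : (powersetCard q S).card ≤ 2 ^ (κ * q) := by
  rw [card_powersetCard]
  calc S.card.choose q ≤ S.card ^ q := Nat.choose_le_pow _ _
    _ ≤ (2 ^ κ) ^ q := Nat.pow_le_pow_left h q
    _ = 2 ^ (κ * q) := by rw [pow_mul]

/-- subset dual property -/
private def Du {V : Type*} [DecidableEq V] (R : V → V → Prop) [DecidableRel R] (X : Finset V)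
    (q1 v1 : ℕ) (U : Finset (V × V)) : Prop :=
  ∀ U' ⊆ U, v1 ≤ U'.card →
    (X.filter (fun a => 72000000 * (U'.filter (fun t => Dm R a t)).card < U'.card)).card < q1

private theorem block {V : Type*} [DecidableEq V] (R : V → V → Prop) [DecidableRel R] (X : Finset V)
    (K₀ κ e₁ m q1 f1 v1 q2 f2 : ℕ) (hK₀ : 1 ≤ K₀) (he₁ : 1 ≤ e₁)
    (hWJ : ∀ U ⊆ X, ∀ W ⊆ X, K₀ ≤ U.card → K₀ ≤ W.card → U.card * W.card ≤ 6000 * ec R U W)
    (hκ : X.card ≤ 2 ^ κ) (hq1 : q1 = 6000 * K₀) (hf1 : f1 = κ * q1 + 2 ^ e₁ * K₀ + 3)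
    (hq2 : q2 = 72000000 * v1) (hf2 : f2 = κ * q2 + 2 ^ e₁ * q1 + 3)
    (I Pl : Finset V) (hI : I ⊆ X) (hPl : Pl ⊆ X) (hdis : Disjoint I Pl) (hm : 1 ≤ m)
    (hIc : I.card = m) (hPc : Pl.card = 8 * m) (Olds : Finset (Finset (V × V)))
    (hOld : ∀ U ∈ Olds, U.card = q2 ∧ Du R X q1 v1 U) (hOc : Olds.card ≤ 2 ^ (κ * q2)) :
    ∃ T : Finset (V × V), (∀ p ∈ T, p.1 ∈ I ∧ p.2 ∈ Pl) ∧ VDisj T ∧ m < 2 * T.card ∧ T.card ≤ m ∧
      E1 R X q1 (K₀ + f1) T ∧
      ∀ U ∈ Olds, (T.filter (fun t => 4 * 6000 ^ 4 *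
        (U.filter (fun t' => Tw R t t')).card < q2)).card < q1 + f2 := by
  classical
  set Tests : Finset (Finset V ⊕ Finset (V × V)) := (powersetCard q1 X).disjSum Olds with hTests
  set Ax : Finset V → V → Finset V := fun A x => A.filter (fun a => R a x) with hAx
  set Vx : Finset (V × V) → V → Finset (V × V) := fun U x => U.filter (fun t => Dm R x t) with hVx
  set Bad : (Finset V ⊕ Finset (V × V)) → V → Finset V := fun s x => match s with
    | Sum.inl A => if K₀ ≤ (Ax A x).card then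
        Pl.filter (fun v => 6000 * ((Ax A x).filter (fun a => R a v)).card < (Ax A x).card) else ∅
    | Sum.inr U => if v1 ≤ (Vx U x).card then
        Pl.filter (fun v => 72000000 * ((Vx U x).filter (fun t => Dm R v t)).card < (Vx U x).card)
        else ∅ with hBad
  set Kf : (Finset V ⊕ Finset (V × V)) → ℕ := fun s => match s with
    | Sum.inl _ => K₀
    | Sum.inr _ => q1 with hKf
  set ff : (Finset V ⊕ Finset (V × V)) → ℕ := fun s => match s with
    | Sum.inl _ => f1
    | Sum.inr _ => f2 with hff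
  have hne : I.Nonempty := card_pos.mp (by omega)
  have hBad' : ∀ t ∈ Tests, ∀ i ∈ I, Bad t i ⊆ Pl ∧ (Bad t i).card ≤ Kf t := by
    intro t ht i hi
    rcases t with A | U
    · have hA : A ∈ powersetCard q1 X := by simpa [hTests] using ht
      have hAX : A ⊆ X := (mem_powersetCard.mp hA).1
      simp only [hBad, hKf]
      split_ifs with hc
      · refine ⟨filter_subset _ _, (wj R X K₀ hK₀ hWJ _ _ ((filter_subset _ _).trans hAX) hPl hc).le⟩
      · exact ⟨empty_subset _, by simp⟩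
    · have hU : U ∈ Olds := by simpa [hTests] using ht
      simp only [hBad, hKf]
      split_ifs with hc
      · refine ⟨filter_subset _ _, ?_⟩
        exact ((card_le_card (filter_subset_filter _ hPl)).trans_lt
          ((hOld U hU).2 _ (filter_subset _ _) hc)).le
      · exact ⟨empty_subset _, by simp⟩
  have hsum : ∑ t ∈ Tests, Real.exp ((2 : ℝ) ^ e₁ * Kf t / 8) / ((2 : ℝ) ^ e₁) ^ (ff t) < 3 / 4 := by
    rw [hTests, sum_disjSum]
    simp only [hKf, hff, sum_const, nsmul_eq_mul]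
    have h1 := term_bound (powersetCard q1 X).card κ q1 e₁ K₀ f1 he₁
      (card_powersetCard_le X q1 κ hκ) hf1.ge
    have h2 := term_bound Olds.card κ q2 e₁ q1 f2 he₁ hOc hf2.ge
    linarith
  obtain ⟨φ, hφ1, hφ2, hφ3⟩ := select I Pl hne (by rw [hPc, hIc]) Tests Bad Kf ff hBad'
    ((2 : ℝ) ^ e₁) (one_le_pow₀ (by norm_num)) hsum
  set J := I.filter (fun i => ¬ ∃ i' ∈ I, i' ≠ i ∧ φ i' = φ i) with hJ
  have hJI : J ⊆ I := filter_subset _ _
  have hinj : Function.Injective (fun x : V => (x, φ x)) := fun a b hab => (Prod.ext_iff.mp hab).1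
  have hJc : (I.filter (fun i => ∃ i' ∈ I, i' ≠ i ∧ φ i' = φ i)).card + J.card = I.card := by
    rw [hJ]
    convert card_filter_add_card_filter_not (s := I) (fun i => ∃ i' ∈ I, i' ≠ i ∧ φ i' = φ i)
  refine ⟨J.image (fun x => (x, φ x)), ?_, ?_, ?_, ?_, ?_, ?_⟩
  · intro p hp
    obtain ⟨x, hx, rfl⟩ := mem_image.mp hp
    exact ⟨hJI hx, hφ1 x (hJI hx)⟩
  · refine ⟨?_, ?_, ?_⟩
    · intro p hp q hq hpq
      obtain ⟨x, hx, rfl⟩ := mem_image.mp hp
      obtain ⟨y, hy, rfl⟩ := mem_image.mp hq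
      simp only at hpq
      rw [hpq]
    · intro p hp q hq hpq
      obtain ⟨x, hx, rfl⟩ := mem_image.mp hp
      obtain ⟨y, hy, rfl⟩ := mem_image.mp hq
      simp only at hpq
      by_contra hne'
      have hxy : x ≠ y := fun h => hne' (by rw [h])
      exact (mem_filter.mp hx).2 ⟨y, hJI hy, hxy.symm, hpq.symm⟩
    · intro p hp q hq hpq
      obtain ⟨x, hx, rfl⟩ := mem_image.mp hp
      obtain ⟨y, hy, rfl⟩ := mem_image.mp hq
      simp only at hpq
      exact disjoint_left.mp hdis (hJI hx) (hpq ▸ hφ1 y (hJI hy))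
  · rw [card_image_of_injective _ hinj]
    omega
  · rw [card_image_of_injective _ hinj]
    exact (card_le_card hJI).trans hIc.le
  · intro A hA hAc
    rw [filter_image, card_image_of_injective _ hinj]
    have hin : Sum.inl A ∈ Tests := by
      rw [hTests, inl_mem_disjSum]
      exact mem_powersetCard.mpr ⟨hA, hAc⟩
    have h1 := hφ2 _ hin
    have h2 := wj R X K₀ hK₀ hWJ A I hA hI (by omega)
    simp only [hff] at h1
    have hsub : J.filter (fun x => 36000000 * (A.filter (fun a => Dm R a (x, φ x))).card < q1) ⊆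
        (I.filter (fun v => 6000 * (A.filter (fun a => R a v)).card < A.card)) ∪
        (I.filter (fun i => φ i ∈ Bad (Sum.inl A) i)) := by
      intro x hx
      obtain ⟨hxJ, hx⟩ := mem_filter.mp hx
      by_contra hcon
      rw [mem_union, not_or, mem_filter, mem_filter, not_and, not_and] at hcon
      have h3 := not_lt.mp (hcon.1 (hJI hxJ))
      have h4 := hcon.2 (hJI hxJ)
      rw [hAc] at h3
      have h5 : K₀ ≤ (Ax A x).card := by
        show K₀ ≤ (A.filter (fun a => R a x)).card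
        omega
      simp only [hBad, if_pos h5, mem_filter, not_and, not_lt] at h4
      have h6 := h4 (hφ1 x (hJI hxJ))
      have h7 : (Ax A x).filter (fun a => R a (φ x)) = A.filter (fun a => Dm R a (x, φ x)) := by
        rw [hAx, filter_filter]
        rfl
      rw [h7] at h6
      change (A.filter (fun a => R a x)).card ≤ _ at h6
      omega
    have h8 := (card_le_card hsub).trans (card_union_le _ _)
    omega
  · intro U hU
    rw [filter_image, card_image_of_injective _ hinj]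
    have hin : Sum.inr U ∈ Tests := by
      rw [hTests, inr_mem_disjSum]
      exact hU
    have h1 := hφ2 _ hin
    obtain ⟨hUc, hdu⟩ := hOld U hU
    have h2 := hdu U (Subset.refl _) (by omega)
    have h2' := lt_of_le_of_lt (card_le_card (filter_subset_filter
      (fun a => 72000000 * (U.filter (fun t => Dm R a t)).card < U.card) hI)) h2
    simp only [hff] at h1
    have hsub : J.filter (fun x => 4 * 6000 ^ 4 * (U.filter (fun t' => Tw R (x, φ x) t')).card < q2) ⊆
        (I.filter (fun a => 72000000 * (U.filter (fun t => Dm R a t)).card < U.card)) ∪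
        (I.filter (fun i => φ i ∈ Bad (Sum.inr U) i)) := by
      intro x hx
      obtain ⟨hxJ, hx⟩ := mem_filter.mp hx
      by_contra hcon
      rw [mem_union, not_or, mem_filter, mem_filter, not_and, not_and] at hcon
      have h3 := not_lt.mp (hcon.1 (hJI hxJ))
      have h4 := hcon.2 (hJI hxJ)
      rw [hUc] at h3
      have h5 : v1 ≤ (Vx U x).card := by
        show v1 ≤ (U.filter (fun t => Dm R x t)).card
        omega
      simp only [hBad, if_pos h5, mem_filter, not_and, not_lt] at h4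
      have h6 := h4 (hφ1 x (hJI hxJ))
      have h7 : (Vx U x).filter (fun t => Dm R (φ x) t) =
          U.filter (fun t' => Tw R (x, φ x) t') := by
        rw [hVx, filter_filter]
        apply filter_congr
        intro t _
        unfold Dm Tw
        tauto
      rw [h7] at h6
      change (U.filter (fun t => Dm R x t)).card ≤ _ at h6
      omega
    have h8 := (card_le_card hsub).trans (card_union_le _ _)
    omega

/-! ### the sequence of blocks -/

/-- union of a list of blocks -/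
private def un {β : Type*} [DecidableEq β] : List (Finset β) → Finset β
  | [] => ∅
  | T :: L => T ∪ un L

private theorem mem_un {β : Type*} [DecidableEq β] (L : List (Finset β)) (x : β) :
    x ∈ un L ↔ ∃ T ∈ L, x ∈ T := by
  induction L with
  | nil => simp [un]
  | cons T L ih => simp [un, ih]

/-- a good list of blocks -/
private def Good {V : Type*} [DecidableEq V] (R : V → V → Prop) [DecidableRel R] (X : Finset V)
    (m q1 w1 q2 w2 : ℕ) (L : List (Finset (V × V))) (Us : Finset V) : Prop :=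
  (∀ T ∈ L, E1 R X q1 w1 T) ∧ (∀ T ∈ L, m < 2 * T.card ∧ T.card ≤ m) ∧
    L.Pairwise (fun T T' => E2 R q2 w2 T T' ∧ Disjoint T T') ∧ VDisj (un L) ∧
    ∀ p ∈ un L, p.1 ∈ Us ∧ p.2 ∈ Us

private theorem seq {V : Type*} [DecidableEq V] (R : V → V → Prop) [DecidableRel R] (X : Finset V)
    (K₀ κ e₁ m q1 f1 v1 q2 f2 g : ℕ) (hK₀ : 1 ≤ K₀) (he₁ : 1 ≤ e₁)
    (hWJ : ∀ U ⊆ X, ∀ W ⊆ X, K₀ ≤ U.card → K₀ ≤ W.card → U.card * W.card ≤ 6000 * ec R U W)
    (hκ : X.card ≤ 2 ^ κ) (hq1 : q1 = 6000 * K₀) (hf1 : f1 = κ * q1 + 2 ^ e₁ * K₀ + 3)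
    (hv1 : v1 = 2 * (K₀ + f1)) (hq2 : q2 = 72000000 * v1) (hf2 : f2 = κ * q2 + 2 ^ e₁ * q1 + 3)
    (hm : 1 ≤ m) (hmg : 9 * m * g ≤ X.card) :
    ∀ j ≤ g, ∃ L : List (Finset (V × V)), ∃ Us ⊆ X, L.length = j ∧ Us.card ≤ 9 * m * j ∧
      Good R X m q1 (K₀ + f1) q2 (q1 + f2) L Us := by
  intro j
  induction j with
  | zero =>
    intro _
    refine ⟨[], ∅, empty_subset _, rfl, by simp, ?_, ?_, ?_, ?_, ?_⟩
    · simp
    · simp
    · exact List.Pairwise.nil
    · refine ⟨?_, ?_, ?_⟩ <;> simp [un]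
    · simp [un]
  | succ j ih =>
    intro hj
    obtain ⟨L, Us, hUs, hL, hUc, hg1, hg2, hg3, hg4, hg5⟩ := ih (by omega)
    have hroom : 9 * m ≤ (X \ Us).card := by
      have h1 : X.card - Us.card ≤ (X \ Us).card := le_card_sdiff Us X
      have h2 : 9 * m * (j + 1) ≤ 9 * m * g := Nat.mul_le_mul_left _ hj
      have h3 : 9 * m * (j + 1) = 9 * m * j + 9 * m := by ring
      omega
    obtain ⟨I, hI, hIc⟩ := exists_subset_card_eq (show m ≤ (X \ Us).card by omega)
    have hroom2 : 8 * m ≤ ((X \ Us) \ I).card := by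
      rw [card_sdiff_of_subset hI]
      omega
    obtain ⟨Pl, hPl, hPc⟩ := exists_subset_card_eq hroom2
    have hIX : I ⊆ X := hI.trans sdiff_subset
    have hPX : Pl ⊆ X := (hPl.trans sdiff_subset).trans sdiff_subset
    have hIP : Disjoint I Pl := disjoint_left.mpr fun x hx hx' => (mem_sdiff.mp (hPl hx')).2 hx
    have hIU : ∀ x ∈ I, x ∉ Us := fun x hx => (mem_sdiff.mp (hI hx)).2
    have hPU : ∀ x ∈ Pl, x ∉ Us := fun x hx => (mem_sdiff.mp (mem_sdiff.mp (hPl hx)).1).2
    have hunc : (un L).card ≤ X.card := by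
      apply card_le_card_of_injOn (fun p => p.1)
      · intro p hp
        exact hUs (hg5 p hp).1
      · intro p hp q hq hpq
        exact hg4.1 p hp q hq hpq
    set Olds := (powersetCard q2 (un L)).filter (fun U => ∃ T ∈ L, U ⊆ T) with hOlds
    have hOc : Olds.card ≤ 2 ^ (κ * q2) :=
      (card_le_card (filter_subset _ _)).trans (card_powersetCard_le _ _ _ (hunc.trans hκ))
    have hOld : ∀ U ∈ Olds, U.card = q2 ∧ Du R X q1 v1 U := by
      intro U hU
      obtain ⟨hU1, T, hT, hUT⟩ := mem_filter.mp hU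
      refine ⟨(mem_powersetCard.mp hU1).2, fun U' hU' hc => ?_⟩
      exact dual R X q1 (K₀ + f1) (by omega) T (hg1 T hT) U' (hU'.trans hUT) (by omega)
    obtain ⟨T, hT1, hT2, hT3, hT4, hT5, hT6⟩ := block R X K₀ κ e₁ m q1 f1 v1 q2 f2 hK₀ he₁ hWJ hκ
      hq1 hf1 hq2 hf2 I Pl hIX hPX hIP hm hIc hPc Olds hOld hOc
    refine ⟨T :: L, Us ∪ (I ∪ Pl), union_subset hUs (union_subset hIX hPX), by simp [hL], ?_,
      ?_, ?_, ?_, ?_, ?_⟩
    · have h1 := card_union_le Us (I ∪ Pl)
      have h2 := card_union_le I Pl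
      have h3 : 9 * m * (j + 1) = 9 * m * j + 9 * m := by ring
      omega
    · intro T' hT'
      rcases List.mem_cons.mp hT' with rfl | h
      · exact hT5
      · exact hg1 T' h
    · intro T' hT'
      rcases List.mem_cons.mp hT' with rfl | h
      · exact ⟨hT3, hT4⟩
      · exact hg2 T' h
    · refine List.Pairwise.cons ?_ hg3
      intro T' hT'
      refine ⟨?_, ?_⟩
      · intro U hU hUc'
        apply hT6 U
        rw [hOlds, mem_filter, mem_powersetCard]
        refine ⟨⟨fun p hp => (mem_un L p).mpr ⟨T', hT', hU hp⟩, hUc'⟩, T', hT', hU⟩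
      · rw [disjoint_left]
        intro p hp hp'
        exact hIU p.1 (hT1 p hp).1 (hg5 p ((mem_un L p).mpr ⟨T', hT', hp'⟩)).1
    · refine ⟨?_, ?_, ?_⟩
      · intro p hp q hq hpq
        rcases mem_union.mp hp with hp | hp <;> rcases mem_union.mp hq with hq | hq
        · exact hT2.1 p hp q hq hpq
        · exact absurd (hpq ▸ (hg5 q hq).1) (hIU _ (hT1 p hp).1)
        · exact absurd (hpq ▸ (hg5 p hp).1) (hIU _ (hT1 q hq).1)
        · exact hg4.1 p hp q hq hpq
      · intro p hp q hq hpq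
        rcases mem_union.mp hp with hp | hp <;> rcases mem_union.mp hq with hq | hq
        · exact hT2.2.1 p hp q hq hpq
        · exact absurd (hpq ▸ (hg5 q hq).2) (hPU _ (hT1 p hp).2)
        · exact absurd (hpq ▸ (hg5 p hp).2) (hPU _ (hT1 q hq).2)
        · exact hg4.2.1 p hp q hq hpq
      · intro p hp q hq hpq
        rcases mem_union.mp hp with hp | hp <;> rcases mem_union.mp hq with hq | hq
        · exact hT2.2.2 p hp q hq hpq
        · exact absurd (hpq ▸ (hg5 q hq).2) (hIU _ (hT1 p hp).1)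
        · exact absurd (hpq ▸ (hg5 p hp).1) (hPU _ (hT1 q hq).2)
        · exact hg4.2.2 p hp q hq hpq
    · intro p hp
      rcases mem_union.mp hp with hp | hp
      · exact ⟨mem_union_right _ (mem_union_left _ (hT1 p hp).1),
          mem_union_right _ (mem_union_right _ (hT1 p hp).2)⟩
      · exact ⟨mem_union_left _ (hg5 p hp).1, mem_union_left _ (hg5 p hp).2⟩

/-! ### the final count -/

/-- the large parts of `Y` -/
private def Zf {β : Type*} [DecidableEq β] (h0 : ℕ) (Y : Finset β) : List (Finset β) → Finset β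
  | [] => ∅
  | T :: L => if h0 ≤ (Y ∩ T).card then (Y ∩ T) ∪ Zf h0 Y L else Zf h0 Y L

private theorem Zf_sub {β : Type*} [DecidableEq β] (h0 : ℕ) (Y : Finset β) (L : List (Finset β)) :
    Zf h0 Y L ⊆ Y ∧ Zf h0 Y L ⊆ un L := by
  induction L with
  | nil => exact ⟨by simp [Zf], by simp [Zf]⟩
  | cons T L ih =>
    unfold Zf un
    split_ifs
    · exact ⟨union_subset inter_subset_left ih.1,
        union_subset_union inter_subset_right ih.2⟩
    · exact ⟨ih.1, ih.2.trans subset_union_right⟩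

private theorem disj_un {β : Type*} [DecidableEq β] (T : Finset β) (L : List (Finset β))
    (h : ∀ T' ∈ L, Disjoint T T') : Disjoint T (un L) := by
  rw [disjoint_left]
  intro x hx hx'
  obtain ⟨T', hT', hxT'⟩ := (mem_un L x).mp hx'
  exact disjoint_left.mp (h T' hT') hx hxT'

private theorem Zf_card {β : Type*} [DecidableEq β] (h0 : ℕ) (Y : Finset β)
    (L : List (Finset β)) (hd : L.Pairwise Disjoint) :
    (Y ∩ un L).card ≤ (Zf h0 Y L).card + L.length * h0 := by
  induction L with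
  | nil => simp [un]
  | cons T L ih =>
    rw [List.pairwise_cons] at hd
    have ih := ih hd.2
    have h1 : Y ∩ un (T :: L) = (Y ∩ T) ∪ (Y ∩ un L) := by
      show Y ∩ (T ∪ un L) = _
      exact inter_union_distrib_left _ _ _
    rw [h1]
    have h2 := card_union_le (Y ∩ T) (Y ∩ un L)
    have h4 : (T :: L).length * h0 = L.length * h0 + h0 := by
      rw [List.length_cons]; ring
    have h5 : Disjoint (Y ∩ T) (Zf h0 Y L) :=
      (disj_un T L hd.1).mono inter_subset_right (Zf_sub h0 Y L).2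
    unfold Zf
    split_ifs with h
    · rw [card_union_of_disjoint h5]
      omega
    · omega

private theorem Zf_e {β : Type*} [DecidableEq β] (R : β → β → Prop) [DecidableRel R] (c h0 : ℕ)
    (Y U : Finset β) (L : List (Finset β)) (hd : L.Pairwise Disjoint)
    (h : ∀ T ∈ L, ∀ U' ⊆ T, h0 ≤ U'.card → U.card * U'.card ≤ c * ec R U U') :
    U.card * (Zf h0 Y L).card ≤ c * ec R U (Zf h0 Y L) := by
  induction L with
  | nil => simp [Zf]
  | cons T L ih =>
    rw [List.pairwise_cons] at hd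
    have ih := ih hd.2 (fun T' hT' => h T' (List.mem_cons_of_mem _ hT'))
    have h5 : Disjoint (Y ∩ T) (Zf h0 Y L) :=
      (disj_un T L hd.1).mono inter_subset_right (Zf_sub h0 Y L).2
    unfold Zf
    split_ifs with hc
    · rw [card_union_of_disjoint h5, ec_union R U h5, mul_add, mul_add]
      exact add_le_add (h T List.mem_cons_self _ inter_subset_right hc) ih
    · exact ih

private theorem Zf_sq {β : Type*} [DecidableEq β] (R : β → β → Prop) [DecidableRel R] (c m h0 : ℕ)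
    (Y : Finset β) (L : List (Finset β)) (hm : ∀ T ∈ L, T.card ≤ m)
    (hd : L.Pairwise (fun T T' => (∀ U ⊆ T, ∀ U' ⊆ T', h0 ≤ U.card → h0 ≤ U'.card →
      U.card * U'.card ≤ c * ec R U U') ∧ Disjoint T T')) :
    (Zf h0 Y L).card ^ 2 ≤ m * (Zf h0 Y L).card + 2 * c * ec R (Zf h0 Y L) (Zf h0 Y L) := by
  induction L with
  | nil => simp [Zf]
  | cons T L ih =>
    have hd' : L.Pairwise Disjoint := (List.pairwise_cons.mp hd).2.imp (fun h => h.2)
    rw [List.pairwise_cons] at hd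
    have ih := ih (fun T' hT' => hm T' (List.mem_cons_of_mem _ hT')) hd.2
    have h5 : Disjoint (Y ∩ T) (Zf h0 Y L) :=
      (disj_un T L (fun T' hT' => (hd.1 T' hT').2)).mono inter_subset_right (Zf_sub h0 Y L).2
    unfold Zf
    split_ifs with hc
    · rw [card_union_of_disjoint h5]
      have h6 := Zf_e R c h0 Y (Y ∩ T) L hd' (fun T' hT' U' hU' hc' =>
        (hd.1 T' hT').1 _ inter_subset_right U' hU' hc hc')
      have h7 : (Y ∩ T).card ≤ m := (card_le_card inter_subset_right).trans (hm T List.mem_cons_self)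
      have h8 : ec R (Y ∩ T) (Zf h0 Y L) + ec R (Zf h0 Y L) (Zf h0 Y L) ≤
          ec R ((Y ∩ T) ∪ Zf h0 Y L) ((Y ∩ T) ∪ Zf h0 Y L) := by
        rw [← ec_union_left R _ h5]
        exact ec_mono R (Subset.refl _) subset_union_right
      set y := (Y ∩ T).card
      set z := (Zf h0 Y L).card
      set a := ec R (Y ∩ T) (Zf h0 Y L)
      set b := ec R (Zf h0 Y L) (Zf h0 Y L)
      set d := ec R ((Y ∩ T) ∪ Zf h0 Y L) ((Y ∩ T) ∪ Zf h0 Y L)
      calc (y + z) ^ 2 = y * y + 2 * (y * z) + z ^ 2 := by ring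
        _ ≤ m * y + 2 * (c * a) + (m * z + 2 * c * b) :=
            add_le_add (add_le_add (Nat.mul_le_mul_right _ h7) (Nat.mul_le_mul_left _ h6)) ih
        _ = m * (y + z) + 2 * c * (a + b) := by ring
        _ ≤ m * (y + z) + 2 * c * d := Nat.add_le_add_left (Nat.mul_le_mul_left _ h8) _
    · exact ih

private theorem un_card {β : Type*} [DecidableEq β] (m : ℕ) (L : List (Finset β))
    (hm : ∀ T ∈ L, m < 2 * T.card) (hd : L.Pairwise Disjoint) :
    (m + 1) * L.length ≤ 2 * (un L).card := by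
  induction L with
  | nil => simp
  | cons T L ih =>
    rw [List.pairwise_cons] at hd
    have ih := ih (fun T' hT' => hm T' (List.mem_cons_of_mem _ hT')) hd.2
    have h1 := hm T List.mem_cons_self
    show _ ≤ 2 * (T ∪ un L).card
    rw [card_union_of_disjoint (disj_un T L hd.1), List.length_cons]
    have : (m + 1) * (L.length + 1) = (m + 1) * L.length + (m + 1) := by ring
    omega

private theorem sizes (K κ E : ℕ) (hK : 1 ≤ K) (hE : 2 ^ 40 * (κ + 1) ≤ E) (q1 f1 v1 q2 f2 : ℕ)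
    (hq1 : q1 = 6000 * K) (hf1 : f1 = κ * q1 + E * K + 3)
    (hv1 : v1 = 2 * (K + f1)) (hq2 : q2 = 72000000 * v1) (hf2 : f2 = κ * q2 + E * q1 + 3) :
    2 * (q1 + f2) + q2 ≤ E ^ 2 * K := by
  have hE1 : 2 ^ 40 ≤ E := by omega
  have hE2 : 2 ^ 40 * κ ≤ E := by omega
  set P := E * K with hP
  have hKP : 2 ^ 40 * K ≤ P := Nat.mul_le_mul_right _ hE1
  have hκP : 2 ^ 40 * (κ * K) ≤ P := by
    calc 2 ^ 40 * (κ * K) = (2 ^ 40 * κ) * K := by ring
      _ ≤ E * K := Nat.mul_le_mul_right _ hE2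
  have h1 : κ * q1 = 6000 * (κ * K) := by rw [hq1]; ring
  have h2 : f1 ≤ 5 * P := by omega
  have h3 : q2 ≤ 864000000 * P := by omega
  have hEP : 2 ^ 40 * P ≤ E * P := Nat.mul_le_mul_right _ hE1
  have h4 : 2 ^ 40 * (κ * P) ≤ E * P := by
    calc 2 ^ 40 * (κ * P) = (2 ^ 40 * κ) * P := by ring
      _ ≤ E * P := Nat.mul_le_mul_right _ hE2
  have h5 : κ * q2 ≤ 864000000 * (κ * P) := by
    calc κ * q2 ≤ κ * (864000000 * P) := Nat.mul_le_mul_left _ h3
      _ = _ := by ring
  have h6 : E * q1 = 6000 * P := by rw [hq1, hP]; ring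
  have h7 : E ^ 2 * K = E * P := by rw [hP]; ring
  rw [h7]
  omega

/-- P -/
theorem pairing {V : Type*} [DecidableEq V] (R : V → V → Prop) [DecidableRel R] (X : Finset V)
    (K₀ κ e₁ g : ℕ) (hK₀ : 1 ≤ K₀) (hg : 1 ≤ g)
    (hWJ : ∀ U ⊆ X, ∀ W ⊆ X, K₀ ≤ U.card → K₀ ≤ W.card → U.card * W.card ≤ 6000 * ec R U W)
    (hκ : X.card ≤ 2 ^ κ) (he₁ : 2 ^ 40 * (κ + 1) ≤ 2 ^ e₁)
    (hbig : 64 * g ^ 2 * 2 ^ (2 * e₁) * K₀ ≤ X.card) :
    ∃ 𝒳 : Finset (V × V), VDisj 𝒳 ∧ (∀ p ∈ 𝒳, p.1 ∈ X ∧ p.2 ∈ X) ∧ X.card ≤ 40 * 𝒳.card ∧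
      ∀ Y ⊆ 𝒳, 16 * 𝒳.card ≤ Y.card * g → Y.card ^ 2 ≤ 2 ^ 59 * ec (Tw R) Y Y := by
  have he : 1 ≤ e₁ := by
    by_contra h
    have : e₁ = 0 := by omega
    subst this
    omega
  obtain ⟨q1, hq1⟩ : ∃ q1, q1 = 6000 * K₀ := ⟨_, rfl⟩
  obtain ⟨f1, hf1⟩ : ∃ f1, f1 = κ * q1 + 2 ^ e₁ * K₀ + 3 := ⟨_, rfl⟩
  obtain ⟨v1, hv1⟩ : ∃ v1, v1 = 2 * (K₀ + f1) := ⟨_, rfl⟩
  obtain ⟨q2, hq2⟩ : ∃ q2, q2 = 72000000 * v1 := ⟨_, rfl⟩
  obtain ⟨f2, hf2⟩ : ∃ f2, f2 = κ * q2 + 2 ^ e₁ * q1 + 3 := ⟨_, rfl⟩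
  have hs := sizes K₀ κ (2 ^ e₁) hK₀ he₁ q1 f1 v1 q2 f2 hq1 hf1 hv1 hq2 hf2
  set m := X.card / (9 * g) with hm
  have hmg : 9 * m * g ≤ X.card := by
    have := Nat.div_mul_le_self X.card (9 * g)
    calc 9 * m * g = X.card / (9 * g) * (9 * g) := by rw [hm]; ring
      _ ≤ _ := this
  have hlt : X.card < 9 * g * (m + 1) := by
    have h1 : 9 * g * m + X.card % (9 * g) = X.card := by
      rw [hm]; exact Nat.div_add_mod _ _
    have h2 := Nat.mod_lt X.card (show 0 < 9 * g by omega)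
    rw [mul_add, mul_one]
    omega
  set Q := (2 ^ e₁) ^ 2 * K₀ with hQ
  have hQg : 64 * (g * Q) ≤ 9 * (m + 1) := by
    have h1 : g * (64 * (g * Q)) ≤ g * (9 * (m + 1)) := by
      calc g * (64 * (g * Q)) = 64 * g ^ 2 * 2 ^ (2 * e₁) * K₀ := by
            rw [hQ, ← pow_mul, mul_comm e₁ 2]; ring
        _ ≤ X.card := hbig
        _ ≤ 9 * g * (m + 1) := hlt.le
        _ = g * (9 * (m + 1)) := by ring
    exact Nat.le_of_mul_le_mul_left h1 (by omega)
  have hQ1 : 1 ≤ Q := Nat.mul_pos (by positivity) (by omega)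
  have hgQ : 1 ≤ g * Q := Nat.mul_pos hg hQ1
  have hm1 : 1 ≤ m := by omega
  obtain ⟨L, Us, hUs, hL, -, hg1, hg2, hg3, hg4, hg5⟩ := seq R X K₀ κ e₁ m q1 f1 v1 q2 f2 g hK₀ he
    hWJ hκ hq1 hf1 hv1 hq2 hf2 hm1 hmg g le_rfl
  have hd : L.Pairwise Disjoint := hg3.imp (fun h => h.2)
  have hun := un_card m L (fun T hT => (hg2 T hT).1) hd
  rw [hL] at hun
  refine ⟨un L, hg4, fun p hp => ⟨hUs (hg5 p hp).1, hUs (hg5 p hp).2⟩, ?_, ?_⟩
  · have : 9 * g * (m + 1) = 9 * ((m + 1) * g) := by ring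
    omega
  · intro Y hY hYg
    obtain ⟨h0, hh0⟩ : ∃ h0, h0 = 2 * (q1 + f2) + q2 := ⟨_, rfl⟩
    have hYm : 8 * (m + 1) ≤ Y.card := by
      have h1 : g * (8 * (m + 1)) ≤ g * Y.card := by
        calc g * (8 * (m + 1)) = 8 * ((m + 1) * g) := by ring
          _ ≤ 8 * (2 * (un L).card) := Nat.mul_le_mul_left _ hun
          _ = 16 * (un L).card := by ring
          _ ≤ Y.card * g := hYg
          _ = g * Y.card := by ring
      exact Nat.le_of_mul_le_mul_left h1 (by omega)
    have hgh : g * h0 ≤ g * Q := Nat.mul_le_mul_left _ (by rw [hh0]; exact hs)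
    have h1 := Zf_card h0 Y L hd
    rw [inter_eq_left.mpr hY, hL] at h1
    have h2 := Zf_sq (Tw R) (8 * 6000 ^ 4) m h0 Y L (fun T hT => (hg2 T hT).2) (hg3.imp (by
      intro T T' h
      refine ⟨?_, h.2⟩
      intro U hU U' hU' hc hc'
      exact e3 R q2 (q1 + f2) (by omega) T T' h.1 U U' hU hU' (by omega) (by omega)))
    have h3 : ec (Tw R) (Zf h0 Y L) (Zf h0 Y L) ≤ ec (Tw R) Y Y :=
      ec_mono _ (Zf_sub h0 Y L).1 (Zf_sub h0 Y L).1
    set z := (Zf h0 Y L).card with hz
    set y := Y.card with hy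
    have h4 : 7 * y ≤ 8 * z := by omega
    have h5 : 7 * m ≤ z := by omega
    have h6 : 7 * (m * z) ≤ z ^ 2 := by
      calc 7 * (m * z) = (7 * m) * z := by ring
        _ ≤ z * z := Nat.mul_le_mul_right _ h5
        _ = z ^ 2 := by ring
    have h7 : 49 * y ^ 2 ≤ 64 * z ^ 2 := by
      calc 49 * y ^ 2 = (7 * y) ^ 2 := by ring
        _ ≤ (8 * z) ^ 2 := Nat.pow_le_pow_left h4 2
        _ = _ := by ring
    have h8 : 2 * (8 * 6000 ^ 4) * ec (Tw R) (Zf h0 Y L) (Zf h0 Y L) ≤
        2 * (8 * 6000 ^ 4) * ec (Tw R) Y Y := Nat.mul_le_mul_left _ h3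
    omega

end Pool.Agent.TT2
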