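import Pool.Agent.TT2.Defs
import Pool.Agent.TT2.C
/-!
# Project TT2, module W (weakly jumbled set) (see /team-store/7dd320_TT.md)
-/

namespace Pool.Agent.TT2

open Finset
open Pool.Agent.helper11.OG (Free HasCopy)

private theorem hasChain_zero {V : Type*} (R : V → V → Prop) (Y : Finset V) : HasChain R Y 0 :=
  ⟨[], rfl, List.Pairwise.nil, fun _ hx => absurd hx List.not_mem_nil⟩

private theorem hasChain_len {V : Type*} {R : V → V → Prop} {Y : Finset V} {k j : ℕ}
    (h : HasChain R Y k) (hj : j ≤ k) : HasChain R Y j := by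
  obtain ⟨l, hl, hp, hm⟩ := h
  refine ⟨l.take j, ?_, hp.sublist (List.take_sublist j l), fun x hx => hm x (List.mem_of_mem_take hx)⟩
  rw [List.length_take]
  omega

private theorem hasChain_mono {V : Type*} {R : V → V → Prop} {Y Z : Finset V} {k : ℕ}
    (h : HasChain R Y k) (hYZ : Y ⊆ Z) : HasChain R Z k := by
  obtain ⟨l, hl, hp, hm⟩ := h
  exact ⟨l, hl, hp, fun x hx => hYZ (hm x hx)⟩

open Classical in
/-- longest chain -/
private noncomputable def Tn {V : Type*} (R : V → V → Prop) (k1 : ℕ) (Y : Finset V) : ℕ :=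
  Nat.findGreatest (fun k => HasChain R Y k) k1

private theorem Tn_le {V : Type*} (R : V → V → Prop) (k1 : ℕ) (Y : Finset V) : Tn R k1 Y ≤ k1 := by
  classical
  unfold Tn
  exact Nat.findGreatest_le k1

private theorem Tn_spec {V : Type*} (R : V → V → Prop) (k1 : ℕ) (Y : Finset V) :
    HasChain R Y (Tn R k1 Y) := by
  classical
  unfold Tn
  exact Nat.findGreatest_spec (P := fun k => HasChain R Y k) (Nat.zero_le k1) (hasChain_zero R Y)

private theorem le_Tn {V : Type*} {R : V → V → Prop} {k1 k : ℕ} {Y : Finset V}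
    (h : HasChain R Y k) (hk : k ≤ k1) : k ≤ Tn R k1 Y := by
  classical
  unfold Tn
  exact Nat.le_findGreatest hk h

/-- concatenation of a chain `f` and a chain inside a set dominated by all `f i` -/
private theorem hasChain_append {V : Type*} {R : V → V → Prop} {X Y : Finset V} {r k : ℕ}
    (f : Fin r → V) (hfX : ∀ i, f i ∈ X) (hf : ∀ i j, i < j → R (f i) (f j)) (hY : Y ⊆ X)
    (hfY : ∀ i, ∀ y ∈ Y, R (f i) y) (h : HasChain R Y k) : HasChain R X (r + k) := by
  obtain ⟨l, hl, hp, hm⟩ := h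
  refine ⟨List.ofFn f ++ l, ?_, ?_, ?_⟩
  · rw [List.length_append, List.length_ofFn, hl]
  · rw [List.pairwise_append]
    refine ⟨?_, hp, ?_⟩
    · rw [List.pairwise_ofFn]
      exact fun i j hij => hf i j hij
    · intro a ha b hb
      obtain ⟨i, rfl⟩ := List.mem_ofFn.1 ha
      exact hfY i b (hm b hb)
  · intro x hx
    rcases List.mem_append.1 hx with hx | hx
    · obtain ⟨i, rfl⟩ := List.mem_ofFn.1 hx
      exact hfX i
    · exact hY (hm x hx)

private theorem ec_sum {α γ : Type*} (G : α → γ → Prop) [∀ a b, Decidable (G a b)]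
    (U : Finset α) (W : Finset γ) : ec G U W = ∑ t ∈ U, (W.filter (G t)).card := by
  unfold ec
  rw [Finset.card_filter, Finset.sum_product]
  refine Finset.sum_congr rfl fun t _ => ?_
  rw [Finset.card_filter]

private theorem ec_sum' {α γ : Type*} (G : α → γ → Prop) [∀ a b, Decidable (G a b)]
    (U : Finset α) (W : Finset γ) : ec G U W = ∑ w ∈ W, (U.filter (fun u => G u w)).card := by
  rw [ec_sum]
  exact Finset.sum_card_bipartiteAbove_eq_sum_card_bipartiteBelow (fun u w => G u w)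

/-- a tournament has at least `|Y|^2/4` arcs -/
private theorem tournament_ec {V : Type*} [DecidableEq V] (R : V → V → Prop) [DecidableRel R]
    (A : Finset V) (htot : ∀ a ∈ A, ∀ b ∈ A, a ≠ b → R a b ∨ R b a) (Y : Finset V) (hY : Y ⊆ A)
    (h2 : 2 ≤ Y.card) : (1 / 4 : ℝ) * (Y.card : ℝ) ^ 2 ≤ ec R Y Y := by
  have h1 : ∑ t ∈ Y, (Y.card - 1) ≤ ec R Y Y + ec R Y Y := by
    conv_rhs => rw [ec_sum R Y Y, ← ec_sum R Y Y, ec_sum' R Y Y]
    have h3 : (∑ w ∈ Y, (Y.filter (fun u => R u w)).card) + ∑ w ∈ Y, (Y.filter (fun u => R u w)).card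
        = (∑ t ∈ Y, (Y.filter (R t)).card) + ∑ w ∈ Y, (Y.filter (fun u => R u w)).card := by
      rw [← ec_sum' R Y Y, ← ec_sum R Y Y]
    rw [h3, ← Finset.sum_add_distrib]
    refine Finset.sum_le_sum fun t ht => ?_
    rw [← Finset.card_erase_of_mem ht]
    refine le_trans (Finset.card_le_card ?_) (Finset.card_union_le _ _)
    intro b hb
    obtain ⟨hb1, hb2⟩ := Finset.mem_erase.1 hb
    rcases htot t (hY ht) b (hY hb2) hb1.symm with h | h
    · exact Finset.mem_union_left _ (Finset.mem_filter.2 ⟨hb2, h⟩)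
    · exact Finset.mem_union_right _ (Finset.mem_filter.2 ⟨hb2, h⟩)
  rw [Finset.sum_const, smul_eq_mul] at h1
  have h4 : (Y.card : ℝ) * ((Y.card : ℝ) - 1) ≤ 2 * (ec R Y Y : ℝ) := by
    have h5 : ((Y.card * (Y.card - 1) : ℕ) : ℝ) ≤ ((ec R Y Y + ec R Y Y : ℕ) : ℝ) := by
      exact_mod_cast h1
    rw [Nat.cast_mul, Nat.cast_sub (by omega)] at h5
    push_cast at h5
    linarith
  have h6 : (2 : ℝ) ≤ Y.card := by exact_mod_cast h2
  nlinarith

/-- W (uses C) -/
theorem weak_jumble {V : Type*} [DecidableEq V] (R : V → V → Prop) [DecidableRel R] (A : Finset V)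
    (hirr : ∀ a, ¬ R a a) (htot : ∀ a ∈ A, ∀ b ∈ A, a ≠ b → R a b ∨ R b a) (k1 r₂ e : ℕ)
    (hno : ¬ HasChain R A k1) (h1 : e + 2 < 4 * r₂)
    (h2 : 2 ^ (100 * (3000 * r₂ + e + 20) + k1) ≤ A.card ^ 100) :
    ∃ X ⊆ A, A.card ^ 100 ≤ X.card ^ 100 * 2 ^ k1 ∧
      ∀ U ⊆ X, ∀ W ⊆ X, X.card ≤ U.card * 2 ^ e → X.card ≤ W.card * 2 ^ e →
        U.card * W.card ≤ 6000 * ec R U W := by
  classical
  -- the maximizer
  obtain ⟨X, hX, hmax⟩ := Finset.exists_max_image A.powerset
    (fun Y => (Y.card : ℝ) ^ 100 / 2 ^ (Tn R k1 Y)) ⟨A, Finset.mem_powerset_self A⟩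
  have hXA : X ⊆ A := Finset.mem_powerset.1 hX
  have hmaxN : ∀ Y ⊆ A, Y.card ^ 100 * 2 ^ (Tn R k1 X) ≤ X.card ^ 100 * 2 ^ (Tn R k1 Y) := by
    intro Y hY
    have h3 := hmax Y (Finset.mem_powerset.2 hY)
    rw [div_le_div_iff₀ (by positivity) (by positivity)] at h3
    exact_mod_cast h3
  have hbound : ∀ Y ⊆ A, ∀ k, HasChain R Y k → k < k1 := by
    intro Y hY k hk
    by_contra hcon
    exact hno (hasChain_mono (hasChain_len hk (not_lt.1 hcon)) hY)
  have hfirst : A.card ^ 100 ≤ X.card ^ 100 * 2 ^ k1 := by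
    calc A.card ^ 100 ≤ A.card ^ 100 * 2 ^ (Tn R k1 X) :=
          Nat.le_mul_of_pos_right _ (by positivity)
      _ ≤ X.card ^ 100 * 2 ^ (Tn R k1 A) := hmaxN A (Finset.Subset.refl _)
      _ ≤ X.card ^ 100 * 2 ^ k1 :=
          Nat.mul_le_mul_left _ (Nat.pow_le_pow_right (by norm_num) (Tn_le R k1 A))
  refine ⟨X, hXA, hfirst, ?_⟩
  intro U hU W hW hUe hWe
  by_contra hcon
  rw [not_le] at hcon
  -- size of X
  have hXbig : 2 ^ (3000 * r₂ + e + 20) ≤ X.card := by
    have h3 : 2 ^ (100 * (3000 * r₂ + e + 20)) * 2 ^ k1 ≤ X.card ^ 100 * 2 ^ k1 := by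
      rw [← pow_add]
      exact h2.trans hfirst
    have h4 : 2 ^ (100 * (3000 * r₂ + e + 20)) ≤ X.card ^ 100 :=
      Nat.le_of_mul_le_mul_right h3 (by positivity)
    have h5 : (2 ^ (3000 * r₂ + e + 20)) ^ 100 ≤ X.card ^ 100 := by
      rw [← pow_mul, mul_comm (3000 * r₂ + e + 20) 100]
      exact h4
    exact (Nat.pow_le_pow_iff_left (by norm_num)).1 h5
  set r : ℕ := 500 * r₂ with hr
  have hr2 : 1 ≤ r₂ := by omega
  have hr1 : 1 ≤ r := by omega
  -- U is large
  have hUbig : 2 ^ (3000 * r₂ + 20) ≤ U.card := by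
    have h3 : 2 ^ (3000 * r₂ + 20) * 2 ^ e ≤ U.card * 2 ^ e := by
      rw [← pow_add]
      refine le_trans (le_of_eq ?_) (hXbig.trans hUe)
      congr 1
      omega
    exact Nat.le_of_mul_le_mul_right h3 (by positivity)
  have hWbig : 2 ^ (3000 * r₂ + 20) ≤ W.card := by
    have h3 : 2 ^ (3000 * r₂ + 20) * 2 ^ e ≤ W.card * 2 ^ e := by
      rw [← pow_add]
      refine le_trans (le_of_eq ?_) (hXbig.trans hWe)
      congr 1
      omega
    exact Nat.le_of_mul_le_mul_right h3 (by positivity)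
  have hU6000 : 6000 ≤ U.card := by
    refine le_trans ?_ hUbig
    calc 6000 ≤ 2 ^ 20 := by norm_num
      _ ≤ 2 ^ (3000 * r₂ + 20) := Nat.pow_le_pow_right (by norm_num) (by omega)
  -- the vertices of W with few in-neighbours in U
  set V' : Finset V := W.filter (fun v => 3000 * (U.filter (fun u => R u v)).card ≤ U.card) with hV'
  have hV'W : V' ⊆ W := Finset.filter_subset _ _
  have hV'A : V' ⊆ A := hV'W.trans (hW.trans hXA)
  have hV'card : W.card < 2 * V'.card := by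
    have h3 : (W \ V').card * U.card ≤ 3000 * ec R U W := by
      rw [ec_sum' R U W, Finset.mul_sum]
      calc (W \ V').card * U.card = ∑ w ∈ W \ V', U.card := by
            rw [Finset.sum_const, smul_eq_mul]
        _ ≤ ∑ w ∈ W \ V', 3000 * (U.filter (fun u => R u w)).card := by
            refine Finset.sum_le_sum fun w hw => ?_
            obtain ⟨hw1, hw2⟩ := Finset.mem_sdiff.1 hw
            by_contra hlt
            exact hw2 (Finset.mem_filter.2 ⟨hw1, (not_le.1 hlt).le⟩)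
        _ ≤ ∑ w ∈ W, 3000 * (U.filter (fun u => R u w)).card :=
            Finset.sum_le_sum_of_subset Finset.sdiff_subset
    have h4 : (W \ V').card + V'.card = W.card := Finset.card_sdiff_add_card_eq_card hV'W
    have h5 : 2 * ((W \ V').card * U.card) < W.card * U.card := by
      calc 2 * ((W \ V').card * U.card) ≤ 2 * (3000 * ec R U W) := Nat.mul_le_mul_left _ h3
        _ = 6000 * ec R U W := by ring
        _ < U.card * W.card := hcon
        _ = W.card * U.card := Nat.mul_comm _ _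
    have h6 : 2 * (W \ V').card < W.card := by
      have h7 : 2 * (W \ V').card * U.card < W.card * U.card := by
        rw [Nat.mul_assoc]
        exact h5
      exact Nat.lt_of_mul_lt_mul_right h7
    omega
  -- out-neighbours
  have hout : ∀ v ∈ V', (1 - 1 / 2000 : ℝ) * U.card ≤ ((U.filter (R v)).card : ℝ) := by
    intro v hv
    obtain ⟨hvW, hv3⟩ := Finset.mem_filter.1 hv
    have h3 : U ⊆ (U.filter (R v) ∪ U.filter (fun u => R u v)) ∪ {v} := by
      intro u hu
      by_cases huv : u = v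
      · exact Finset.mem_union_right _ (Finset.mem_singleton.2 huv)
      · refine Finset.mem_union_left _ ?_
        rcases htot u (hXA (hU hu)) v (hV'A hv) huv with h | h
        · exact Finset.mem_union_right _ (Finset.mem_filter.2 ⟨hu, h⟩)
        · exact Finset.mem_union_left _ (Finset.mem_filter.2 ⟨hu, h⟩)
    have h4 : U.card ≤ (U.filter (R v)).card + (U.filter (fun u => R u v)).card + 1 := by
      refine (Finset.card_le_card h3).trans ((Finset.card_union_le _ _).trans ?_)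
      rw [Finset.card_singleton]
      exact Nat.add_le_add_right (Finset.card_union_le _ _) 1
    have h5 : (U.card : ℝ) ≤ (U.filter (R v)).card + (U.filter (fun u => R u v)).card + 1 := by
      exact_mod_cast h4
    have h6 : (3000 : ℝ) * (U.filter (fun u => R u v)).card ≤ U.card := by exact_mod_cast hv3
    have h7 : (6000 : ℝ) ≤ U.card := by exact_mod_cast hU6000
    linarith
  -- chains in V'
  have hlow : ∀ Y ⊆ V', 2 * 8 ^ r ≤ Y.card →
      (1 / 8 : ℝ) ^ ((r + 1).choose 2) * (Y.card : ℝ) ^ r ≤ tc R r Y := by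
    intro Y hY hYc
    have h3 := tc_lower R V' (1 / 4) 2 (by norm_num) (by norm_num) (by norm_num)
      (fun Z hZ hZ2 => tournament_ec R A htot Z (hZ.trans hV'A) (by exact_mod_cast hZ2)) r Y hY
      (by
        have h4 : ((2 * 8 ^ r : ℕ) : ℝ) ≤ (Y.card : ℝ) := by exact_mod_cast hYc
        refine le_trans (le_of_eq ?_) h4
        push_cast
        norm_num)
    have h4 : (1 / 4 / 2 : ℝ) = 1 / 8 := by norm_num
    rw [h4] at h3
    exact h3
  have hV'big : 2 ^ (3000 * r₂ + 19) ≤ V'.card := by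
    have h3 : 2 ^ (3000 * r₂ + 20) = 2 * 2 ^ (3000 * r₂ + 19) := by
      rw [show 3000 * r₂ + 20 = (3000 * r₂ + 19) + 1 by omega, pow_succ]
      ring
    omega
  have h8r : (8 : ℕ) ^ r = 2 ^ (1500 * r₂) := by
    rw [show (8 : ℕ) = 2 ^ 3 by norm_num, ← pow_mul, hr]
    congr 1
    omega
  have hKV' : 2 * 8 ^ r ≤ V'.card := by
    refine le_trans ?_ hV'big
    rw [h8r, show (2 : ℕ) * 2 ^ (1500 * r₂) = 2 ^ (1500 * r₂ + 1) by rw [pow_succ]; ring]
    exact Nat.pow_le_pow_right (by norm_num) (by omega)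
  obtain ⟨I, hIV', hKI, hIbig, hext⟩ := extremal R V' (2 * 8 ^ r) r (2 * r) (by omega)
    ((1 / 8 : ℝ) ^ ((r + 1).choose 2)) (by
      have : 0 < 8 ^ r := by positivity
      omega) hKV' (by positivity) hlow
  rw [show 2 * r - r = r by omega] at hIbig
  have hIcardpos : 0 < I.card := by
    have : 0 < 8 ^ r := by positivity
    omega
  -- |I| >= |V'| / 8^r
  have hIV : (V'.card : ℝ) / 8 ^ r ≤ I.card := by
    have hch : (r + 1).choose 2 ≤ r * r := by
      rw [Nat.choose_two_right]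
      have : (r + 1) * (r + 1 - 1) / 2 ≤ r * r := by
        rw [Nat.add_sub_cancel]
        apply Nat.div_le_of_le_mul
        nlinarith
      exact this
    have h3 : ((1 / 8 : ℝ) ^ r) ^ r ≤ (1 / 8 : ℝ) ^ ((r + 1).choose 2) := by
      rw [← pow_mul]
      exact pow_le_pow_of_le_one (by norm_num) (by norm_num) hch
    have h4 : ((V'.card : ℝ) / 8 ^ r) ^ r ≤ (I.card : ℝ) ^ r := by
      refine le_trans ?_ hIbig
      have h5 : ((V'.card : ℝ) / 8 ^ r) ^ r = ((1 / 8 : ℝ) ^ r) ^ r * (V'.card : ℝ) ^ r := by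
        rw [← mul_pow]
        congr 1
        rw [one_div, inv_pow]
        ring
      rw [h5]
      exact mul_le_mul_of_nonneg_right h3 (by positivity)
    exact le_of_pow_le_pow_left₀ (by omega) (by positivity) h4
  -- C5
  have hρE : (1 / 2 : ℝ) ^ r₂ ≤ (1 - 1 / 2000 : ℝ) ^ (2 * r) := by
    have h3 : (1 / 2 : ℝ) ≤ (1 - 1 / 2000 : ℝ) ^ 1000 := by
      have h4 := one_add_mul_le_pow (a := (-(1 / 2000) : ℝ)) (by norm_num) 1000
      have h5 : (1 : ℝ) + (1000 : ℕ) * (-(1 / 2000)) = 1 / 2 := by norm_num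
      rw [h5] at h4
      rw [sub_eq_add_neg]
      exact h4
    rw [show 2 * r = 1000 * r₂ by omega, pow_mul]
    exact pow_le_pow_left₀ (by norm_num) h3 r₂
  have hKI' : ((2 * 8 ^ r : ℕ) : ℝ) ≤ (1 - 1 / 2000 : ℝ) / 2 * I.card := by
    have h3 : ((2 ^ (3000 * r₂ + 19) : ℕ) : ℝ) ≤ V'.card := by exact_mod_cast hV'big
    have h4 : ((2 ^ (3000 * r₂ + 19) : ℕ) : ℝ) / 8 ^ r ≤ I.card :=
      le_trans (div_le_div_of_nonneg_right h3 (by positivity)) hIV
    have h8r' : (8 : ℝ) ^ r = 2 ^ (1500 * r₂) := by exact_mod_cast h8r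
    have h5 : ((2 ^ (3000 * r₂ + 19) : ℕ) : ℝ) / 8 ^ r = 2 ^ (1500 * r₂) * 2 ^ 19 := by
      rw [div_eq_iff (by positivity), h8r']
      push_cast
      rw [← pow_add, ← pow_add]
      congr 1
      omega
    rw [h5] at h4
    push_cast
    rw [h8r']
    have h6 : (0 : ℝ) < 2 ^ (1500 * r₂) := by positivity
    have h7 : (2 : ℝ) ^ 19 = 524288 := by norm_num
    rw [h7] at h4
    nlinarith
  have hGood : (1 - 1 / 2000 : ℝ) * (I.card * U.card : ℝ) ≤ ec R I U := by
    rw [ec_sum R I U]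
    push_cast
    calc (1 - 1 / 2000 : ℝ) * (I.card * U.card : ℝ) = ∑ v ∈ I, ((1 - 1 / 2000 : ℝ) * U.card) := by
          rw [Finset.sum_const, nsmul_eq_mul]
          ring
      _ ≤ ∑ v ∈ I, ((U.filter (R v)).card : ℝ) :=
          Finset.sum_le_sum fun v hv => hout v (hIV' hv)
  have hmg := many_good R R I U (2 * 8 ^ r) r (2 * r) (by omega) (1 - 1 / 2000) (by norm_num)
    (by norm_num) hext hIcardpos hKI' hGood ((1 - 1 / 2000 : ℝ) ^ (2 * r) / 4 * U.card) le_rfl
  have htcpos : (0 : ℝ) < tc R r I := by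
    refine lt_of_lt_of_le ?_ (hlow I hIV' hKI)
    have : (0 : ℝ) < I.card := by exact_mod_cast hIcardpos
    positivity
  have hne : (0 : ℝ) < (((chains R r I).filter (fun f => (1 - 1 / 2000 : ℝ) ^ (2 * r) / 4 * U.card ≤
      ((U.filter (fun z => ∀ i, R (f i) z)).card : ℝ))).card : ℝ) := by
    refine lt_of_lt_of_le ?_ hmg
    have : (0 : ℝ) < (1 - 1 / 2000 : ℝ) ^ (2 * r) := by
      apply pow_pos
      norm_num
    positivity
  have hne' : 0 < ((chains R r I).filter (fun f => (1 - 1 / 2000 : ℝ) ^ (2 * r) / 4 * U.card ≤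
      ((U.filter (fun z => ∀ i, R (f i) z)).card : ℝ))).card := by exact_mod_cast hne
  obtain ⟨f, hf⟩ := Finset.card_pos.1 hne'
  obtain ⟨hf1, hf2⟩ := Finset.mem_filter.1 hf
  have hf3 : (∀ i, f i ∈ I) ∧ ∀ i j, i < j → R (f i) (f j) := by
    have := hf1
    simpa [chains, Fintype.mem_piFinset] using this
  set Y : Finset V := U.filter (fun z => ∀ i, R (f i) z) with hY
  -- lower bound for |Y|
  have hYbig : U.card ≤ Y.card * 2 ^ (r₂ + 2) := by
    have h3 : (1 / 2 : ℝ) ^ r₂ / 4 * U.card ≤ Y.card := by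
      refine le_trans ?_ hf2
      refine mul_le_mul_of_nonneg_right ?_ (by positivity)
      exact div_le_div_of_nonneg_right hρE (by norm_num)
    have h4 : (U.card : ℝ) ≤ Y.card * 2 ^ (r₂ + 2) := by
      have h5 : (1 / 2 : ℝ) ^ r₂ / 4 * U.card * 2 ^ (r₂ + 2) ≤ Y.card * 2 ^ (r₂ + 2) :=
        mul_le_mul_of_nonneg_right h3 (by positivity)
      refine le_trans (le_of_eq ?_) h5
      rw [pow_add, one_div, inv_pow]
      field_simp
      norm_num
    exact_mod_cast h4
  have hYX : Y ⊆ X := (Finset.filter_subset _ _).trans hU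
  have hchain : HasChain R X (r + Tn R k1 Y) := by
    refine hasChain_append f (fun i => hW (hV'W (hIV' (hf3.1 i)))) hf3.2 hYX ?_ (Tn_spec R k1 Y)
    intro i y hy
    exact (Finset.mem_filter.1 hy).2 i
  have hT : r + Tn R k1 Y ≤ Tn R k1 X := le_Tn hchain (hbound X hXA _ hchain).le
  have hkey := hmaxN Y (hYX.trans hXA)
  have h3 : Y.card ^ 100 * 2 ^ r ≤ X.card ^ 100 := by
    have h4 : Y.card ^ 100 * 2 ^ r * 2 ^ (Tn R k1 Y) ≤ X.card ^ 100 * 2 ^ (Tn R k1 Y) := by
      calc Y.card ^ 100 * 2 ^ r * 2 ^ (Tn R k1 Y) = Y.card ^ 100 * 2 ^ (r + Tn R k1 Y) := by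
            rw [pow_add]
            ring
        _ ≤ Y.card ^ 100 * 2 ^ (Tn R k1 X) :=
            Nat.mul_le_mul_left _ (Nat.pow_le_pow_right (by norm_num) hT)
        _ ≤ _ := hkey
    exact Nat.le_of_mul_le_mul_right h4 (by positivity)
  have h4 : X.card ≤ Y.card * 2 ^ (r₂ + 2 + e) := by
    calc X.card ≤ U.card * 2 ^ e := hUe
      _ ≤ Y.card * 2 ^ (r₂ + 2) * 2 ^ e := Nat.mul_le_mul_right _ hYbig
      _ = Y.card * 2 ^ (r₂ + 2 + e) := by
          rw [pow_add 2 (r₂ + 2) e]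
          ring
  have hYpos : 0 < Y.card := by
    by_contra h0
    have h5 : Y.card = 0 := by omega
    rw [h5] at hYbig
    omega
  have h5 : Y.card ^ 100 * 2 ^ r ≤ Y.card ^ 100 * 2 ^ (100 * (r₂ + 2 + e)) := by
    calc Y.card ^ 100 * 2 ^ r ≤ X.card ^ 100 := h3
      _ ≤ (Y.card * 2 ^ (r₂ + 2 + e)) ^ 100 := Nat.pow_le_pow_left h4 100
      _ = Y.card ^ 100 * 2 ^ (100 * (r₂ + 2 + e)) := by
          rw [mul_pow, ← pow_mul, mul_comm (r₂ + 2 + e) 100]
  have h6 : 2 ^ r ≤ 2 ^ (100 * (r₂ + 2 + e)) :=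
    Nat.le_of_mul_le_mul_left h5 (by positivity)
  have h7 : r ≤ 100 * (r₂ + 2 + e) := (Nat.pow_le_pow_iff_right (by norm_num)).1 h6
  omega


end Pool.Agent.TT2
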