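import Pool.Agent.TT2.Defs
import Pool.Agent.TT2.C
import Pool.Agent.TT2.W
import Pool.Agent.TT2.P
/-!
# Project TT2, module Fam: the family of twins used in phase one
-/

namespace Pool.Agent.TT2

open Finset

theorem choose_aux (u : ℕ) : 60 * (50 * u + 1).choose 2 = u * (75000 * u + 1500) := by
  rw [Nat.choose_two_right]
  have : (50 * u + 1) * (50 * u + 1 - 1) = 2 * ((50 * u + 1) * (25 * u)) := by
    rw [Nat.add_sub_cancel]; ring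
  rw [this, Nat.mul_div_cancel_left _ (by norm_num)]
  ring

theorem family_aux {V : Type*} [DecidableEq V] (R : V → V → Prop) [DecidableRel R] (A₀ : Finset V)
    {u qa qi qx k1 e e₁ qg qz : ℕ} (hqa : qa = 900000000 * u) (hqi : qi = 870000000 * u)
    (hqx : qx = 879000000 * u) (hk1 : k1 = 2000000007 * u) (he : e = 500000 * u)
    (he₁ : e₁ = 50000 * u) (hqg : qg = 100000 * u) (hqz : qz = 75000 * u ^ 2 + 1500 * u)
    (hu : 1000 ≤ u) (hA₀ : A₀.card = 2 ^ qa)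
    (hirr : ∀ a, ¬ R a a) (htot : ∀ a ∈ A₀, ∀ b ∈ A₀, a ≠ b → R a b ∨ R b a)
    (hno : ¬ HasChain R A₀ k1) :
    ∃ (I : Finset (V × V)) (K : ℕ), VDisj I ∧ (∀ p ∈ I, p.1 ∈ A₀ ∧ p.2 ∈ A₀) ∧
      2 ^ qi ≤ I.card ∧
      (∀ D ⊆ I, K ≤ D.card → (tc (Tw R) (50 * u) I : ℝ) * (D.card : ℝ) ^ (51 * u) ≤
        tc (Tw R) (50 * u) D * (I.card : ℝ) ^ (51 * u)) ∧
      (K : ℝ) ≤ 1 / 5 * I.card ∧
      (1 / 2 : ℝ) ^ qz * (I.card : ℝ) ^ (50 * u) ≤ tc (Tw R) (50 * u) I := by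
  obtain ⟨X, hXA, hX1, hX2⟩ := weak_jumble R A₀ hirr htot k1 (200000 * u) e hno (by omega) (by
    rw [hA₀, ← pow_mul]
    exact Nat.pow_le_pow_right (by norm_num) (by omega))
  have hXlow : 2 ^ qx ≤ X.card := by
    by_contra hlt
    push Not at hlt
    have h1 : X.card ^ 100 < (2 ^ qx) ^ 100 := Nat.pow_lt_pow_left hlt (by norm_num)
    have h2 : X.card ^ 100 * 2 ^ k1 < (2 ^ qx) ^ 100 * 2 ^ k1 := Nat.mul_lt_mul_of_pos_right h1 (by positivity)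
    rw [hA₀, ← pow_mul] at hX1
    rw [← pow_mul, ← pow_add] at h2
    have h3 := lt_of_le_of_lt hX1 h2
    have h4 := (Nat.pow_lt_pow_iff_right (by norm_num : 1 < 2)).1 h3
    omega
  have hXpos : 0 < X.card := lt_of_lt_of_le (by positivity) hXlow
  set K₀ : ℕ := X.card / 2 ^ e + 1 with hK₀
  have hK₀2 : ∀ m : ℕ, K₀ ≤ m → X.card ≤ m * 2 ^ e := by
    intro m hm
    have h1 : X.card < K₀ * 2 ^ e := by
      rw [hK₀]
      have := Nat.div_add_mod X.card (2 ^ e)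
      have h2 := Nat.mod_lt X.card (show 0 < 2 ^ e by positivity)
      nlinarith
    exact h1.le.trans (Nat.mul_le_mul_right _ hm)
  have hK₀3 : K₀ * 2 ^ e ≤ 2 * X.card := by
    have h1 : X.card / 2 ^ e * 2 ^ e ≤ X.card := Nat.div_mul_le_self _ _
    have h2 : 2 ^ e ≤ X.card := le_trans (Nat.pow_le_pow_right (by norm_num) (by omega)) hXlow
    rw [hK₀, add_mul, one_mul]
    omega
  have hκ : X.card ≤ 2 ^ qa := hA₀ ▸ card_le_card hXA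
  have hpe : 2 ^ 40 * (qa + 1) ≤ 2 ^ e₁ := by
    have h1 : qa + 1 ≤ 2 ^ (30 + u) := by
      have h3 : u < 2 ^ u := Nat.lt_two_pow_self
      rw [pow_add]
      have : (2 : ℕ) ^ 30 = 1073741824 := by norm_num
      rw [this]
      omega
    calc 2 ^ 40 * (qa + 1) ≤ 2 ^ 40 * 2 ^ (30 + u) := Nat.mul_le_mul_left _ h1
      _ = 2 ^ (40 + (30 + u)) := by rw [← pow_add]
      _ ≤ 2 ^ e₁ := Nat.pow_le_pow_right (by norm_num) (by omega)
  have hbig : 64 * (2 ^ qg) ^ 2 * 2 ^ (2 * e₁) * K₀ ≤ X.card := by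
    have h1 : 64 * (2 ^ qg) ^ 2 * 2 ^ (2 * e₁) * 2 ≤ 2 ^ e := by
      calc 64 * (2 ^ qg) ^ 2 * 2 ^ (2 * e₁) * 2 = 2 ^ 6 * 2 ^ (qg * 2) * 2 ^ (2 * e₁) * 2 ^ 1 := by
            rw [← pow_mul]; norm_num
        _ = 2 ^ (6 + qg * 2 + 2 * e₁ + 1) := by rw [← pow_add, ← pow_add, ← pow_add]
        _ ≤ 2 ^ e := Nat.pow_le_pow_right (by norm_num) (by omega)
    have h2 : 64 * (2 ^ qg) ^ 2 * 2 ^ (2 * e₁) * 2 * K₀ ≤ 2 * X.card := by
      calc 64 * (2 ^ qg) ^ 2 * 2 ^ (2 * e₁) * 2 * K₀ ≤ 2 ^ e * K₀ := Nat.mul_le_mul_right _ h1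
        _ = K₀ * 2 ^ e := mul_comm _ _
        _ ≤ _ := hK₀3
    have h3 : 64 * (2 ^ qg) ^ 2 * 2 ^ (2 * e₁) * 2 * K₀ =
      2 * (64 * (2 ^ qg) ^ 2 * 2 ^ (2 * e₁) * K₀) := by ring
    rw [h3] at h2
    exact Nat.le_of_mul_le_mul_left h2 (by norm_num)
  obtain ⟨𝒳, h𝒳1, h𝒳2, h𝒳3, h𝒳4⟩ := pairing R X K₀ qa e₁ (2 ^ qg) (Nat.le_add_left 1 _) Nat.one_le_two_pow
    (fun U hU W hW h1 h2 => hX2 U hU W hW (hK₀2 _ h1) (hK₀2 _ h2)) hκ hpe hbig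
  have h𝒳pos : 0 < 𝒳.card := by omega
  have h𝒳posR : (0 : ℝ) < 𝒳.card := by exact_mod_cast h𝒳pos
  set η : ℝ := (1 / 2) ^ 59 with hη
  set KJ : ℝ := 16 * 𝒳.card / 2 ^ qg with hKJ
  have hKJpos : 0 < KJ := by positivity
  have hη2 : η / 2 = (1 / 2) ^ 60 := by rw [hη]; norm_num
  have h2η : 2 / η = 2 ^ 60 := by rw [hη]; norm_num
  have hJ : ∀ Y ⊆ 𝒳, KJ ≤ Y.card → η * (Y.card : ℝ) ^ 2 ≤ ec (Tw R) Y Y := by
    intro Y hY hKY
    rw [hKJ, div_le_iff₀ (by positivity)] at hKY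
    have h1 : 16 * 𝒳.card ≤ Y.card * 2 ^ qg := by exact_mod_cast hKY
    have h2 := h𝒳4 Y hY h1
    have h3 : (Y.card : ℝ) ^ 2 ≤ 2 ^ 59 * ec (Tw R) Y Y := by exact_mod_cast h2
    rw [hη, one_div, inv_pow, ← div_eq_inv_mul, div_le_iff₀ (by positivity)]
    linarith
  have hlow := tc_lower (Tw R) 𝒳 η KJ (by positivity)
    (by rw [hη]; exact pow_le_one₀ (by norm_num) (by norm_num)) hKJpos hJ (50 * u)
  have hexp : (η / 2) ^ ((50 * u + 1).choose 2) = (1 / 2 : ℝ) ^ qz := by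
    rw [hη2, ← pow_mul, choose_aux]
    congr 1
    rw [hqz]; ring
  have hpw : (2 / η) ^ (50 * u) = (2 : ℝ) ^ (3000 * u) := by
    rw [h2η, ← pow_mul]
    congr 1
    ring
  set K : ℕ := ⌈KJ * 2 ^ (3000 * u)⌉₊ with hK
  have hKge : ∀ m : ℕ, K ≤ m → KJ * 2 ^ (3000 * u) ≤ m := by
    intro m hm
    exact (Nat.le_ceil _).trans (Nat.cast_le.2 hm)
  have hKJ2 : KJ * 2 ^ (3000 * u) * 2 ^ (97000 * u) = 16 * 𝒳.card := by
    rw [mul_assoc, ← pow_add, hKJ, show 3000 * u + 97000 * u = qg by omega]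
    field_simp
  have hK1 : 1 ≤ K := by
    rw [hK, Nat.one_le_ceil_iff]; positivity
  have hKle : (K : ℝ) ≤ KJ * 2 ^ (3000 * u) + 1 := (Nat.ceil_lt_add_one (by positivity)).le
  have h𝒳big : (2 : ℝ) ^ qi ≤ 𝒳.card / 2 ^ (80000 * u) := by
    rw [le_div_iff₀ (by positivity), ← pow_add]
    have h1 : 2 ^ qx ≤ 2 ^ 6 * 𝒳.card := hXlow.trans (h𝒳3.trans (by omega))
    have h2 : (2 : ℝ) ^ qx ≤ 2 ^ 6 * 𝒳.card := by exact_mod_cast h1
    have h3 : (2 : ℝ) ^ (qi + 80000 * u) * 2 ^ 6 ≤ 2 ^ qx := by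
      rw [← pow_add]; exact pow_le_pow_right₀ (by norm_num) (by omega)
    have h4 : (2 : ℝ) ^ (qi + 80000 * u) * 2 ^ 6 ≤ 𝒳.card * 2 ^ 6 := by linarith
    exact le_of_mul_le_mul_right h4 (by positivity)
  have h𝒳1' : (1 : ℝ) ≤ 𝒳.card / 2 ^ (97000 * u) := by
    rw [le_div_iff₀ (by positivity), one_mul]
    have h1 : (2 : ℝ) ^ qi ≤ 𝒳.card := h𝒳big.trans (div_le_self (by positivity) (one_le_pow₀ (by norm_num)))
    exact le_trans (pow_le_pow_right₀ (by norm_num) (by omega)) h1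
  have hKJ3 : KJ * 2 ^ (3000 * u) = 16 * (𝒳.card / 2 ^ (97000 * u)) := by
    rw [← mul_div_assoc, eq_div_iff (by positivity)]; exact hKJ2
  have hKle2 : (K : ℝ) ≤ 17 * (𝒳.card / 2 ^ (97000 * u)) := by
    rw [hKJ3] at hKle; linarith
  have hKX : K ≤ 𝒳.card := by
    have : (K : ℝ) ≤ 𝒳.card := by
      refine hKle2.trans ?_
      rw [← mul_div_assoc, div_le_iff₀ (by positivity)]
      have : (17 : ℝ) ≤ 2 ^ (97000 * u) := by
        calc (17 : ℝ) ≤ 2 ^ 5 := by norm_num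
          _ ≤ 2 ^ (97000 * u) := pow_le_pow_right₀ (by norm_num) (by omega)
      nlinarith
    exact_mod_cast this
  obtain ⟨I, hI𝒳, hKI, hI1, hI2⟩ := extremal (Tw R) 𝒳 K (50 * u) (51 * u) (by omega)
    ((1 / 2 : ℝ) ^ qz) hK1 hKX (by positivity) (by
      intro Y hY hKY
      rw [← hexp]
      exact hlow Y hY (by rw [hpw]; exact hKge _ hKY))
  have hI3 : (1 / 2 : ℝ) ^ (75000 * u + 1500) * 𝒳.card ≤ I.card := by
    have h1 : 51 * u - 50 * u = u := by omega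
    rw [h1] at hI1
    have h2 : qz = (75000 * u + 1500) * u := by rw [hqz]; ring
    rw [h2, pow_mul, ← mul_pow] at hI1
    exact le_of_pow_le_pow_left₀ (by omega) (by positivity) hI1
  have hI4 : 𝒳.card / 2 ^ (80000 * u) ≤ (I.card : ℝ) := by
    refine le_trans ?_ hI3
    rw [one_div, inv_pow, ← div_eq_inv_mul]
    exact div_le_div_of_nonneg_left (by positivity) (by positivity)
      (pow_le_pow_right₀ (by norm_num) (by omega))
  refine ⟨I, K, ?_, ?_, ?_, hI2, ?_, ?_⟩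
  · exact ⟨fun p hp q hq => h𝒳1.1 p (hI𝒳 hp) q (hI𝒳 hq), fun p hp q hq => h𝒳1.2.1 p (hI𝒳 hp) q (hI𝒳 hq),
      fun p hp q hq => h𝒳1.2.2 p (hI𝒳 hp) q (hI𝒳 hq)⟩
  · exact fun p hp => ⟨hXA (h𝒳2 p (hI𝒳 hp)).1, hXA (h𝒳2 p (hI𝒳 hp)).2⟩
  · have : (2 : ℝ) ^ qi ≤ I.card := h𝒳big.trans hI4
    exact_mod_cast this
  · refine hKle2.trans ?_
    have h1 : 17 * ((𝒳.card : ℝ) / 2 ^ (97000 * u)) ≤ 1 / 5 * (𝒳.card / 2 ^ (80000 * u)) := by
      rw [show 97000 * u = 80000 * u + 17000 * u by ring, pow_add, ← div_div]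
      have h2 : (0 : ℝ) ≤ 𝒳.card / 2 ^ (80000 * u) := by positivity
      have h3 : (85 : ℝ) ≤ 2 ^ (17000 * u) := by
        calc (85 : ℝ) ≤ 2 ^ 7 := by norm_num
          _ ≤ 2 ^ (17000 * u) := pow_le_pow_right₀ (by norm_num) (by omega)
      rw [← mul_div_assoc, div_le_iff₀ (by positivity)]
      nlinarith
    exact h1.trans (mul_le_mul_of_nonneg_left hI4 (by norm_num))
  · rw [← hexp]
    exact hlow I hI𝒳 (by rw [hpw]; exact hKge _ hKI)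

end Pool.Agent.TT2
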