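import Pool.Agent.TT2.Defs

/-!
# Project TT2, module G (the game) (see /team-store/7dd320_TT.md)
-/

namespace Pool.Agent.TT2

open Finset
open Pool.Agent.helper11.OG (Free HasCopy)

namespace GG

variable {n k : ℕ}

/-- the free arcs of a position -/
def fr (A : Finset (Fin n × Fin n)) : Finset (Fin n × Fin n) := univ.filter (Free A)

lemma mem_fr {A : Finset (Fin n × Fin n)} {a : Fin n × Fin n} : a ∈ fr A ↔ Free A a := by
  simp [fr]

lemma free_insert_iff {A : Finset (Fin n × Fin n)} {a b : Fin n × Fin n} :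
    Free (insert a A) b ↔ Free A b ∧ b ≠ a ∧ b.swap ≠ a := by
  unfold Free
  simp only [mem_insert, not_or]
  tauto

lemma free_swap {A : Finset (Fin n × Fin n)} {a : Fin n × Fin n} (h : Free A a) :
    Free A a.swap := by
  refine ⟨fun h' => h.1 h'.symm, h.2.2, ?_⟩
  rw [Prod.swap_swap]
  exact h.2.1

lemma fr_insert_lt {A : Finset (Fin n × Fin n)} {a : Fin n × Fin n} (h : Free A a) :
    (fr (insert a A)).card < (fr A).card := by
  apply card_lt_card
  rw [ssubset_iff_of_subset]
  · exact ⟨a, mem_fr.2 h, fun h' => (free_insert_iff.1 (mem_fr.1 h')).2.1 rfl⟩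
  · intro b hb
    exact mem_fr.2 (free_insert_iff.1 (mem_fr.1 hb)).1

lemma isPos_insert {A : Finset (Fin n × Fin n)} {a : Fin n × Fin n} (hA : IsPos A)
    (h : Free A a) : IsPos (insert a A) := by
  intro x hx
  rw [mem_insert] at hx
  rcases hx with rfl | hx
  · refine ⟨h.1, ?_⟩
    rw [mem_insert, not_or]
    refine ⟨fun h' => h.1 ?_, h.2.2⟩
    have := congrArg Prod.snd h'
    simpa using this
  · refine ⟨(hA x hx).1, ?_⟩
    rw [mem_insert, not_or]
    refine ⟨fun h' => h.2.2 ?_, (hA x hx).2⟩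
    rw [← h', Prod.swap_swap]
    exact hx

lemma hasCopy_mono {T : Fin k → Fin k → Prop} {A B : Finset (Fin n × Fin n)} (hAB : A ⊆ B)
    (h : HasCopy T A) : HasCopy T B := by
  obtain ⟨c, hc, h⟩ := h
  exact ⟨c, hc, fun i j hij => hAB (h i j hij)⟩

lemma mwins_of_hasCopy {T : Fin k → Fin k → Prop} :
    ∀ (N : ℕ) (A : Finset (Fin n × Fin n)), (fr A).card ≤ N → HasCopy T A →
      ∀ t, MWins T t A := by
  intro N
  induction N with
  | zero =>
    intro A hA hc t
    refine MWins.finish t A (fun a ha => ?_) hc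
    have h1 : a ∈ fr A := mem_fr.2 ha
    rw [Nat.le_zero, card_eq_zero] at hA
    rw [hA] at h1
    simp at h1
  | succ N ih =>
    intro A hA hc t
    by_cases h : ∃ a, Free A a
    · cases t
      · refine MWins.breaker A h (fun a ha => ih _ ?_ (hasCopy_mono (subset_insert _ _) hc) _)
        have := fr_insert_lt ha
        omega
      · obtain ⟨a, ha⟩ := h
        refine MWins.maker A a ha (ih _ ?_ (hasCopy_mono (subset_insert _ _) hc) _)
        have := fr_insert_lt ha
        omega
    · push Not at h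
      exact MWins.finish t A h hc

/-! ### phase 2 -/

lemma erase_free {A : Finset (Fin n × Fin n)} {b f : Fin n × Fin n} (hf : f.1 < f.2)
    (hfb : f = b ∨ f = b.swap) :
    (univ.filter (fun p : Fin n × Fin n => p.1 < p.2 ∧ Free A p)).erase f =
      univ.filter (fun p : Fin n × Fin n => p.1 < p.2 ∧ Free (insert b A) p) := by
  ext p
  simp only [mem_erase, mem_filter, mem_univ, true_and, free_insert_iff]
  constructor
  · rintro ⟨h1, h2, h3⟩
    refine ⟨h2, h3, ?_, ?_⟩
    · rintro rfl
      rcases hfb with h | h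
      · exact h1 h.symm
      · rw [h] at hf
        exact absurd hf (not_lt.2 h2.le)
    · intro h
      rcases hfb with h' | h'
      · rw [h', ← h] at hf
        exact absurd hf (not_lt.2 h2.le)
      · apply h1
        rw [h', ← h, Prod.swap_swap]
  · rintro ⟨h2, h3, h4, h5⟩
    refine ⟨?_, h2, h3⟩
    rintro rfl
    rcases hfb with h | h
    · exact h4 h
    · apply h5
      rw [h, Prod.swap_swap]

lemma phase2 {T : Fin k → Fin k → Prop} (P : Finset (Fin n × Fin n)) :
    ∀ (F X : Finset (Fin n × Fin n)), MBWin (fun X => HasCopy T (P ∪ X)) F X →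
    ∀ A : Finset (Fin n × Fin n), P ∪ X ⊆ A →
      F = univ.filter (fun p : Fin n × Fin n => p.1 < p.2 ∧ Free A p) → MWins T true A := by
  intro F X h
  induction h with
  | win F X h =>
    intro A hA hF
    exact mwins_of_hasCopy _ A le_rfl (hasCopy_mono hA h) _
  | move F X e he hlast hw ih =>
    intro A hA hF
    have he' : e.1 < e.2 ∧ Free A e := by
      rw [hF] at he
      simpa using he
    refine MWins.maker A e he'.2 ?_
    have hF1 : F.erase e =
        univ.filter (fun p : Fin n × Fin n => p.1 < p.2 ∧ Free (insert e A) p) := by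
      rw [hF]
      exact erase_free he'.1 (Or.inl rfl)
    have hsub : P ∪ insert e X ⊆ insert e A := by
      intro x hx
      rw [mem_union, mem_insert] at hx
      rw [mem_insert]
      rcases hx with hx | hx | hx
      · exact Or.inr (hA (mem_union_left _ hx))
      · exact Or.inl hx
      · exact Or.inr (hA (mem_union_right _ hx))
    by_cases hex : ∃ a, Free (insert e A) a
    · refine MWins.breaker _ hex (fun b hb => ?_)
      have hbne : b.1 ≠ b.2 := hb.1
      obtain ⟨f, hf1, hf2, hf3⟩ : ∃ f : Fin n × Fin n, f.1 < f.2 ∧ Free (insert e A) f ∧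
          (f = b ∨ f = b.swap) := by
        rcases lt_or_gt_of_ne hbne with h | h
        · exact ⟨b, h, hb, Or.inl rfl⟩
        · exact ⟨b.swap, h, free_swap hb, Or.inr rfl⟩
      have hfF : f ∈ F.erase e := by
        rw [hF1]
        simp only [mem_filter, mem_univ, true_and]
        exact ⟨hf1, hf2⟩
      refine ih f hfF (insert b (insert e A)) (hsub.trans (subset_insert _ _)) ?_
      rw [hF1]
      exact erase_free hf1 hf3
    · push Not at hex
      refine MWins.finish _ _ hex (hasCopy_mono hsub (hlast ?_))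
      rw [hF1]
      apply filter_false_of_mem
      intro p _ hp
      exact hex p hp.2

/-! ### phase 1 -/

/-- number of arcs inside the complement of `A₀` -/
def cB (A₀ : Finset (Fin n)) (A : Finset (Fin n × Fin n)) : ℕ :=
  (A.filter (fun a => a.1 ∉ A₀ ∧ a.2 ∉ A₀)).card

/-- number of arcs touching `A₀` -/
def cT (A₀ : Finset (Fin n)) (A : Finset (Fin n × Fin n)) : ℕ :=
  (A.filter (fun a => ¬ (a.1 ∉ A₀ ∧ a.2 ∉ A₀))).card

lemma cB_insert_in {A₀ : Finset (Fin n)} {A : Finset (Fin n × Fin n)} {a : Fin n × Fin n}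
    (h : Free A a) (ha : a.1 ∉ A₀ ∧ a.2 ∉ A₀) :
    cB A₀ (insert a A) = cB A₀ A + 1 ∧ cT A₀ (insert a A) = cT A₀ A := by
  unfold cB cT
  rw [filter_insert, filter_insert, if_pos ha, if_neg (not_not.2 ha), card_insert_of_notMem]
  · exact ⟨rfl, rfl⟩
  · intro h'
    exact h.2.1 (mem_of_mem_filter _ h')

lemma cB_insert_touch {A₀ : Finset (Fin n)} {A : Finset (Fin n × Fin n)} {a : Fin n × Fin n}
    (h : Free A a) (ha : ¬ (a.1 ∉ A₀ ∧ a.2 ∉ A₀)) :
    cB A₀ (insert a A) = cB A₀ A ∧ cT A₀ (insert a A) = cT A₀ A + 1 := by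
  unfold cB cT
  rw [filter_insert, filter_insert, if_neg ha, if_pos ha, card_insert_of_notMem]
  · exact ⟨rfl, rfl⟩
  · intro h'
    exact h.2.1 (mem_of_mem_filter _ h')

lemma cT_le {A₀ : Finset (Fin n)} {A : Finset (Fin n × Fin n)} (hA : IsPos A) :
    cT A₀ A ≤ A₀.card * n := by
  have h1 : A₀.card * n = (A₀ ×ˢ (univ : Finset (Fin n))).card := by
    rw [card_product, card_univ, Fintype.card_fin]
  rw [h1]
  unfold cT
  apply card_le_card_of_injOn (fun a : Fin n × Fin n => if a.1 ∈ A₀ then a else a.swap)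
  · intro a ha
    have ha' := (mem_filter.1 (mem_coe.1 ha)).2
    rw [mem_coe, mem_product]
    by_cases h : a.1 ∈ A₀
    · simp only [h, if_true]
      exact ⟨trivial, mem_univ _⟩
    · simp only [h, if_false]
      refine ⟨?_, mem_univ _⟩
      by_contra h2
      exact ha' ⟨h, h2⟩
  · intro a ha b hb hab
    have ha1 := (mem_filter.1 (mem_coe.1 ha)).1
    have hb1 := (mem_filter.1 (mem_coe.1 hb)).1
    simp only at hab
    by_cases h : a.1 ∈ A₀
    · by_cases h' : b.1 ∈ A₀
      · rw [if_pos h, if_pos h'] at hab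
        exact hab
      · rw [if_pos h, if_neg h'] at hab
        exfalso
        apply (hA b hb1).2
        rw [← hab]
        exact ha1
    · by_cases h' : b.1 ∈ A₀
      · rw [if_neg h, if_pos h'] at hab
        exfalso
        apply (hA a ha1).2
        rw [hab]
        exact hb1
      · rw [if_neg h, if_neg h'] at hab
        exact Prod.swap_injective hab

/-- the arc `b` lies on the block `(p, z)` -/
def On (b p : Fin n × Fin n) (z : Fin n) : Prop :=
  b = (p.1, z) ∨ b = (z, p.1) ∨ b = (p.2, z) ∨ b = (z, p.2)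

/-- the state of a block before a move of OBreaker -/
def Good (A : Finset (Fin n × Fin n)) (p : Fin n × Fin n) (z : Fin n) : Prop :=
  Untouched A p z ∨ ((p.1, z) ∈ A ∧ Free A (p.2, z)) ∨ OKtype A p z

lemma okType_mono {A B : Finset (Fin n × Fin n)} {p : Fin n × Fin n} {z : Fin n} (hAB : A ⊆ B)
    (h : OKtype A p z) : OKtype B p z := by
  rcases h with h | h | h
  · exact Or.inl ⟨hAB h.1, hAB h.2⟩
  · exact Or.inr (Or.inl ⟨hAB h.1, hAB h.2⟩)
  · exact Or.inr (Or.inr ⟨hAB h.1, hAB h.2⟩)

lemma free_keep {A : Finset (Fin n × Fin n)} {b p : Fin n × Fin n} {z : Fin n}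
    (hb : ¬ On b p z) {x : Fin n} (hx : x = p.1 ∨ x = p.2) (h : Free A (x, z)) :
    Free (insert b A) (x, z) := by
  rw [free_insert_iff]
  refine ⟨h, ?_, ?_⟩
  · rintro rfl
    apply hb
    rcases hx with rfl | rfl
    · exact Or.inl rfl
    · exact Or.inr (Or.inr (Or.inl rfl))
  · rintro rfl
    apply hb
    rcases hx with rfl | rfl
    · exact Or.inr (Or.inl rfl)
    · exact Or.inr (Or.inr (Or.inr rfl))

lemma good_keep {A : Finset (Fin n × Fin n)} {b p : Fin n × Fin n} {z : Fin n}
    (hb : ¬ On b p z) (h : Good A p z) : Good (insert b A) p z := by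
  rcases h with h | h | h
  · exact Or.inl ⟨free_keep hb (Or.inl rfl) h.1, free_keep hb (Or.inr rfl) h.2⟩
  · exact Or.inr (Or.inl ⟨mem_insert_of_mem h.1, free_keep hb (Or.inr rfl) h.2⟩)
  · exact Or.inr (Or.inr (okType_mono (subset_insert _ _) h))

/-- uniqueness of the block -/
lemma on_unique {A₀ : Finset (Fin n)} {𝒳 : Finset (Fin n × Fin n)} (hV : VDisj 𝒳)
    (hX : ∀ p ∈ 𝒳, p.1 ∈ A₀ ∧ p.2 ∈ A₀) {b p q : Fin n × Fin n} {z w : Fin n} (hp : p ∈ 𝒳)
    (hq : q ∈ 𝒳) (hz : z ∉ A₀) (hw : w ∉ A₀) (h1 : On b p z) (h2 : On b q w) :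
    p = q ∧ z = w := by
  obtain ⟨hV1, hV2, hV3⟩ := hV
  have hp1 := (hX p hp).1
  have hp2 := (hX p hp).2
  have hq1 := (hX q hq).1
  have hq2 := (hX q hq).2
  have key : ∀ x y : Fin n, (x = p.1 ∨ x = p.2) → (y = q.1 ∨ y = q.2) → x = y → p = q := by
    intro x y hx hy hxy
    rcases hx with hx | hx
    · rcases hy with hy | hy
      · exact hV1 p hp q hq (by rw [← hx, ← hy, hxy])
      · exact absurd (by rw [← hx, ← hy, hxy] : p.1 = q.2) (hV3 p hp q hq)
    · rcases hy with hy | hy
      · exact absurd (by rw [← hx, ← hy, hxy] : q.1 = p.2) (hV3 q hq p hp)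
      · exact hV2 p hp q hq (by rw [← hx, ← hy, hxy])
  have f1 : ∀ x, (x = p.1 ∨ x = p.2) → x ∈ A₀ := by
    rintro x (rfl | rfl)
    · exact hp1
    · exact hp2
  have f2 : ∀ x, (x = q.1 ∨ x = q.2) → x ∈ A₀ := by
    rintro x (rfl | rfl)
    · exact hq1
    · exact hq2
  have g1 : ∃ x, (x = p.1 ∨ x = p.2) ∧ (b = (x, z) ∨ b = (z, x)) := by
    rcases h1 with h | h | h | h
    · exact ⟨_, Or.inl rfl, Or.inl h⟩
    · exact ⟨_, Or.inl rfl, Or.inr h⟩
    · exact ⟨_, Or.inr rfl, Or.inl h⟩
    · exact ⟨_, Or.inr rfl, Or.inr h⟩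
  have g2 : ∃ y, (y = q.1 ∨ y = q.2) ∧ (b = (y, w) ∨ b = (w, y)) := by
    rcases h2 with h | h | h | h
    · exact ⟨_, Or.inl rfl, Or.inl h⟩
    · exact ⟨_, Or.inl rfl, Or.inr h⟩
    · exact ⟨_, Or.inr rfl, Or.inl h⟩
    · exact ⟨_, Or.inr rfl, Or.inr h⟩
  obtain ⟨x, hx, hbx⟩ := g1
  obtain ⟨y, hy, hby⟩ := g2
  have hxA := f1 x hx
  have hyA := f2 y hy
  rcases hbx with hbx | hbx <;> rcases hby with hby | hby
  · rw [hbx, Prod.mk.injEq] at hby
    exact ⟨key x y hx hy hby.1, hby.2⟩
  · rw [hbx, Prod.mk.injEq] at hby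
    exact absurd (hby.1 ▸ hxA) hw
  · rw [hbx, Prod.mk.injEq] at hby
    exact absurd (hby.1 ▸ hyA) hz
  · rw [hbx, Prod.mk.injEq] at hby
    exact ⟨key x y hx hy hby.2, hby.1⟩

/-- an arc of a block touches `A₀` -/
lemma on_touch {A₀ : Finset (Fin n)} {b p : Fin n × Fin n} {z : Fin n}
    (hp : p.1 ∈ A₀ ∧ p.2 ∈ A₀) (h : On b p z) : ¬ (b.1 ∉ A₀ ∧ b.2 ∉ A₀) := by
  rintro ⟨h1, h2⟩
  rcases h with rfl | rfl | rfl | rfl
  · exact h1 hp.1
  · exact h2 hp.1
  · exact h1 hp.2
  · exact h2 hp.2

/-- the answer to a move of OBreaker on a block: either the block is still good, or there is an arc of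
the block which makes it good -/
lemma answer {A : Finset (Fin n × Fin n)} {b p : Fin n × Fin n} {z : Fin n}
    (hne : p.1 ≠ p.2) (hb : Free A b) (hon : On b p z) (h : Good A p z) :
    Good (insert b A) p z ∨
      ∃ c, Free (insert b A) c ∧ On c p z ∧ Good (insert c (insert b A)) p z := by
  rcases h with h | h | h
  · -- untouched
    have hz1 : p.1 ≠ z := h.1.1
    have hz2 : p.2 ≠ z := h.2.1
    rcases hon with rfl | rfl | rfl | rfl
    · -- p.1 → z
      left
      right; left
      refine ⟨mem_insert_self _ _, ?_⟩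
      rw [free_insert_iff]
      refine ⟨h.2, ?_, ?_⟩
      · intro h'
        rw [Prod.mk.injEq] at h'
        exact hne h'.1.symm
      · intro h'
        rw [Prod.swap_prod_mk, Prod.mk.injEq] at h'
        exact hz1 h'.1.symm
    · -- z → p.1
      right
      refine ⟨(z, p.2), ?_, Or.inr (Or.inr (Or.inr rfl)), ?_⟩
      · rw [free_insert_iff]
        refine ⟨free_swap h.2, ?_, ?_⟩
        · intro h'
          rw [Prod.mk.injEq] at h'
          exact hne h'.2.symm
        · intro h'
          rw [Prod.swap_prod_mk, Prod.mk.injEq] at h'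
          exact hz2 h'.1
      · right; right; right; right
        exact ⟨mem_insert_of_mem (mem_insert_self _ _), mem_insert_self _ _⟩
    · -- p.2 → z
      right
      refine ⟨(p.1, z), ?_, Or.inl rfl, ?_⟩
      · rw [free_insert_iff]
        refine ⟨h.1, ?_, ?_⟩
        · intro h'
          rw [Prod.mk.injEq] at h'
          exact hne h'.1
        · intro h'
          rw [Prod.swap_prod_mk, Prod.mk.injEq] at h'
          exact hz1 h'.2
      · right; right; left
        exact ⟨mem_insert_self _ _, mem_insert_of_mem (mem_insert_self _ _)⟩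
    · -- z → p.2
      right
      refine ⟨(p.1, z), ?_, Or.inl rfl, ?_⟩
      · rw [free_insert_iff]
        refine ⟨h.1, ?_, ?_⟩
        · intro h'
          rw [Prod.mk.injEq] at h'
          exact hz1 h'.1
        · intro h'
          rw [Prod.swap_prod_mk, Prod.mk.injEq] at h'
          exact hne h'.2
      · right; right; right; left
        exact ⟨mem_insert_self _ _, mem_insert_of_mem (mem_insert_self _ _)⟩
  · -- half
    left
    right; right
    have hnot : ∀ c : Fin n × Fin n, (c = (p.1, z) ∨ c = (z, p.1)) → ¬ Free A c := by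
      rintro c (rfl | rfl) hc
      · exact hc.2.1 h.1
      · exact hc.2.2 h.1
    rcases hon with hon | hon | hon | hon
    · exact absurd hb (hnot b (Or.inl hon))
    · exact absurd hb (hnot b (Or.inr hon))
    · left
      rw [hon]
      exact ⟨mem_insert_of_mem h.1, mem_insert_self _ _⟩
    · right; left
      rw [hon]
      exact ⟨mem_insert_of_mem h.1, mem_insert_self _ _⟩
  · exact Or.inl (Or.inr (Or.inr (okType_mono (subset_insert _ _) h)))

/-- a move of OMaker on a block that is not finished -/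
lemma own_move {A : Finset (Fin n × Fin n)} {b p : Fin n × Fin n} {z : Fin n} (hA : IsPos A)
    (hne : p.1 ≠ p.2) (hb : Free A b) (hon : On b p z) (h : Good A p z) :
    ∃ c, Free A c ∧ On c p z ∧ Good (insert c A) p z := by
  rcases h with h | h | h
  · refine ⟨(p.1, z), h.1, Or.inl rfl, Or.inr (Or.inl ⟨mem_insert_self _ _, ?_⟩)⟩
    rw [free_insert_iff]
    refine ⟨h.2, ?_, ?_⟩
    · intro h'
      rw [Prod.mk.injEq] at h'
      exact hne h'.1.symm
    · intro h'
      rw [Prod.swap_prod_mk, Prod.mk.injEq] at h'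
      exact h.1.1 h'.1.symm
  · exact ⟨(p.2, z), h.2, Or.inr (Or.inr (Or.inl rfl)),
      Or.inr (Or.inr (Or.inl ⟨mem_insert_of_mem h.1, mem_insert_self _ _⟩))⟩
  · exfalso
    have key : ∀ x : Fin n, ((x, z) ∈ A ∨ (z, x) ∈ A) → b ≠ (x, z) ∧ b ≠ (z, x) := by
      intro x hx
      refine ⟨?_, ?_⟩
      · rintro rfl
        rcases hx with hx | hx
        · exact hb.2.1 hx
        · exact hb.2.2 hx
      · rintro rfl
        rcases hx with hx | hx
        · exact hb.2.2 hx
        · exact hb.2.1 hx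
    have h1 : (p.1, z) ∈ A ∨ (z, p.1) ∈ A := by
      rcases h with h | h | h
      · exact Or.inl h.1
      · exact Or.inl h.1
      · exact Or.inr h.1
    have h2 : (p.2, z) ∈ A ∨ (z, p.2) ∈ A := by
      rcases h with h | h | h
      · exact Or.inl h.2
      · exact Or.inr h.2
      · exact Or.inr h.2
    rcases hon with hon | hon | hon | hon
    · exact (key _ h1).1 hon
    · exact (key _ h1).2 hon
    · exact (key _ h2).1 hon
    · exact (key _ h2).2 hon

/-- Phase 1 -/
lemma phase1 {T : Fin k → Fin k → Prop} (A₀ : Finset (Fin n)) (pos₁ : Finset (Fin n × Fin n))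
    (𝒳 : Finset (Fin n × Fin n)) (hV : VDisj 𝒳) (hX : ∀ p ∈ 𝒳, p.1 ∈ A₀ ∧ p.2 ∈ A₀)
    (H : ∀ pos₂ : Finset (Fin n × Fin n), IsPos pos₂ → pos₁ ⊆ pos₂ →
          (∀ a, Free pos₂ a → a.1 ∉ A₀ ∧ a.2 ∉ A₀) →
          (pos₂.filter (fun a => a.1 ∉ A₀ ∧ a.2 ∉ A₀)).card ≤ A₀.card * n →
          (∀ p ∈ 𝒳, ∀ z ∉ A₀, Untouched pos₁ p z → OKtype pos₂ p z) →
          MBWin (fun X => HasCopy T (pos₂ ∪ X))
            (univ.filter (fun p : Fin n × Fin n => p.1 < p.2 ∧ Free pos₂ p)) ∅) :
    ∀ (N : ℕ) (A : Finset (Fin n × Fin n)), (fr A).card ≤ N → IsPos A → pos₁ ⊆ A →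
      (∀ p ∈ 𝒳, ∀ z ∉ A₀, Untouched pos₁ p z → Good A p z) →
      (cB A₀ A ≤ cT A₀ A → MWins T true A) ∧ (cB A₀ A + 1 ≤ cT A₀ A → MWins T false A) := by
  have hVne : ∀ p ∈ 𝒳, p.1 ≠ p.2 := fun p hp => hV.2.2 p hp p hp
  -- the end of phase 1
  have hend : ∀ A : Finset (Fin n × Fin n), IsPos A → pos₁ ⊆ A →
      (∀ p ∈ 𝒳, ∀ z ∉ A₀, Untouched pos₁ p z → Good A p z) → cB A₀ A ≤ cT A₀ A →
      (∀ a, Free A a → a.1 ∉ A₀ ∧ a.2 ∉ A₀) →
      MBWin (fun X => HasCopy T (A ∪ X))
            (univ.filter (fun p : Fin n × Fin n => p.1 < p.2 ∧ Free A p)) ∅ := by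
    intro A hA hsub hgood hcnt hfree
    refine H A hA hsub hfree (hcnt.trans (cT_le hA)) ?_
    intro p hp z hz hu
    rcases hgood p hp z hz hu with h | h | h
    · exact absurd (hX p hp).1 (hfree _ h.1).1
    · exact absurd (hX p hp).2 (hfree _ h.2).1
    · exact h
  intro N
  induction N with
  | zero =>
    intro A hA hpos hsub hgood
    have hno : ∀ a, ¬ Free A a := by
      intro a ha
      have h1 : a ∈ fr A := mem_fr.2 ha
      rw [Nat.le_zero, card_eq_zero] at hA
      rw [hA] at h1
      simp at h1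
    have hF : univ.filter (fun p : Fin n × Fin n => p.1 < p.2 ∧ Free A p) = ∅ := by
      apply filter_false_of_mem
      intro p _ hp
      exact hno p hp.2
    have hcopy : cB A₀ A ≤ cT A₀ A → HasCopy T A := by
      intro hcnt
      have h := hend A hpos hsub hgood hcnt (fun a ha => absurd ha (hno a))
      rw [hF] at h
      cases h with
      | win F X h => simpa using h
      | move F X e he hlast hw => simp at he
    refine ⟨fun hcnt => MWins.finish _ A hno (hcopy hcnt),
      fun hcnt => MWins.finish _ A hno (hcopy (by omega))⟩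
  | succ N ih =>
    intro A hA hpos hsub hgood
    constructor
    · intro hcnt
      by_cases hex : ∃ a, Free A a ∧ ¬ (a.1 ∉ A₀ ∧ a.2 ∉ A₀)
      · obtain ⟨a, ha, hta⟩ := hex
        by_cases hbl : ∃ p ∈ 𝒳, ∃ z, z ∉ A₀ ∧ Untouched pos₁ p z ∧ On a p z
        · obtain ⟨p, hp, z, hz, hu, hon⟩ := hbl
          obtain ⟨c, hc, hcon, hcg⟩ := own_move hpos (hVne p hp) ha hon (hgood p hp z hz hu)
          refine MWins.maker A c hc ?_
          have hcc := cB_insert_touch hc (on_touch (hX p hp) hcon)
          refine (ih _ (by have := fr_insert_lt hc; omega) (isPos_insert hpos hc)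
            (hsub.trans (subset_insert _ _)) ?_).2 (by omega)
          intro q hq w hw hu'
          by_cases hqo : On c q w
          · obtain ⟨rfl, rfl⟩ := on_unique hV hX hp hq hz hw hcon hqo
            exact hcg
          · exact good_keep hqo (hgood q hq w hw hu')
        · refine MWins.maker A a ha ?_
          have hcc := cB_insert_touch ha hta
          refine (ih _ (by have := fr_insert_lt ha; omega) (isPos_insert hpos ha)
            (hsub.trans (subset_insert _ _)) ?_).2 (by omega)
          intro q hq w hw hu'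
          refine good_keep ?_ (hgood q hq w hw hu')
          intro hon
          exact hbl ⟨q, hq, w, hw, hu', hon⟩
      · push Not at hex
        have h := hend A hpos hsub hgood hcnt (fun a ha => hex a ha)
        exact phase2 A _ _ h A (by simp) rfl
    · intro hcnt
      by_cases hex : ∃ a, Free A a
      · refine MWins.breaker A hex (fun b hb => ?_)
        have hlt := fr_insert_lt hb
        have hpos' := isPos_insert hpos hb
        have hsub' := hsub.trans (subset_insert b A)
        by_cases hbad : ∃ p ∈ 𝒳, ∃ z, z ∉ A₀ ∧ Untouched pos₁ p z ∧ ¬ Good (insert b A) p z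
        · obtain ⟨p, hp, z, hz, hu, hng⟩ := hbad
          have hon : On b p z := by
            by_contra hon
            exact hng (good_keep hon (hgood p hp z hz hu))
          rcases answer (hVne p hp) hb hon (hgood p hp z hz hu) with h | ⟨c, hc, hcon, hcg⟩
          · exact absurd h hng
          · refine MWins.maker _ c hc ?_
            have hcc := cB_insert_touch hc (on_touch (hX p hp) hcon)
            have hbb := cB_insert_touch hb (on_touch (hX p hp) hon)
            refine (ih _ (by have := fr_insert_lt hc; omega) (isPos_insert hpos' hc)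
              (hsub'.trans (subset_insert _ _)) ?_).2 (by omega)
            intro q hq w hw hu'
            by_cases hqo : On c q w
            · obtain ⟨rfl, rfl⟩ := on_unique hV hX hp hq hz hw hcon hqo
              exact hcg
            · refine good_keep hqo ?_
              by_cases hqb : On b q w
              · exfalso
                obtain ⟨rfl, rfl⟩ := on_unique hV hX hp hq hz hw hon hqb
                exact hqo hcon
              · exact good_keep hqb (hgood q hq w hw hu')
        · push Not at hbad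
          refine (ih _ (by omega) hpos' hsub' hbad).1 ?_
          by_cases hin : b.1 ∉ A₀ ∧ b.2 ∉ A₀
          · have := cB_insert_in hb hin
            omega
          · have := cB_insert_touch hb hin
            omega
      · push Not at hex
        have h := hend A hpos hsub hgood (by omega) (fun a ha => absurd ha (hex a))
        have hF : univ.filter (fun p : Fin n × Fin n => p.1 < p.2 ∧ Free A p) = ∅ := by
          apply filter_false_of_mem
          intro p _ hp
          exact hex p hp.2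
        rw [hF] at h
        refine MWins.finish _ A hex ?_
        cases h with
        | win F X h => simpa using h
        | move F X e he hlast hw => simp at he

/-! ### phase 0 -/

/-- number of arcs inside `A₀` -/
def cI (A₀ : Finset (Fin n)) (A : Finset (Fin n × Fin n)) : ℕ :=
  (A.filter (fun a => a.1 ∈ A₀ ∧ a.2 ∈ A₀)).card

/-- number of arcs not inside `A₀` -/
def cO (A₀ : Finset (Fin n)) (A : Finset (Fin n × Fin n)) : ℕ :=
  (A.filter (fun a => ¬ (a.1 ∈ A₀ ∧ a.2 ∈ A₀))).card

lemma cI_insert_in {A₀ : Finset (Fin n)} {A : Finset (Fin n × Fin n)} {a : Fin n × Fin n}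
    (h : Free A a) (ha : a.1 ∈ A₀ ∧ a.2 ∈ A₀) :
    cI A₀ (insert a A) = cI A₀ A + 1 ∧ cO A₀ (insert a A) = cO A₀ A := by
  unfold cI cO
  rw [filter_insert, filter_insert, if_pos ha, if_neg (not_not.2 ha), card_insert_of_notMem]
  · exact ⟨rfl, rfl⟩
  · intro h'
    exact h.2.1 (mem_of_mem_filter _ h')

lemma cI_insert_out {A₀ : Finset (Fin n)} {A : Finset (Fin n × Fin n)} {a : Fin n × Fin n}
    (h : Free A a) (ha : ¬ (a.1 ∈ A₀ ∧ a.2 ∈ A₀)) :
    cI A₀ (insert a A) = cI A₀ A ∧ cO A₀ (insert a A) = cO A₀ A + 1 := by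
  unfold cI cO
  rw [filter_insert, filter_insert, if_neg ha, if_pos ha, card_insert_of_notMem]
  · exact ⟨rfl, rfl⟩
  · intro h'
    exact h.2.1 (mem_of_mem_filter _ h')

lemma cI_le (A₀ : Finset (Fin n)) (A : Finset (Fin n × Fin n)) : cI A₀ A ≤ A₀.card ^ 2 := by
  have h1 : A₀.card ^ 2 = (A₀ ×ˢ A₀).card := by
    rw [card_product, sq]
  rw [h1]
  unfold cI
  apply card_le_card
  intro a ha
  rw [mem_product]
  exact (mem_filter.1 ha).2

lemma cB_le_cO (A₀ : Finset (Fin n)) (A : Finset (Fin n × Fin n)) : cB A₀ A ≤ cO A₀ A := by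
  unfold cB cO
  apply card_le_card
  intro a ha
  rw [mem_filter] at ha ⊢
  exact ⟨ha.1, fun h => ha.2.1 h.1⟩

lemma cI_le_cT (A₀ : Finset (Fin n)) (A : Finset (Fin n × Fin n)) : cI A₀ A ≤ cT A₀ A := by
  unfold cI cT
  apply card_le_card
  intro a ha
  rw [mem_filter] at ha ⊢
  exact ⟨ha.1, fun h => h.1 ha.2.1⟩

end GG

open GG in
/-- G: the strategy in the phases 0 and 1, and the translation of phase 2 -/
theorem game_reduction {n k : ℕ} (A₀ : Finset (Fin n))
    (H : ∀ pos₁ : Finset (Fin n × Fin n), IsPos pos₁ →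
      (∀ a, Free pos₁ a → ¬ (a.1 ∈ A₀ ∧ a.2 ∈ A₀)) →
      (pos₁.filter (fun a => ¬ (a.1 ∈ A₀ ∧ a.2 ∈ A₀))).card ≤ A₀.card ^ 2 →
      HasCopy (TTk k) pos₁ ∨
      ∃ 𝒳 : Finset (Fin n × Fin n), VDisj 𝒳 ∧ (∀ p ∈ 𝒳, p.1 ∈ A₀ ∧ p.2 ∈ A₀) ∧
        ∀ pos₂ : Finset (Fin n × Fin n), IsPos pos₂ → pos₁ ⊆ pos₂ →
          (∀ a, Free pos₂ a → a.1 ∉ A₀ ∧ a.2 ∉ A₀) →
          (pos₂.filter (fun a => a.1 ∉ A₀ ∧ a.2 ∉ A₀)).card ≤ A₀.card * n →
          (∀ p ∈ 𝒳, ∀ z ∉ A₀, Untouched pos₁ p z → OKtype pos₂ p z) →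
          MBWin (fun X => HasCopy (TTk k) (pos₂ ∪ X))
            (univ.filter (fun p : Fin n × Fin n => p.1 < p.2 ∧ Free pos₂ p)) ∅) :
    OMakerWins (TTk k) n := by
  classical
  -- the end of phase 0
  have hend : ∀ A : Finset (Fin n × Fin n), IsPos A →
      (∀ a, Free A a → ¬ (a.1 ∈ A₀ ∧ a.2 ∈ A₀)) → cO A₀ A ≤ cI A₀ A →
      MWins (TTk k) true A ∧ ((∀ a, ¬ Free A a) → HasCopy (TTk k) A) := by
    intro A hA hfree hcnt
    rcases H A hA hfree (hcnt.trans (cI_le A₀ A)) with h | ⟨𝒳, hV, hX, h⟩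
    · exact ⟨mwins_of_hasCopy _ A le_rfl h _, fun _ => h⟩
    · have hc : cB A₀ A ≤ cT A₀ A :=
        (cB_le_cO A₀ A).trans (hcnt.trans (cI_le_cT A₀ A))
      refine ⟨(phase1 A₀ A 𝒳 hV hX h _ A le_rfl hA (Subset.refl _)
        (fun p hp z hz hu => Or.inl hu)).1 hc, fun hno => ?_⟩
      have h2 := h A hA (Subset.refl _) (fun a ha => absurd ha (hno a)) (hc.trans (cT_le hA))
        (fun p hp z hz hu => absurd hu.1 (hno _))
      have hF : univ.filter (fun p : Fin n × Fin n => p.1 < p.2 ∧ Free A p) = ∅ := by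
        apply filter_false_of_mem
        intro p _ hp
        exact hno p hp.2
      rw [hF] at h2
      cases h2 with
      | win F X h => simpa using h
      | move F X e he hlast hw => simp at he
  have main : ∀ (N : ℕ) (A : Finset (Fin n × Fin n)), (fr A).card ≤ N → IsPos A →
      (cO A₀ A ≤ cI A₀ A → MWins (TTk k) true A) ∧
      (cO A₀ A + 1 ≤ cI A₀ A → MWins (TTk k) false A) := by
    intro N
    induction N with
    | zero =>
      intro A hA hpos
      have hno : ∀ a, ¬ Free A a := by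
        intro a ha
        have h1 : a ∈ fr A := mem_fr.2 ha
        rw [Nat.le_zero, card_eq_zero] at hA
        rw [hA] at h1
        simp at h1
      have hcopy : cO A₀ A ≤ cI A₀ A → HasCopy (TTk k) A := fun hcnt =>
        (hend A hpos (fun a ha => absurd ha (hno a)) hcnt).2 hno
      exact ⟨fun hcnt => MWins.finish _ A hno (hcopy hcnt),
        fun hcnt => MWins.finish _ A hno (hcopy (by omega))⟩
    | succ N ih =>
      intro A hA hpos
      constructor
      · intro hcnt
        by_cases hex : ∃ a, Free A a ∧ (a.1 ∈ A₀ ∧ a.2 ∈ A₀)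
        · obtain ⟨a, ha, hin⟩ := hex
          refine MWins.maker A a ha ?_
          have hcc := cI_insert_in ha hin
          exact (ih _ (by have := fr_insert_lt ha; omega) (isPos_insert hpos ha)).2 (by omega)
        · have hfree : ∀ a, Free A a → ¬ (a.1 ∈ A₀ ∧ a.2 ∈ A₀) := fun a ha hin =>
            hex ⟨a, ha, hin⟩
          exact (hend A hpos hfree hcnt).1
      · intro hcnt
        by_cases hex : ∃ a, Free A a
        · refine MWins.breaker A hex (fun b hb => ?_)
          have hlt := fr_insert_lt hb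
          refine (ih _ (by omega) (isPos_insert hpos hb)).1 ?_
          by_cases hin : b.1 ∈ A₀ ∧ b.2 ∈ A₀
          · have := cI_insert_in hb hin
            omega
          · have := cI_insert_out hb hin
            omega
        · push Not at hex
          exact MWins.finish _ A hex
            ((hend A hpos (fun a ha => absurd ha (hex a)) (by omega)).2 hex)
  refine (main _ ∅ le_rfl ?_).1 ?_
  · intro a ha
    simp at ha
  · simp [cO, cI]

end Pool.Agent.TT2
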