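import Pool.Agent.TT2.Defs
/-!
# Project TT2, module L (lists, chains and copies)
-/

namespace Pool.Agent.TT2

open Finset
open Pool.Agent.helper11.OG (Free HasCopy)

theorem hasCopy_of_list {n k : ℕ} (A : Finset (Fin n × Fin n)) (hirr : ∀ a, (a, a) ∉ A)
    (l : List (Fin n)) (hl : l.Pairwise (fun a b => (a, b) ∈ A)) (hk : k ≤ l.length) :
    HasCopy (TTk k) A := by
  have key : ∀ i j : Fin k, i < j → (l.get ⟨i, by omega⟩, l.get ⟨j, by omega⟩) ∈ A := by
    intro i j hij
    exact List.pairwise_iff_get.1 hl ⟨i, by omega⟩ ⟨j, by omega⟩ (by simpa using hij)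
  refine ⟨fun i => l.get ⟨i, by omega⟩, ?_, ?_⟩
  · intro i j hij
    by_contra hne
    rcases lt_or_gt_of_ne hne with h | h
    · have := key i j h
      simp only [] at hij
      rw [hij] at this
      exact hirr _ this
    · have := key j i h
      simp only [] at hij
      rw [hij] at this
      exact hirr _ this
  · intro i j hij
    exact key i j hij

theorem hasCopy_mono {n k : ℕ} {T : Fin k → Fin k → Prop} {A B : Finset (Fin n × Fin n)} (h : A ⊆ B)
    (hA : HasCopy T A) : HasCopy T B := by
  obtain ⟨c, hc, hcA⟩ := hA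
  exact ⟨c, hc, fun i j hij => h (hcA i j hij)⟩

/-- Erdős–Moser. -/
theorem hasChain_of_card {V : Type*} [DecidableEq V] (R : V → V → Prop) (t : ℕ) :
    ∀ D : Finset V, (∀ a ∈ D, ∀ b ∈ D, a ≠ b → R a b ∨ R b a) → 2 ^ t ≤ D.card → HasChain R D t := by
  classical
  induction t with
  | zero => intro D _ _; exact ⟨[], rfl, List.Pairwise.nil, by simp⟩
  | succ t ih =>
    intro D htot hD
    have hpos : 0 < D.card := lt_of_lt_of_le (by positivity) hD
    obtain ⟨x, hx⟩ := card_pos.1 hpos
    set O := (D.erase x).filter (R x) with hO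
    set N := (D.erase x).filter (fun y => ¬ R x y) with hN
    have hsum : O.card + N.card = D.card - 1 := by
      rw [hO, hN, card_filter_add_card_filter_not, card_erase_of_mem hx]
    have hpow : 2 ^ (t + 1) = 2 * 2 ^ t := by ring
    by_cases h : 2 ^ t ≤ O.card
    · obtain ⟨l, hl1, hl2, hl3⟩ := ih O (fun a ha b hb hab =>
        htot a (mem_of_mem_erase (mem_filter.1 ha).1) b (mem_of_mem_erase (mem_filter.1 hb).1) hab) h
      refine ⟨x :: l, by simp [hl1], ?_, ?_⟩
      · rw [List.pairwise_cons]
        exact ⟨fun y hy => (mem_filter.1 (hl3 y hy)).2, hl2⟩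
      · intro y hy
        rcases List.mem_cons.1 hy with rfl | hy
        · exact hx
        · exact mem_of_mem_erase (mem_filter.1 (hl3 y hy)).1
    · have h' : 2 ^ t ≤ N.card := by omega
      obtain ⟨l, hl1, hl2, hl3⟩ := ih N (fun a ha b hb hab =>
        htot a (mem_of_mem_erase (mem_filter.1 ha).1) b (mem_of_mem_erase (mem_filter.1 hb).1) hab) h'
      refine ⟨l ++ [x], by simp [hl1], ?_, ?_⟩
      · rw [List.pairwise_append]
        refine ⟨hl2, List.pairwise_singleton _ _, ?_⟩
        intro y hy z hz
        rw [List.mem_singleton] at hz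
        subst hz
        have h1 := hl3 y hy
        rw [hN, mem_filter, mem_erase] at h1
        rcases htot y h1.1.2 z hx h1.1.1 with h2 | h2
        · exact h2
        · exact absurd h2 h1.2
      · intro y hy
        rcases List.mem_append.1 hy with hy | hy
        · exact mem_of_mem_erase (mem_filter.1 (hl3 y hy)).1
        · rw [List.mem_singleton] at hy; subst hy; exact hx

/-- The sorted list of `S` is pairwise forward. -/
theorem sort_pairwise {V : Type*} [LinearOrder V] (S : Finset V) :
    (S.sort (· ≤ ·)).Pairwise (fun a b => (a, b) ∈ prs S) := by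
  have h1 : (S.sort (· ≤ ·)).Pairwise (· < ·) := S.sortedLT_sort.pairwise
  refine List.Pairwise.imp_of_mem ?_ h1
  intro a b ha hb hab
  rw [Finset.mem_sort] at ha hb
  simp [prs, ha, hb, hab]

/-- vertex list of a chain of twins, in a transitive order -/
def twl {V : Type*} (R : V → V → Prop) [DecidableRel R] {r : ℕ} (f : Fin r → V × V) : List V :=
  (List.ofFn f).flatMap (fun p => if R p.1 p.2 then [p.1, p.2] else [p.2, p.1])

theorem length_twl {V : Type*} (R : V → V → Prop) [DecidableRel R] {r : ℕ} (f : Fin r → V × V) :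
    (twl R f).length = 2 * r := by
  rw [twl, List.length_flatMap]
  have : ∀ p : V × V, (if R p.1 p.2 then [p.1, p.2] else [p.2, p.1]).length = 2 := by
    intro p; split <;> rfl
  simp only [this]
  simp [List.sum_ofFn, mul_comm]

theorem mem_twl {V : Type*} (R : V → V → Prop) [DecidableRel R] {r : ℕ} (f : Fin r → V × V) (v : V) :
    v ∈ twl R f ↔ ∃ i, v = (f i).1 ∨ v = (f i).2 := by
  rw [twl, List.mem_flatMap]
  constructor
  · rintro ⟨p, hp, hv⟩
    rw [List.mem_ofFn] at hp
    obtain ⟨i, rfl⟩ := hp
    refine ⟨i, ?_⟩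
    split at hv <;> simp at hv <;> tauto
  · rintro ⟨i, hi⟩
    refine ⟨f i, by rw [List.mem_ofFn]; exact ⟨i, rfl⟩, ?_⟩
    split <;> simp <;> tauto

theorem pairwise_twl {V : Type*} (R : V → V → Prop) [DecidableRel R] {r : ℕ} (f : Fin r → V × V)
    (hf : ∀ i j, i < j → Tw R (f i) (f j)) (hin : ∀ i, R (f i).1 (f i).2 ∨ R (f i).2 (f i).1) :
    (twl R f).Pairwise R := by
  rw [twl, List.pairwise_flatMap]
  constructor
  · intro p hp
    rw [List.mem_ofFn] at hp
    obtain ⟨i, rfl⟩ := hp
    split
    · simpa
    · rcases hin i with h | h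
      · contradiction
      · simpa
  · rw [List.pairwise_ofFn]
    intro i j hij x hx y hy
    obtain ⟨h1, h2, h3, h4⟩ := hf i j hij
    split at hx <;> split at hy <;> simp at hx hy <;>
      rcases hx with rfl | rfl <;> rcases hy with rfl | rfl <;> assumption

/-- the arc between `v` and `z`, from `v` to `z` if `dir = true` -/
def arc {n : ℕ} (A : Finset (Fin n × Fin n)) (dir : Bool) (v z : Fin n) : Prop :=
  if dir then (v, z) ∈ A else (z, v) ∈ A

/-- Glue a chain of vertices outside and the sorted list of `S`. -/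
theorem hasCopy_glue {n k : ℕ} (A X : Finset (Fin n × Fin n)) (dir : Bool) (l : List (Fin n))
    (S : Finset (Fin n)) (hA : ∀ a, (a, a) ∉ A) (hl : l.Pairwise (fun a b => (a, b) ∈ A))
    (harc : ∀ v ∈ l, ∀ z ∈ S, arc A dir v z) (hS : prs S ⊆ X) (hk : k ≤ l.length + S.card) :
    HasCopy (TTk k) (A ∪ X) := by
  have hirr : ∀ a, (a, a) ∉ A ∪ prs S := by
    intro a ha
    rcases mem_union.1 ha with h | h
    · exact hA a h
    · simp [prs] at h
  refine hasCopy_mono (A := A ∪ prs S) (union_subset_union_right hS) ?_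
  have h1 : l.Pairwise (fun a b => (a, b) ∈ A ∪ prs S) :=
    hl.imp (fun h => mem_union_left _ h)
  have h2 : (S.sort (· ≤ ·)).Pairwise (fun a b => (a, b) ∈ A ∪ prs S) :=
    (sort_pairwise S).imp (fun h => mem_union_right _ h)
  cases dir with
  | true =>
    refine hasCopy_of_list _ hirr (l ++ S.sort (· ≤ ·)) ?_ (by simpa using hk)
    rw [List.pairwise_append]
    refine ⟨h1, h2, ?_⟩
    intro v hv z hz
    rw [Finset.mem_sort] at hz
    have := harc v hv z hz
    simp only [arc, if_true] at this
    exact mem_union_left _ this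
  | false =>
    refine hasCopy_of_list _ hirr (S.sort (· ≤ ·) ++ l) ?_ (by simpa [add_comm] using hk)
    rw [List.pairwise_append]
    refine ⟨h2, h1, ?_⟩
    intro z hz v hv
    rw [Finset.mem_sort] at hz
    have := harc v hv z hz
    simp only [arc] at this
    exact mem_union_left _ (by simpa using this)

theorem MBWin.mono {E : Type*} [DecidableEq E] {W W' : Finset E → Prop} (h : ∀ X, W X → W' X)
    {F X : Finset E} (hF : MBWin W F X) : MBWin W' F X := by
  induction hF with
  | win F X hX => exact MBWin.win F X (h X hX)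
  | move F X e he hlast _ ih => exact MBWin.move F X e he (fun h' => h _ (hlast h')) ih

end Pool.Agent.TT2
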