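import Pool.Agent.TT2.Defs

/-!
# Project TT2, module M (Maker criterion) (see /team-store/7dd320_TT.md)
-/

namespace Pool.Agent.TT2

open Finset
open Pool.Agent.helper11.OG (Free HasCopy)

section MM
variable {E κ : Type*} [DecidableEq E]

/-- weight of one set in the position `(F, X)` -/
private noncomputable def mt (H : κ → Finset E) (w : κ → ℝ) (F X : Finset E) (k : κ) : ℝ :=
  if H k ⊆ F ∪ X then w k * (1 / 2 : ℝ) ^ (H k \ X).card else 0

private def mU (H : κ → Finset E) (p : κ × κ × κ × κ) : Finset E :=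
  H p.1 ∪ H p.2.1 ∪ H p.2.2.1 ∪ H p.2.2.2

private def mI (H : κ → Finset E) (p : κ × κ × κ × κ) : Finset E :=
  H p.1 ∩ H p.2.1 ∩ H p.2.2.1 ∩ H p.2.2.2

private noncomputable def mW (w : κ → ℝ) (p : κ × κ × κ × κ) : ℝ :=
  w p.1 * w p.2.1 * w p.2.2.1 * w p.2.2.2

/-- weight of a 4-tuple in the position `(F, X)` -/
private noncomputable def mq (H : κ → Finset E) (w : κ → ℝ) (F X : Finset E)
    (p : κ × κ × κ × κ) : ℝ :=
  if mU H p ⊆ F ∪ X ∧ 2 ≤ (mI H p \ X).card then mW w p * (1 / 2 : ℝ) ^ (mU H p \ X).card else 0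

private theorem m_sub {F X A : Finset E} (hd : Disjoint F X) {e f : E} (he : e ∈ F)
    (hf : f ∈ F.erase e) :
    A ⊆ (F.erase e).erase f ∪ insert e X ↔ A ⊆ F ∪ X ∧ f ∉ A := by
  have hfe : f ≠ e := (Finset.mem_erase.1 hf).1
  have hfF : f ∈ F := (Finset.mem_erase.1 hf).2
  have hfX : f ∉ X := fun h => (Finset.disjoint_left.1 hd hfF) h
  constructor
  · intro h
    constructor
    · intro x hx
      have := h hx
      rw [Finset.mem_union, Finset.mem_erase, Finset.mem_erase, Finset.mem_insert] at this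
      rw [Finset.mem_union]
      rcases this with h1 | h1 | h1
      · exact Or.inl h1.2.2
      · rw [h1]; exact Or.inl he
      · exact Or.inr h1
    · intro hfA
      have := h hfA
      rw [Finset.mem_union, Finset.mem_erase, Finset.mem_insert] at this
      rcases this with h1 | h1 | h1
      · exact h1.1 rfl
      · exact hfe h1
      · exact hfX h1
  · rintro ⟨h1, h2⟩ x hx
    have h3 : x ≠ f := fun h => h2 (h ▸ hx)
    have h4 := h1 hx
    rw [Finset.mem_union] at h4
    rw [Finset.mem_union, Finset.mem_erase, Finset.mem_erase, Finset.mem_insert]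
    by_cases h5 : x = e
    · exact Or.inr (Or.inl h5)
    · rcases h4 with h4 | h4
      · exact Or.inl ⟨h3, h5, h4⟩
      · exact Or.inr (Or.inr h4)

private theorem m_card_in {F X A : Finset E} (hd : Disjoint F X) {e : E} (he : e ∈ F)
    (heA : e ∈ A) : (A \ insert e X).card + 1 = (A \ X).card := by
  have heX : e ∉ X := fun h => (Finset.disjoint_left.1 hd he) h
  rw [Finset.sdiff_insert]
  exact Finset.card_erase_add_one (Finset.mem_sdiff.2 ⟨heA, heX⟩)

private theorem m_card_out {X A : Finset E} {e : E} (heA : e ∉ A) :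
    A \ insert e X = A \ X := by
  rw [Finset.sdiff_insert]
  exact Finset.erase_eq_of_notMem fun h => heA (Finset.mem_sdiff.1 h).1

private theorem m_pow_in {F X A : Finset E} (hd : Disjoint F X) {e : E} (he : e ∈ F)
    (heA : e ∈ A) :
    (1 / 2 : ℝ) ^ (A \ insert e X).card = 2 * (1 / 2 : ℝ) ^ (A \ X).card := by
  rw [← m_card_in hd he heA, pow_succ]
  ring

private theorem mt_nonneg {H : κ → Finset E} {w : κ → ℝ} {F X : Finset E} {k : κ}
    (hw : 0 ≤ w k) : 0 ≤ mt H w F X k := by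
  unfold mt
  split_ifs
  · positivity
  · exact le_rfl

private theorem mq_nonneg {H : κ → Finset E} {w : κ → ℝ} {F X : Finset E} {p : κ × κ × κ × κ}
    (hw : 0 ≤ mW w p) : 0 ≤ mq H w F X p := by
  unfold mq
  split_ifs
  · positivity
  · exact le_rfl

private theorem mt_step {H : κ → Finset E} {w : κ → ℝ} {F X : Finset E} (hd : Disjoint F X)
    {e f : E} (he : e ∈ F) (hf : f ∈ F.erase e) (k : κ) :
    mt H w ((F.erase e).erase f) (insert e X) k =
      mt H w F X k + (if e ∈ H k then mt H w F X k else 0) - (if f ∈ H k then mt H w F X k else 0)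
        - (if e ∈ H k ∧ f ∈ H k then mt H w F X k else 0) := by
  have hs := m_sub (A := H k) hd he hf
  by_cases h1 : H k ⊆ F ∪ X
  · by_cases h2 : f ∈ H k
    · have h3 : ¬ H k ⊆ (F.erase e).erase f ∪ insert e X := fun h => (hs.1 h).2 h2
      by_cases h4 : e ∈ H k
      · unfold mt
        rw [if_neg h3, if_pos h1, if_pos h4, if_pos h2, if_pos ⟨h4, h2⟩]
        ring
      · unfold mt
        rw [if_neg h3, if_pos h1, if_neg h4, if_pos h2, if_neg fun h => h4 h.1]
        ring
    · have h3 : H k ⊆ (F.erase e).erase f ∪ insert e X := hs.2 ⟨h1, h2⟩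
      by_cases h4 : e ∈ H k
      · unfold mt
        rw [if_pos h3, if_pos h1, if_pos h4, if_neg h2, if_neg fun h => h2 h.2,
          m_pow_in hd he h4]
        ring
      · unfold mt
        rw [if_pos h3, if_pos h1, if_neg h4, if_neg h2, if_neg fun h => h2 h.2, m_card_out h4]
        ring
  · have h3 : ¬ H k ⊆ (F.erase e).erase f ∪ insert e X := fun h => h1 (hs.1 h).1
    unfold mt
    rw [if_neg h3, if_neg h1]
    simp

private theorem mq_step {H : κ → Finset E} {w : κ → ℝ} {F X : Finset E} (hd : Disjoint F X)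
    {e f : E} (he : e ∈ F) (hf : f ∈ F.erase e) {p : κ × κ × κ × κ} (hw : 0 ≤ mW w p) :
    mq H w ((F.erase e).erase f) (insert e X) p ≤
      mq H w F X p + (if e ∈ mU H p then mq H w F X p else 0)
        - (if f ∈ mU H p then mq H w F X p else 0) := by
  have hs := m_sub (A := mU H p) hd he hf
  have h0 := mq_nonneg (H := H) (F := F) (X := X) hw
  by_cases h1 : mU H p ⊆ (F.erase e).erase f ∪ insert e X ∧ 2 ≤ (mI H p \ insert e X).card
  · have h2 := hs.1 h1.1
    have h3 : 2 ≤ (mI H p \ X).card := h1.2.trans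
      (Finset.card_le_card (Finset.sdiff_subset_sdiff le_rfl (Finset.subset_insert e X)))
    have e1 : mq H w F X p = mW w p * (1 / 2 : ℝ) ^ (mU H p \ X).card := by
      unfold mq
      rw [if_pos ⟨h2.1, h3⟩]
    have e2 : mq H w ((F.erase e).erase f) (insert e X) p =
        mW w p * (1 / 2 : ℝ) ^ (mU H p \ insert e X).card := by
      unfold mq
      rw [if_pos h1]
    rw [if_neg h2.2, e1, e2]
    by_cases h4 : e ∈ mU H p
    · rw [if_pos h4, m_pow_in hd he h4]
      apply le_of_eq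
      ring
    · rw [if_neg h4, m_card_out h4]
      apply le_of_eq
      ring
  · have e2 : mq H w ((F.erase e).erase f) (insert e X) p = 0 := by
      unfold mq
      rw [if_neg h1]
    rw [e2]
    split_ifs <;> linarith

private theorem m_fourth {H : κ → Finset E} {w : κ → ℝ} {J : Finset κ} (hw : ∀ k ∈ J, 0 ≤ w k)
    {F X : Finset E} (hd : Disjoint F X) {e f : E} (he : e ∈ F) (hf : f ∈ F.erase e) :
    (∑ k ∈ J, if e ∈ H k ∧ f ∈ H k then mt H w F X k else 0) ^ 4 ≤
      ∑ p ∈ J ×ˢ J ×ˢ J ×ˢ J, mq H w F X p := by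
  classical
  have hfe : f ≠ e := (Finset.mem_erase.1 hf).1
  have hfF : f ∈ F := (Finset.mem_erase.1 hf).2
  have hfX : f ∉ X := fun h => (Finset.disjoint_left.1 hd hfF) h
  have heX : e ∉ X := fun h => (Finset.disjoint_left.1 hd he) h
  set s : κ → ℝ := fun k => if e ∈ H k ∧ f ∈ H k then mt H w F X k else 0 with hs
  have e1 : (∑ k ∈ J, s k) ^ 4 =
      ∑ p ∈ J ×ˢ J ×ˢ J ×ˢ J, s p.1 * (s p.2.1 * (s p.2.2.1 * s p.2.2.2)) := by
    rw [Finset.sum_product]
    have e2 : ∀ a ∈ J, ∑ y ∈ J ×ˢ J ×ˢ J, s (a, y).1 * (s (a, y).2.1 * (s (a, y).2.2.1 * s (a, y).2.2.2))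
        = s a * ((∑ k ∈ J, s k) * ((∑ k ∈ J, s k) * (∑ k ∈ J, s k))) := by
      intro a _
      show ∑ y ∈ J ×ˢ J ×ˢ J, s a * (s y.1 * (s y.2.1 * s y.2.2)) = _
      rw [← mul_sum]
      congr 1
      rw [Finset.sum_product, Finset.sum_mul]
      refine sum_congr rfl fun b _ => ?_
      show ∑ y ∈ J ×ˢ J, s b * (s y.1 * s y.2) = _
      rw [← mul_sum]
      congr 1
      rw [Finset.sum_product, Finset.sum_mul]
      refine sum_congr rfl fun c _ => ?_
      show ∑ y ∈ J, s c * s y = _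
      rw [← mul_sum]
    rw [sum_congr rfl e2, ← sum_mul]
    ring
  rw [e1]
  refine sum_le_sum fun p hp => ?_
  rw [Finset.mem_product, Finset.mem_product, Finset.mem_product] at hp
  obtain ⟨ha, hb, hc, hdd⟩ := hp
  have hWn : 0 ≤ mW w p := by
    unfold mW
    have := hw _ ha
    have := hw _ hb
    have := hw _ hc
    have := hw _ hdd
    positivity
  have hq0 := mq_nonneg (H := H) (F := F) (X := X) hWn
  have hne : ∀ k, s k ≠ 0 → (e ∈ H k ∧ f ∈ H k) ∧ H k ⊆ F ∪ X ∧
      s k = w k * (1 / 2 : ℝ) ^ (H k \ X).card := by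
    intro k hk
    have h1 : e ∈ H k ∧ f ∈ H k := by
      by_contra h
      exact hk (by rw [hs]; simp only; rw [if_neg h])
    have h2 : H k ⊆ F ∪ X := by
      by_contra h
      exact hk (by rw [hs]; simp only; rw [if_pos h1]; unfold mt; rw [if_neg h])
    refine ⟨h1, h2, ?_⟩
    rw [hs]
    simp only
    rw [if_pos h1]
    unfold mt
    rw [if_pos h2]
  by_cases z1 : s p.1 = 0
  · rw [z1, zero_mul]; exact hq0
  by_cases z2 : s p.2.1 = 0
  · rw [z2, zero_mul, mul_zero]; exact hq0
  by_cases z3 : s p.2.2.1 = 0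
  · rw [z3, zero_mul, mul_zero, mul_zero]; exact hq0
  by_cases z4 : s p.2.2.2 = 0
  · rw [z4, mul_zero, mul_zero, mul_zero]; exact hq0
  obtain ⟨a1, a2, a3⟩ := hne _ z1
  obtain ⟨b1, b2, b3⟩ := hne _ z2
  obtain ⟨c1, c2, c3⟩ := hne _ z3
  obtain ⟨d1, d2, d3⟩ := hne _ z4
  have hU : mU H p ⊆ F ∪ X := by
    unfold mU
    exact Finset.union_subset (Finset.union_subset (Finset.union_subset a2 b2) c2) d2
  have hI : 2 ≤ (mI H p \ X).card := by
    have h1 : ({e, f} : Finset E) ⊆ mI H p \ X := by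
      intro x hx
      rw [Finset.mem_insert, Finset.mem_singleton] at hx
      rw [Finset.mem_sdiff]
      unfold mI
      rw [Finset.mem_inter, Finset.mem_inter, Finset.mem_inter]
      rcases hx with hx | hx
      · rw [hx]
        exact ⟨⟨⟨⟨a1.1, b1.1⟩, c1.1⟩, d1.1⟩, heX⟩
      · rw [hx]
        exact ⟨⟨⟨⟨a1.2, b1.2⟩, c1.2⟩, d1.2⟩, hfX⟩
    have h2 := Finset.card_le_card h1
    rw [Finset.card_pair hfe.symm] at h2
    exact h2
  have e3 : mq H w F X p = mW w p * (1 / 2 : ℝ) ^ (mU H p \ X).card := by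
    unfold mq
    rw [if_pos ⟨hU, hI⟩]
  rw [e3, a3, b3, c3, d3]
  have hcard : (mU H p \ X).card ≤
      (H p.1 \ X).card + ((H p.2.1 \ X).card + ((H p.2.2.1 \ X).card + (H p.2.2.2 \ X).card)) := by
    unfold mU
    rw [Finset.union_sdiff_distrib, Finset.union_sdiff_distrib, Finset.union_sdiff_distrib]
    have u1 := Finset.card_union_le (H p.1 \ X ∪ H p.2.1 \ X ∪ H p.2.2.1 \ X) (H p.2.2.2 \ X)
    have u2 := Finset.card_union_le (H p.1 \ X ∪ H p.2.1 \ X) (H p.2.2.1 \ X)
    have u3 := Finset.card_union_le (H p.1 \ X) (H p.2.1 \ X)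
    omega
  have hpow : (1 / 2 : ℝ) ^ ((H p.1 \ X).card + ((H p.2.1 \ X).card + ((H p.2.2.1 \ X).card +
      (H p.2.2.2 \ X).card))) ≤ (1 / 2 : ℝ) ^ (mU H p \ X).card :=
    pow_le_pow_of_le_one (by norm_num) (by norm_num) hcard
  calc w p.1 * (1 / 2 : ℝ) ^ (H p.1 \ X).card * (w p.2.1 * (1 / 2 : ℝ) ^ (H p.2.1 \ X).card *
        (w p.2.2.1 * (1 / 2 : ℝ) ^ (H p.2.2.1 \ X).card *
          (w p.2.2.2 * (1 / 2 : ℝ) ^ (H p.2.2.2 \ X).card)))
      = mW w p * (1 / 2 : ℝ) ^ ((H p.1 \ X).card + ((H p.2.1 \ X).card + ((H p.2.2.1 \ X).card +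
      (H p.2.2.2 \ X).card))) := by
        unfold mW
        rw [pow_add, pow_add, pow_add]
        ring
    _ ≤ mW w p * (1 / 2 : ℝ) ^ (mU H p \ X).card := mul_le_mul_of_nonneg_left hpow hWn

private theorem m_exists_alive {H : κ → Finset E} {w : κ → ℝ} {J : Finset κ} {F X : Finset E}
    (h : 0 < ∑ k ∈ J, mt H w F X k) : ∃ k ∈ J, H k ⊆ F ∪ X := by
  by_contra hcon
  push Not at hcon
  have : ∑ k ∈ J, mt H w F X k = 0 := by
    refine sum_eq_zero fun k hk => ?_
    unfold mt
    rw [if_neg (hcon k hk)]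
  linarith

private theorem m_main (J : Finset κ) (H : κ → Finset E) (w : κ → ℝ) (hw : ∀ k ∈ J, 0 ≤ w k)
    {lam ε : ℝ} (hε : 0 < ε) (hlam0 : 0 < lam) (hlam : lam * ε ^ 4 = 2) :
    ∀ (n : ℕ) (F X : Finset E) (ω : ℝ), F.card = n → Disjoint F X → 0 < ω →
      ε * F.card ≤ 1 → ω * ∑ k ∈ J, mt H w F X k ≤ 2 →
      ε * F.card / 2 < ω * ∑ k ∈ J, mt H w F X k -
        lam * ω ^ 4 * ∑ p ∈ J ×ˢ J ×ˢ J ×ˢ J, mq H w F X p →
      MBWin (fun X => ∃ k ∈ J, H k ⊆ X) F X := by
  classical
  intro n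
  induction n using Nat.strong_induction_on with
  | _ n ih =>
  intro F X ω hn hd hω hεF hT2 hmain
  have hmW : ∀ p ∈ J ×ˢ J ×ˢ J ×ˢ J, 0 ≤ mW w p := by
    intro p hp
    rw [Finset.mem_product, Finset.mem_product, Finset.mem_product] at hp
    obtain ⟨ha, hb, hc, hdd⟩ := hp
    unfold mW
    have := hw _ ha
    have := hw _ hb
    have := hw _ hc
    have := hw _ hdd
    positivity
  have hQ0 : ∀ F X : Finset E, 0 ≤ ∑ p ∈ J ×ˢ J ×ˢ J ×ˢ J, mq H w F X p := fun F X =>
    sum_nonneg fun p hp => mq_nonneg (hmW p hp)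
  have hT0 : ∀ F X : Finset E, 0 ≤ ∑ k ∈ J, mt H w F X k := fun F X =>
    sum_nonneg fun k hk => mt_nonneg (hw k hk)
  have hTpos : 0 < ∑ k ∈ J, mt H w F X k := by
    have h1 : 0 ≤ lam * ω ^ 4 * ∑ p ∈ J ×ˢ J ×ˢ J ×ˢ J, mq H w F X p :=
      mul_nonneg (by positivity) (hQ0 F X)
    have h2 : 0 ≤ ε * F.card / 2 := by positivity
    have h3 : 0 < ω * ∑ k ∈ J, mt H w F X k := by linarith
    exact (pos_iff_pos_of_mul_pos h3).1 hω
  rcases F.eq_empty_or_nonempty with hF | hF
  · apply MBWin.win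
    obtain ⟨k, hk, hk2⟩ := m_exists_alive hTpos
    refine ⟨k, hk, ?_⟩
    rw [hF, Finset.empty_union] at hk2
    exact hk2
  · -- Maker's choice
    set Te : E → ℝ := fun e => ∑ k ∈ J, if e ∈ H k then mt H w F X k else 0 with hTe
    set Qe : E → ℝ := fun e => ∑ p ∈ J ×ˢ J ×ˢ J ×ˢ J, if e ∈ mU H p then mq H w F X p else 0
      with hQe
    obtain ⟨e, he, hmax⟩ := Finset.exists_max_image F
      (fun e => ω * Te e - lam * ω ^ 4 * Qe e) hF
    refine MBWin.move F X e he ?_ ?_
    · intro hlast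
      obtain ⟨k, hk, hk2⟩ := m_exists_alive hTpos
      refine ⟨k, hk, hk2.trans ?_⟩
      intro x hx
      rw [Finset.mem_union] at hx
      rw [Finset.mem_insert]
      rcases hx with hx | hx
      · by_cases h : x = e
        · exact Or.inl h
        · have : x ∈ F.erase e := Finset.mem_erase.2 ⟨h, hx⟩
          rw [hlast] at this
          exact absurd this (Finset.notMem_empty x)
      · exact Or.inr hx
    · intro f hf
      have hfF : f ∈ F := (Finset.mem_erase.1 hf).2
      have hfe : f ≠ e := (Finset.mem_erase.1 hf).1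
      have hfX : f ∉ X := fun h => (Finset.disjoint_left.1 hd hfF) h
      have heX : e ∉ X := fun h => (Finset.disjoint_left.1 hd he) h
      have hcard : ((F.erase e).erase f).card + 2 = F.card := by
        have h1 := Finset.card_erase_add_one he
        have h2 := Finset.card_erase_add_one hf
        omega
      have hcardR : (F.card : ℝ) = (((F.erase e).erase f).card : ℝ) + 2 := by
        rw [← hcard]; push_cast; rfl
      have hd' : Disjoint ((F.erase e).erase f) (insert e X) := by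
        rw [Finset.disjoint_left]
        intro x hx hx2
        rw [Finset.mem_erase, Finset.mem_erase] at hx
        rw [Finset.mem_insert] at hx2
        rcases hx2 with h | h
        · exact hx.2.1 h
        · exact (Finset.disjoint_left.1 hd hx.2.2) h
      set T := ∑ k ∈ J, mt H w F X k with hTdef
      set Q := ∑ p ∈ J ×ˢ J ×ˢ J ×ˢ J, mq H w F X p with hQdef
      set T' := ∑ k ∈ J, mt H w ((F.erase e).erase f) (insert e X) k with hT'def
      set Q' := ∑ p ∈ J ×ˢ J ×ˢ J ×ˢ J, mq H w ((F.erase e).erase f) (insert e X) p with hQ'def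
      set Tef := ∑ k ∈ J, (if e ∈ H k ∧ f ∈ H k then mt H w F X k else 0) with hTefdef
      have hT' : T' = T + Te e - Te f - Tef := by
        rw [hT'def, sum_congr rfl fun k _ => mt_step hd he hf k, sum_sub_distrib,
          sum_sub_distrib, sum_add_distrib]
      have hQ' : Q' ≤ Q + Qe e - Qe f := by
        rw [hQ'def]
        refine (sum_le_sum fun p hp => mq_step hd he hf (hmW p hp)).trans (le_of_eq ?_)
        rw [sum_sub_distrib, sum_add_distrib]
      have h4 : Tef ^ 4 ≤ Q := m_fourth hw hd he hf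
      have hTef0 : 0 ≤ Tef := sum_nonneg fun k hk => by
        split_ifs
        · exact mt_nonneg (hw k hk)
        · exact le_rfl
      have hQpos := hQ0 F X
      have hgef : ω * Te f - lam * ω ^ 4 * Qe f ≤ ω * Te e - lam * ω ^ 4 * Qe e := hmax f hfF
      have hlamω : 0 < lam * ω ^ 4 := by positivity
      -- the loss
      have hloss : ω * Tef ≤ ε := by
        have h5 : (ω * Tef) ^ 4 ≤ ε ^ 4 := by
          have h6 : lam * (ω * Tef) ^ 4 ≤ lam * ε ^ 4 := by
            rw [hlam]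
            calc lam * (ω * Tef) ^ 4 = lam * ω ^ 4 * Tef ^ 4 := by ring
              _ ≤ lam * ω ^ 4 * Q := mul_le_mul_of_nonneg_left h4 hlamω.le
              _ ≤ ω * T := by
                have h2 : 0 ≤ ε * F.card / 2 := by positivity
                linarith
              _ ≤ 2 := hT2
          exact le_of_mul_le_mul_left h6 hlam0
        exact (pow_le_pow_iff_left₀ (by positivity) hε.le (by norm_num)).1 h5
      have hstep : ε * ((F.erase e).erase f).card / 2 < ω * T' - lam * ω ^ 4 * Q' := by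
        have h5 : lam * ω ^ 4 * Q' ≤ lam * ω ^ 4 * (Q + Qe e - Qe f) :=
          mul_le_mul_of_nonneg_left hQ' hlamω.le
        have h6 : ω * T' = ω * T + ω * Te e - ω * Te f - ω * Tef := by rw [hT']; ring
        have h7 : lam * ω ^ 4 * (Q + Qe e - Qe f) =
            lam * ω ^ 4 * Q + lam * ω ^ 4 * Qe e - lam * ω ^ 4 * Qe f := by ring
        rw [hcardR] at hmain
        have h8 : ε * ((((F.erase e).erase f).card : ℝ) + 2) / 2 =
            ε * ((F.erase e).erase f).card / 2 + ε := by ring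
        rw [h8] at hmain
        linarith
      have hεF' : ε * ((F.erase e).erase f).card ≤ 1 := by
        rw [hcardR] at hεF
        nlinarith
      have hlt : ((F.erase e).erase f).card < n := by omega
      by_cases hbig : ω * T' ≤ 2
      · exact ih _ hlt _ _ ω rfl hd' hω hεF' hbig hstep
      · push Not at hbig
        have hT'pos : 0 < T' := by
          have : 0 < ω * T' := by linarith
          exact (pos_iff_pos_of_mul_pos this).1 hω
        have hQ'0 : 0 ≤ Q' := hQ0 _ _
        refine ih _ hlt _ _ (1 / T') rfl hd' (by positivity) hεF' ?_ ?_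
        · rw [one_div, inv_mul_cancel₀ hT'pos.ne']
          norm_num
        · rw [one_div, inv_mul_cancel₀ hT'pos.ne']
          have h5 : lam * T'⁻¹ ^ 4 * Q' ≤ 1 / 8 := by
            set s := ω * T' with hsdef
            have hs8 : s ≤ s ^ 4 / 8 := by
              have h9 : 8 ≤ s ^ 3 := by
                have := pow_le_pow_left₀ (by norm_num : (0 : ℝ) ≤ 2) hbig.le 3
                norm_num at this
                exact this
              have h10 : s * 8 ≤ s * s ^ 3 := mul_le_mul_of_nonneg_left h9 (by linarith)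
              have h11 : s * s ^ 3 = s ^ 4 := by ring
              linarith
            have h6 : lam * ω ^ 4 * Q' ≤ s := by
              have h2 : 0 ≤ ε * ((F.erase e).erase f).card / 2 := by positivity
              linarith
            have h7 : lam * T'⁻¹ ^ 4 * Q' * s ^ 4 = lam * ω ^ 4 * Q' := by
              rw [hsdef]
              field_simp
            have hs4 : 0 < s ^ 4 := by
              have : 0 < s := by linarith
              positivity
            have h8 : lam * T'⁻¹ ^ 4 * Q' * s ^ 4 ≤ (1 / 8) * s ^ 4 := by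
              rw [h7]
              linarith
            exact le_of_mul_le_mul_right h8 hs4
          linarith

end MM

/-- M: Maker criterion with 4th moments -/
theorem maker_criterion {E κ : Type*} [DecidableEq E] (J : Finset κ) (H : κ → Finset E) (w : κ → ℝ)
    (hw : ∀ k ∈ J, 0 ≤ w k) (F : Finset E) (hH : ∀ k ∈ J, H k ⊆ F)
    (hc : 4 * (F.card : ℝ) ^ 4 *
        (∑ a ∈ J, ∑ b ∈ J, ∑ c ∈ J, ∑ d ∈ J,
          if 2 ≤ (H a ∩ H b ∩ H c ∩ H d).card then
            w a * w b * w c * w d * (1 / 2 : ℝ) ^ (H a ∪ H b ∪ H c ∪ H d).card else 0)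
      < (∑ k ∈ J, w k * (1 / 2 : ℝ) ^ (H k).card) ^ 4) :
    MBWin (fun X => ∃ k ∈ J, H k ⊆ X) F ∅ := by
  classical
  have eT : ∑ k ∈ J, mt H w F ∅ k = ∑ k ∈ J, w k * (1 / 2 : ℝ) ^ (H k).card := by
    refine sum_congr rfl fun k hk => ?_
    unfold mt
    rw [Finset.union_empty, if_pos (hH k hk), Finset.sdiff_empty]
  have eQ : ∑ p ∈ J ×ˢ J ×ˢ J ×ˢ J, mq H w F ∅ p =
      ∑ a ∈ J, ∑ b ∈ J, ∑ c ∈ J, ∑ d ∈ J,
          if 2 ≤ (H a ∩ H b ∩ H c ∩ H d).card then
            w a * w b * w c * w d * (1 / 2 : ℝ) ^ (H a ∪ H b ∪ H c ∪ H d).card else 0 := by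
    rw [Finset.sum_product]
    refine sum_congr rfl fun a ha => ?_
    rw [Finset.sum_product]
    refine sum_congr rfl fun b hb => ?_
    rw [Finset.sum_product]
    refine sum_congr rfl fun c hc => sum_congr rfl fun d hd => ?_
    have hU : H a ∪ H b ∪ H c ∪ H d ⊆ F :=
      Finset.union_subset (Finset.union_subset (Finset.union_subset (hH a ha) (hH b hb))
        (hH c hc)) (hH d hd)
    unfold mq mU mI mW
    simp only [Finset.union_empty, Finset.sdiff_empty]
    by_cases h : 2 ≤ (H a ∩ H b ∩ H c ∩ H d).card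
    · rw [if_pos ⟨hU, h⟩, if_pos h]
    · rw [if_neg fun h2 => h h2.2, if_neg h]
  rw [← eT, ← eQ] at hc
  set T := ∑ k ∈ J, mt H w F ∅ k with hTdef
  set Q := ∑ p ∈ J ×ˢ J ×ˢ J ×ˢ J, mq H w F ∅ p with hQdef
  have hT0 : 0 ≤ T := sum_nonneg fun k hk => mt_nonneg (hw k hk)
  have hQ0 : 0 ≤ Q := by
    refine sum_nonneg fun p hp => mq_nonneg ?_
    rw [Finset.mem_product, Finset.mem_product, Finset.mem_product] at hp
    obtain ⟨ha, hb, hc, hdd⟩ := hp
    unfold mW
    have := hw _ ha
    have := hw _ hb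
    have := hw _ hc
    have := hw _ hdd
    positivity
  have hTpos : 0 < T := by
    rcases hT0.eq_or_lt with h | h
    · exfalso
      rw [← h] at hc
      have : 0 ≤ 4 * (F.card : ℝ) ^ 4 * Q := by positivity
      norm_num at hc
      linarith
    · exact h
  rcases F.eq_empty_or_nonempty with hF | hF
  · apply MBWin.win
    obtain ⟨k, hk, hk2⟩ := m_exists_alive hTpos
    refine ⟨k, hk, ?_⟩
    rw [hF, Finset.empty_union] at hk2
    exact hk2
  · have hN : (0 : ℝ) < F.card := by exact_mod_cast Finset.card_pos.2 hF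
    set N : ℝ := (F.card : ℝ) with hNdef
    have h1 : 4 * Q / T ^ 4 < (N⁻¹) ^ 4 := by
      rw [div_lt_iff₀ (by positivity), inv_pow, ← div_eq_inv_mul, lt_div_iff₀ (by positivity)]
      linarith
    have h2 : Real.sqrt (Real.sqrt (4 * Q / T ^ 4)) < N⁻¹ := by
      rw [Real.sqrt_lt' (inv_pos.2 hN), Real.sqrt_lt' (by positivity)]
      calc 4 * Q / T ^ 4 < (N⁻¹) ^ 4 := h1
        _ = ((N⁻¹) ^ 2) ^ 2 := by ring
    obtain ⟨ε, hε1, hε2⟩ := exists_between h2
    have hε : 0 < ε := lt_of_le_of_lt (Real.sqrt_nonneg _) hε1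
    have h3 : 4 * Q / T ^ 4 < ε ^ 4 := by
      rw [Real.sqrt_lt' hε, Real.sqrt_lt' (by positivity)] at hε1
      calc 4 * Q / T ^ 4 < (ε ^ 2) ^ 2 := hε1
        _ = ε ^ 4 := by ring
    have hεN : ε * N < 1 := by
      have := mul_lt_mul_of_pos_right hε2 hN
      rwa [inv_mul_cancel₀ hN.ne'] at this
    rw [div_lt_iff₀ (by positivity)] at h3
    refine m_main J H w hw (lam := 2 / ε ^ 4) hε (by positivity) (by field_simp) F.card F ∅
      (1 / T) rfl (Finset.disjoint_empty_right F) (by positivity) hεN.le ?_ ?_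
    · rw [← hTdef, one_div, inv_mul_cancel₀ hTpos.ne']
      norm_num
    · rw [← hTdef, ← hQdef, ← hNdef, one_div, inv_mul_cancel₀ hTpos.ne']
      have h4 : 2 / ε ^ 4 * T⁻¹ ^ 4 * Q ≤ 1 / 2 := by
        have h5 : 2 / ε ^ 4 * T⁻¹ ^ 4 * Q = (4 * Q) / (2 * (ε ^ 4 * T ^ 4)) := by
          field_simp
          ring
        rw [h5, div_le_iff₀ (by positivity)]
        linarith
      linarith

end Pool.Agent.TT2
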