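import Pool.Agent.TT2.Mode
import Pool.Agent.TT2.Fam
import Pool.Agent.TT2.G
/-!
# Project TT2, module Main: assembly
-/

namespace Pool.Agent.TT2

open Finset
open Pool.Agent.helper11.OG (Free HasCopy)

instance {n : ℕ} (A : Finset (Fin n × Fin n)) (p : Fin n × Fin n) (z : Fin n) :
    Decidable (Untouched A p z) := by unfold Untouched; infer_instance

/-- The number of touched blocks is at most the number of arcs not inside `A₀`. -/
theorem bad_card {n : ℕ} (A₀ : Finset (Fin n)) (pos₁ : Finset (Fin n × Fin n))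
    (I : Finset (Fin n × Fin n)) (hVD : VDisj I) (hIA : ∀ p ∈ I, p.1 ∈ A₀ ∧ p.2 ∈ A₀) :
    ((I ×ˢ A₀ᶜ).filter (fun q : (Fin n × Fin n) × Fin n => ¬ Untouched pos₁ q.1 q.2)).card ≤
      (pos₁.filter (fun a => ¬ (a.1 ∈ A₀ ∧ a.2 ∈ A₀))).card := by
  classical
  rcases Nat.eq_zero_or_pos n with rfl | hn
  · have : (I ×ˢ A₀ᶜ).filter (fun q : (Fin 0 × Fin 0) × Fin 0 => ¬ Untouched pos₁ q.1 q.2) = ∅ := by
      ext q; exact q.2.elim0
    rw [this]; simp
  have : Nonempty (Fin n) := ⟨⟨0, hn⟩⟩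
  have hex : ∀ q ∈ (I ×ˢ A₀ᶜ).filter
      (fun q : (Fin n × Fin n) × Fin n => ¬ Untouched pos₁ q.1 q.2),
      ∃ v, (v = q.1.1 ∨ v = q.1.2) ∧ ∃ a ∈ pos₁, a = (v, q.2) ∨ a = (q.2, v) := by
    intro q hq
    rw [mem_filter, mem_product, mem_compl] at hq
    obtain ⟨⟨hq1, hq2⟩, hq3⟩ := hq
    by_contra hcon
    push Not at hcon
    apply hq3
    have hA := hIA q.1 hq1
    refine ⟨⟨?_, ?_, ?_⟩, ⟨?_, ?_, ?_⟩⟩
    · rintro h; exact hq2 (h ▸ hA.1)
    · intro h; exact (hcon _ (Or.inl rfl) _ h).1 rfl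
    · intro h; exact (hcon _ (Or.inl rfl) _ h).2 rfl
    · rintro h; exact hq2 (h ▸ hA.2)
    · intro h; exact (hcon _ (Or.inr rfl) _ h).1 rfl
    · intro h; exact (hcon _ (Or.inr rfl) _ h).2 rfl
  choose! v hv g hg1 hg2 using hex
  refine card_le_card_of_injOn g ?_ ?_
  · intro q hq
    have hq' := hq
    rw [mem_coe, mem_filter, mem_product, mem_compl] at hq
    rw [mem_coe, mem_filter]
    refine ⟨hg1 q hq', ?_⟩
    rcases hg2 q hq' with h | h <;> rw [h]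
    · exact fun hh => hq.1.2 hh.2
    · exact fun hh => hq.1.2 hh.1
  · intro q hq q' hq' heq
    have h1 := hv q hq
    have h1' := hv q' hq'
    have h2 := hg2 q hq
    have h2' := hg2 q' hq'
    rw [mem_coe, mem_filter, mem_product, mem_compl] at hq hq'
    have hvA : v q ∈ A₀ := by
      rcases h1 with h | h <;> rw [h]
      · exact (hIA _ hq.1.1).1
      · exact (hIA _ hq.1.1).2
    have hvA' : v q' ∈ A₀ := by
      rcases h1' with h | h <;> rw [h]
      · exact (hIA _ hq'.1.1).1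
      · exact (hIA _ hq'.1.1).2
    rw [heq] at h2
    have key : v q = v q' ∧ q.2 = q'.2 := by
      rcases h2 with h2 | h2 <;> rcases h2' with h2' | h2' <;> rw [h2'] at h2 <;>
        rw [Prod.mk.injEq] at h2
      · exact ⟨h2.1.symm, h2.2.symm⟩
      · exact absurd (h2.1 ▸ hvA) hq'.1.2
      · exact absurd (h2.1 ▸ hvA') hq.1.2
      · exact ⟨h2.2.symm, h2.1.symm⟩
    refine Prod.ext ?_ key.2
    have hvv := key.1
    rcases h1 with h | h <;> rcases h1' with h' | h' <;> rw [h, h'] at hvv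
    · exact hVD.1 _ hq.1.1 _ hq'.1.1 hvv
    · exact absurd hvv (hVD.2.2 _ hq.1.1 _ hq'.1.1)
    · exact absurd hvv.symm (hVD.2.2 _ hq'.1.1 _ hq.1.1)
    · exact hVD.2.1 _ hq.1.1 _ hq'.1.1 hvv

/-- Counting of the types: one of the four modes is dense. -/
theorem types_card {n : ℕ} (A₀ : Finset (Fin n)) (pos₁ pos₂ : Finset (Fin n × Fin n))
    (hpos₂ : IsPos pos₂) (I : Finset (Fin n × Fin n)) (N : ℕ) (hN : N = I.card * (A₀ᶜ : Finset (Fin n)).card)
    (htypes : ∀ p ∈ I, ∀ z ∉ A₀, Untouched pos₁ p z → OKtype pos₂ p z)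
    (hbad : 1000 * ((I ×ˢ A₀ᶜ).filter
      (fun q : (Fin n × Fin n) × Fin n => ¬ Untouched pos₁ q.1 q.2)).card ≤ N) :
    (42 * N ≤ 100 * ec (fun (p : Fin n × Fin n) z => (p.1, z) ∈ pos₂ ∧ (p.2, z) ∈ pos₂) I A₀ᶜ ∨
      42 * N ≤ 100 * ec (fun (p : Fin n × Fin n) z => (z, p.1) ∈ pos₂ ∧ (z, p.2) ∈ pos₂) I A₀ᶜ) ∨
    (57 * N ≤ 100 * ec (fun (p : Fin n × Fin n) z => (p.1, z) ∈ pos₂) I A₀ᶜ ∨
      57 * N ≤ 100 * ec (fun (p : Fin n × Fin n) z => (z, p.2) ∈ pos₂) I A₀ᶜ) := by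
  classical
  set P := I ×ˢ (A₀ᶜ : Finset (Fin n)) with hP
  have hPcard : P.card = N := by rw [hP, card_product, hN]
  set Bd := P.filter (fun q : (Fin n × Fin n) × Fin n => ¬ Untouched pos₁ q.1 q.2) with hBd
  set S1 := P.filter (fun q => (q.1.1, q.2) ∈ pos₂ ∧ (q.1.2, q.2) ∈ pos₂) with hS1
  set S2 := P.filter (fun q => (q.2, q.1.1) ∈ pos₂ ∧ (q.2, q.1.2) ∈ pos₂) with hS2
  set S3 := P.filter (fun q => (q.1.1, q.2) ∈ pos₂) with hS3
  set S4 := P.filter (fun q => (q.2, q.1.2) ∈ pos₂) with hS4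
  set Sm := P.filter (fun q => (q.1.1, q.2) ∈ pos₂ ∧ (q.2, q.1.2) ∈ pos₂) with hSm
  have e1 : ec (fun (p : Fin n × Fin n) z => (p.1, z) ∈ pos₂ ∧ (p.2, z) ∈ pos₂) I A₀ᶜ = S1.card := rfl
  have e2 : ec (fun (p : Fin n × Fin n) z => (z, p.1) ∈ pos₂ ∧ (z, p.2) ∈ pos₂) I A₀ᶜ = S2.card := rfl
  have e3 : ec (fun (p : Fin n × Fin n) z => (p.1, z) ∈ pos₂) I A₀ᶜ = S3.card := rfl
  have e4 : ec (fun (p : Fin n × Fin n) z => (z, p.2) ∈ pos₂) I A₀ᶜ = S4.card := rfl
  have hcover : P ⊆ Bd ∪ (S1 ∪ (S2 ∪ Sm)) := by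
    intro q hq
    by_cases hu : Untouched pos₁ q.1 q.2
    · have hq' := hq
      rw [hP, mem_product, mem_compl] at hq'
      rcases htypes q.1 hq'.1 q.2 hq'.2 hu with h | h | h
      · exact mem_union_right _ (mem_union_left _ (mem_filter.2 ⟨hq, h⟩))
      · exact mem_union_right _ (mem_union_right _ (mem_union_right _ (mem_filter.2 ⟨hq, h⟩)))
      · exact mem_union_right _ (mem_union_right _ (mem_union_left _ (mem_filter.2 ⟨hq, h⟩)))
    · exact mem_union_left _ (mem_filter.2 ⟨hq, hu⟩)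
  have h1 : N ≤ Bd.card + (S1.card + (S2.card + Sm.card)) := by
    rw [← hPcard]
    refine (card_le_card hcover).trans ((card_union_le _ _).trans ?_)
    gcongr
    refine (card_union_le _ _).trans ?_
    gcongr
    exact card_union_le _ _
  have hne : ∀ x y : Fin n, (x, y) ∈ pos₂ → (y, x) ∉ pos₂ := fun x y h => (hpos₂ _ h).2
  have h3 : S1.card + Sm.card ≤ S3.card := by
    rw [← card_union_of_disjoint]
    · refine card_le_card (union_subset ?_ ?_)
      · intro q hq; rw [hS1, mem_filter] at hq; exact mem_filter.2 ⟨hq.1, hq.2.1⟩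
      · intro q hq; rw [hSm, mem_filter] at hq; exact mem_filter.2 ⟨hq.1, hq.2.1⟩
    · rw [disjoint_left]
      intro q hq hq'
      rw [hS1, mem_filter] at hq
      rw [hSm, mem_filter] at hq'
      exact hne _ _ hq.2.2 hq'.2.2
  have h4 : S2.card + Sm.card ≤ S4.card := by
    rw [← card_union_of_disjoint]
    · refine card_le_card (union_subset ?_ ?_)
      · intro q hq; rw [hS2, mem_filter] at hq; exact mem_filter.2 ⟨hq.1, hq.2.2⟩
      · intro q hq; rw [hSm, mem_filter] at hq; exact mem_filter.2 ⟨hq.1, hq.2.2⟩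
    · rw [disjoint_left]
      intro q hq hq'
      rw [hS2, mem_filter] at hq
      rw [hSm, mem_filter] at hq'
      exact hne _ _ hq.2.1 hq'.2.1
  have hbad' : 1000 * Bd.card ≤ N := hbad
  rw [e1, e2, e3, e4]
  omega

theorem core {n k u : ℕ} (hu : 1000 ≤ u) (hn1 : 2 ^ (1000000000 * u) ≤ n)
    (hn2 : n < 2 ^ (1000000000 * (u + 1))) (hk : k ≤ 2000000007 * u) : OMakerWins (TTk k) n := by
  classical
  have hAn : 2 ^ (900000000 * u) ≤ (univ : Finset (Fin n)).card := by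
    rw [card_univ, Fintype.card_fin]
    exact le_trans (Nat.pow_le_pow_right (by norm_num) (by omega)) hn1
  obtain ⟨A₀, -, hA₀⟩ := exists_subset_card_eq hAn
  refine game_reduction A₀ ?_
  intro pos₁ hpos₁ hfree₁ hcount₁
  have hirr : ∀ a, ¬ ((a, a) ∈ pos₁) := fun a ha => (hpos₁ _ ha).1 rfl
  have htot : ∀ a ∈ A₀, ∀ b ∈ A₀, a ≠ b → (a, b) ∈ pos₁ ∨ (b, a) ∈ pos₁ := by
    intro a ha b hb hab
    by_contra hcon
    push Not at hcon
    exact hfree₁ (a, b) ⟨hab, hcon.1, hcon.2⟩ ⟨ha, hb⟩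
  by_cases hno : HasChain (fun a b => (a, b) ∈ pos₁) A₀ (2000000007 * u)
  · left
    obtain ⟨l, hl1, hl2, -⟩ := hno
    exact hasCopy_of_list pos₁ hirr l hl2 (hl1 ▸ hk)
  right
  obtain ⟨I, K, hVD, hIA, hI, hext, hKI, htc⟩ := family_aux (fun a b => (a, b) ∈ pos₁) A₀ rfl rfl rfl rfl
    rfl rfl rfl rfl hu hA₀ hirr htot hno
  refine ⟨I, hVD, hIA, ?_⟩
  intro pos₂ hpos₂ h12 hfree₂ hcount₂ htypes
  have hB₀ : 2 ^ (1000000000 * u - 1) ≤ (A₀ᶜ : Finset (Fin n)).card := by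
    rw [card_compl, Fintype.card_fin, hA₀]
    have e1 : ∀ m, 1 ≤ m → 2 ^ m = 2 * 2 ^ (m - 1) := by
      intro m hm
      rw [← pow_succ', Nat.sub_add_cancel hm]
    have e2 : 2 ^ (900000000 * u) ≤ 2 ^ (1000000000 * u - 1) :=
      Nat.pow_le_pow_right (by norm_num) (by omega)
    have e3 := e1 (1000000000 * u) (by omega)
    omega
  have hbad : 1000 * ((I ×ˢ A₀ᶜ).filter
      (fun q : (Fin n × Fin n) × Fin n => ¬ Untouched pos₁ q.1 q.2)).card ≤
      I.card * (A₀ᶜ : Finset (Fin n)).card := by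
    have e1 := (bad_card A₀ pos₁ I hVD hIA).trans hcount₁
    rw [hA₀, ← pow_mul] at e1
    calc _ ≤ 1000 * 2 ^ (900000000 * u * 2) := Nat.mul_le_mul_left _ e1
      _ ≤ 2 ^ 10 * 2 ^ (900000000 * u * 2) := Nat.mul_le_mul_right _ (by norm_num)
      _ = 2 ^ (10 + 900000000 * u * 2) := by rw [← pow_add]
      _ ≤ 2 ^ (870000000 * u + (1000000000 * u - 1)) := Nat.pow_le_pow_right (by norm_num) (by omega)
      _ = 2 ^ (870000000 * u) * 2 ^ (1000000000 * u - 1) := by rw [pow_add]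
      _ ≤ _ := Nat.mul_le_mul hI hB₀
  have hA : ∀ a ∈ A₀, ∀ b ∈ A₀, a ≠ b → (a, b) ∈ pos₂ ∨ (b, a) ∈ pos₂ := by
    intro a ha b hb hab
    exact (htot a ha b hb hab).imp (fun h => h12 h) (fun h => h12 h)
  have hch : ∀ f ∈ chains (Tw (fun a b => (a, b) ∈ pos₁)) (50 * u) I,
      (∀ i, f i ∈ I) ∧ ∀ i j, i < j → Tw (fun a b => (a, b) ∈ pos₁) (f i) (f j) := by
    intro f hf
    rw [chains, mem_filter, Fintype.mem_piFinset] at hf
    exact hf
  have hcl2 : ∀ f ∈ chains (Tw (fun a b => (a, b) ∈ pos₁)) (50 * u) I,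
      (twl (fun a b => (a, b) ∈ pos₁) f).length = 2 * (50 * u) ∧
      (twl (fun a b => (a, b) ∈ pos₁) f).Pairwise (fun a b => (a, b) ∈ pos₂) := by
    intro f hf
    refine ⟨length_twl _ f, ?_⟩
    refine (pairwise_twl _ f (hch f hf).2 ?_).imp (fun h => h12 h)
    intro i
    have := hIA (f i) ((hch f hf).1 i)
    exact htot _ this.1 _ this.2 (hVD.2.2 _ ((hch f hf).1 i) _ ((hch f hf).1 i))
  rcases types_card A₀ pos₁ pos₂ hpos₂ I _ rfl htypes hbad with (h | h) | (h | h)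
  · refine mode_win (h := 64) (ℓ := 2) hu hn1 hn2 hk (by norm_num) (by norm_num) (by norm_num) A₀ hA₀ pos₂
      hpos₂ hfree₂ hcount₂ (Tw (fun a b => (a, b) ∈ pos₁)) I K hI hext hKI htc (42 / 100) (by norm_num)
      (by norm_num) (by norm_num) (fun (p : Fin n × Fin n) z => (p.1, z) ∈ pos₂ ∧ (p.2, z) ∈ pos₂) ?_ true
      (twl (fun a b => (a, b) ∈ pos₁)) ?_ Prod.fst ?_ (fun p hp q hq hpq => hVD.1 p hp q hq hpq) hA
    · have h' : (42 : ℝ) * (I.card * (A₀ᶜ : Finset (Fin n)).card) ≤ 100 * ec (fun (p : Fin n × Fin n) z =>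
        (p.1, z) ∈ pos₂ ∧ (p.2, z) ∈ pos₂) I A₀ᶜ := by exact_mod_cast h
      linarith
    · intro f hf
      refine ⟨(hcl2 f hf).1, (hcl2 f hf).2, ?_⟩
      intro z hz v hv
      rw [mem_twl] at hv
      obtain ⟨i, rfl | rfl⟩ := hv
      · exact (hz i).1
      · exact (hz i).2
    · intro p hp
      exact ⟨(hIA p hp).1, fun z hz => hz.1⟩
  · refine mode_win (h := 64) (ℓ := 2) hu hn1 hn2 hk (by norm_num) (by norm_num) (by norm_num) A₀ hA₀ pos₂
      hpos₂ hfree₂ hcount₂ (Tw (fun a b => (a, b) ∈ pos₁)) I K hI hext hKI htc (42 / 100) (by norm_num)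
      (by norm_num) (by norm_num) (fun (p : Fin n × Fin n) z => (z, p.1) ∈ pos₂ ∧ (z, p.2) ∈ pos₂) ?_ false
      (twl (fun a b => (a, b) ∈ pos₁)) ?_ Prod.fst ?_ (fun p hp q hq hpq => hVD.1 p hp q hq hpq) hA
    · have h' : (42 : ℝ) * (I.card * (A₀ᶜ : Finset (Fin n)).card) ≤ 100 * ec (fun (p : Fin n × Fin n) z =>
        (z, p.1) ∈ pos₂ ∧ (z, p.2) ∈ pos₂) I A₀ᶜ := by exact_mod_cast h
      linarith
    · intro f hf
      refine ⟨(hcl2 f hf).1, (hcl2 f hf).2, ?_⟩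
      intro z hz v hv
      rw [mem_twl] at hv
      obtain ⟨i, rfl | rfl⟩ := hv
      · exact (hz i).1
      · exact (hz i).2
    · intro p hp
      exact ⟨(hIA p hp).1, fun z hz => hz.1⟩
  · refine mode_win (h := 42) (ℓ := 1) hu hn1 hn2 hk (by norm_num) (by norm_num) (by norm_num) A₀ hA₀ pos₂
      hpos₂ hfree₂ hcount₂ (Tw (fun a b => (a, b) ∈ pos₁)) I K hI hext hKI htc (57 / 100) (by norm_num)
      (by norm_num) (by norm_num) (fun (p : Fin n × Fin n) z => (p.1, z) ∈ pos₂) ?_ true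
      (fun f => List.ofFn (fun i => (f i).1)) ?_ Prod.fst ?_ (fun p hp q hq hpq => hVD.1 p hp q hq hpq) hA
    · have h' : (57 : ℝ) * (I.card * (A₀ᶜ : Finset (Fin n)).card) ≤ 100 * ec (fun (p : Fin n × Fin n) z =>
        (p.1, z) ∈ pos₂) I A₀ᶜ := by exact_mod_cast h
      linarith
    · intro f hf
      refine ⟨by simp, ?_, ?_⟩
      · rw [List.pairwise_ofFn]
        intro i j hij
        exact h12 ((hch f hf).2 i j hij).1
      · intro z hz v hv
        rw [List.mem_ofFn] at hv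
        obtain ⟨i, rfl⟩ := hv
        exact hz i
    · intro p hp
      exact ⟨(hIA p hp).1, fun z hz => hz⟩
  · refine mode_win (h := 42) (ℓ := 1) hu hn1 hn2 hk (by norm_num) (by norm_num) (by norm_num) A₀ hA₀ pos₂
      hpos₂ hfree₂ hcount₂ (Tw (fun a b => (a, b) ∈ pos₁)) I K hI hext hKI htc (57 / 100) (by norm_num)
      (by norm_num) (by norm_num) (fun (p : Fin n × Fin n) z => (z, p.2) ∈ pos₂) ?_ false
      (fun f => List.ofFn (fun i => (f i).2)) ?_ Prod.snd ?_ (fun p hp q hq hpq => hVD.2.1 p hp q hq hpq) hA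
    · have h' : (57 : ℝ) * (I.card * (A₀ᶜ : Finset (Fin n)).card) ≤ 100 * ec (fun (p : Fin n × Fin n) z =>
        (z, p.2) ∈ pos₂) I A₀ᶜ := by exact_mod_cast h
      linarith
    · intro f hf
      refine ⟨by simp, ?_, ?_⟩
      · rw [List.pairwise_ofFn]
        intro i j hij
        exact h12 ((hch f hf).2 i j hij).2.2.2
      · intro z hz v hv
        rw [List.mem_ofFn] at hv
        obtain ⟨i, rfl⟩ := hv
        exact hz i
    · intro p hp
      exact ⟨(hIA p hp).2, fun z hz => hz⟩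

/-- Main theorem: OMaker wins `Or(TT_k, n)` for all `k ≤ (2 + 10⁻⁹) log₂ n`, `n` large. -/
theorem main : ∃ δ : ℝ, 0 < δ ∧ ∃ n₀ : ℕ, ∀ n ≥ n₀, ∀ k : ℕ,
    (k : ℝ) ≤ (2 + δ) * Real.logb 2 n → OMakerWins (TTk k) n := by
  obtain ⟨N, hN⟩ : ∃ N : ℕ, N = 1000000000 * 1000000000 := ⟨_, rfl⟩
  refine ⟨1 / 1000000000, by norm_num, 2 ^ N, ?_⟩
  intro n hn k hk
  have hn0 : n ≠ 0 := by
    have : 0 < 2 ^ N := by positivity
    omega
  obtain ⟨m, hm⟩ : ∃ m, m = Nat.log 2 n := ⟨_, rfl⟩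
  have hm1 : 2 ^ m ≤ n := by rw [hm]; exact Nat.pow_log_le_self 2 hn0
  have hm2 : n < 2 ^ (m + 1) := by rw [hm]; exact Nat.lt_pow_succ_log_self (by norm_num) n
  have hmN : N ≤ m := by
    have h1 := lt_of_le_of_lt hn hm2
    have h2 := (Nat.pow_lt_pow_iff_right (by norm_num : 1 < 2)).1 h1
    omega
  obtain ⟨u, hu⟩ : ∃ u, u = m / 1000000000 := ⟨_, rfl⟩
  have hu1 : 1000000000 ≤ u := by omega
  refine core (u := u) (by omega) ?_ ?_ ?_
  · exact le_trans (Nat.pow_le_pow_right (by norm_num) (by omega)) hm1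
  · exact lt_of_lt_of_le hm2 (Nat.pow_le_pow_right (by norm_num) (by omega))
  · have h1 : Real.logb 2 n ≤ m + 1 := by
      have h2 : (n : ℝ) ≤ 2 ^ ((m + 1 : ℕ) : ℝ) := by
        rw [Real.rpow_natCast]; exact_mod_cast hm2.le
      have h3 := Real.logb_le_logb_of_le (b := 2) (by norm_num) (by exact_mod_cast Nat.pos_of_ne_zero hn0) h2
      rw [Real.logb_rpow (by norm_num) (by norm_num)] at h3
      push_cast at h3
      exact h3
    have h4 : m + 1 ≤ 1000000000 * (u + 1) := by omega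
    have h5 : (m : ℝ) + 1 ≤ 1000000000 * (u + 1) := by exact_mod_cast h4
    have h6 : (1000000000 : ℝ) ≤ u := by exact_mod_cast hu1
    have h7 : (k : ℝ) ≤ 2000000007 * u := by
      calc (k : ℝ) ≤ (2 + 1 / 1000000000) * Real.logb 2 n := hk
        _ ≤ (2 + 1 / 1000000000) * (1000000000 * (u + 1)) := by
            apply mul_le_mul_of_nonneg_left (h1.trans h5) (by norm_num)
        _ ≤ 2000000007 * u := by linarith
    exact_mod_cast h7

end Pool.Agent.TT2
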