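import Pool.Agent.TT2.Defs
import Pool.Agent.TT2.M
/-!
# Project TT2, module S (structured families) (see /team-store/7dd320_TT.md)
-/

namespace Pool.Agent.TT2

open Finset
open Pool.Agent.helper11.OG (Free HasCopy)

private lemma mem_prs' {V : Type*} [LinearOrder V] (S : Finset V) (p : V × V) :
    p ∈ prs S ↔ p.1 ∈ S ∧ p.2 ∈ S ∧ p.1 < p.2 := by
  simp only [prs, mem_filter, mem_product, and_assoc]

private lemma prs_card' {V : Type*} [LinearOrder V] (S : Finset V) :
    (prs S).card = S.card.choose 2 := by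
  have h1 : S.offDiag = prs S ∪ (prs S).map ⟨Prod.swap, Prod.swap_injective⟩ := by
    ext ⟨a, b⟩
    simp only [mem_offDiag, mem_union, mem_map, Function.Embedding.coeFn_mk, mem_prs']
    constructor
    · rintro ⟨ha, hb, hab⟩
      rcases lt_or_gt_of_ne hab with h | h
      · exact Or.inl ⟨ha, hb, h⟩
      · exact Or.inr ⟨(b, a), ⟨hb, ha, h⟩, rfl⟩
    · rintro (⟨ha, hb, h⟩ | ⟨⟨c, d⟩, ⟨hc, hd, h⟩, he⟩)
      · exact ⟨ha, hb, h.ne⟩
      · simp only [Prod.swap, Prod.mk.injEq] at he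
        obtain ⟨rfl, rfl⟩ := he
        exact ⟨hd, hc, h.ne'⟩
  have hd : Disjoint (prs S) ((prs S).map ⟨Prod.swap, Prod.swap_injective⟩) := by
    rw [Finset.disjoint_left]
    rintro ⟨a, b⟩ h2 h3
    simp only [mem_map, Function.Embedding.coeFn_mk, mem_prs'] at h2 h3
    obtain ⟨⟨c, d⟩, ⟨_, _, h⟩, he⟩ := h3
    simp only [Prod.swap, Prod.mk.injEq] at he
    obtain ⟨rfl, rfl⟩ := he
    exact lt_asymm h h2.2.2
  have h2 : (prs S).card + (prs S).card = S.card * S.card - S.card := by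
    rw [← offDiag_card, h1, card_union_of_disjoint hd, card_map]
  rw [Nat.choose_two_right]
  have h3 : S.card * (S.card - 1) = S.card * S.card - S.card := by
    rw [Nat.mul_sub, Nat.mul_one]
  omega

private lemma prs_inter' {V : Type*} [LinearOrder V] (S T : Finset V) :
    prs S ∩ prs T = prs (S ∩ T) := by
  ext p
  simp only [mem_inter, mem_prs']
  tauto

private lemma prs_mono' {V : Type*} [LinearOrder V] {S T : Finset V} (h : S ⊆ T) :
    prs S ⊆ prs T := by
  intro p hp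
  rw [mem_prs'] at hp ⊢
  exact ⟨h hp.1, h hp.2.1, hp.2.2⟩

private lemma card_step {V : Type*} [LinearOrder V] (A : Finset (V × V)) (U S : Finset V)
    (hA : A ⊆ prs U) :
    A.card + S.card.choose 2 ≤ (A ∪ prs S).card + (S ∩ U).card.choose 2 := by
  have h1 := card_union_add_card_inter A (prs S)
  have h2 : (A ∩ prs S).card ≤ (S ∩ U).card.choose 2 := by
    rw [← prs_card', ← prs_inter']
    apply card_le_card
    intro p hp
    rw [mem_inter] at hp ⊢
    exact ⟨hp.2, hA hp.1⟩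
  rw [prs_card'] at h1
  omega

/-- S (uses M) -/
theorem structured {V : Type*} [LinearOrder V] (𝒥 : Finset (Finset V)) (w : Finset V → ℝ) (s : ℕ)
    (F : Finset (V × V)) (hw : ∀ S ∈ 𝒥, 0 ≤ w S) (hs : ∀ S ∈ 𝒥, S.card = s)
    (hF : ∀ S ∈ 𝒥, prs S ⊆ F) (σ : ℝ) (hσ0 : 0 ≤ σ)
    (hσ : ∀ U : Finset V, U.card ≤ 3 * s →
      ∑ S ∈ 𝒥 with 3 ≤ (S ∩ U).card, w S * 2 ^ ((S ∩ U).card.choose 2) ≤ σ * ∑ S ∈ 𝒥, w S)
    (hW : 0 < ∑ S ∈ 𝒥, w S) (hnum : 4 * (F.card : ℝ) ^ 4 * σ ^ 3 < 1) :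
    MBWin (fun X => ∃ S ∈ 𝒥, prs S ⊆ X) F ∅ := by
  apply maker_criterion 𝒥 prs w hw F hF
  set W : ℝ := ∑ S ∈ 𝒥, w S with hWdef
  set C : ℕ := s.choose 2 with hC
  have hT : ∑ k ∈ 𝒥, w k * (1 / 2 : ℝ) ^ (prs k).card = (1 / 2 : ℝ) ^ C * W := by
    rw [hWdef, Finset.mul_sum]
    apply Finset.sum_congr rfl
    intro k hk
    rw [prs_card', hs k hk]
    ring
  let g : Finset V → Finset V → ℝ := fun U S =>
    if 3 ≤ (S ∩ U).card then w S * 2 ^ ((S ∩ U).card.choose 2) else 0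
  have hg0 : ∀ U, ∀ S ∈ 𝒥, 0 ≤ g U S := by
    intro U S hS
    simp only [g]
    split_ifs
    · exact mul_nonneg (hw S hS) (by positivity)
    · exact le_rfl
  have hgs : ∀ U : Finset V, U.card ≤ 3 * s → ∑ S ∈ 𝒥, g U S ≤ σ * W := by
    intro U hU
    have := hσ U hU
    rwa [Finset.sum_filter] at this
  have hsW : 0 ≤ σ * W := mul_nonneg hσ0 hW.le
  have hpt : ∀ a ∈ 𝒥, ∀ b ∈ 𝒥, ∀ c ∈ 𝒥, ∀ d ∈ 𝒥,
      (if 2 ≤ (prs a ∩ prs b ∩ prs c ∩ prs d).card then
        w a * w b * w c * w d * (1 / 2 : ℝ) ^ (prs a ∪ prs b ∪ prs c ∪ prs d).card else 0)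
      ≤ (1 / 2 : ℝ) ^ (4 * C) * (w a * (g a b * (g (a ∪ b) c * g (a ∪ b ∪ c) d))) := by
    intro a ha b hb c hc d hd
    have hrhs : 0 ≤ (1 / 2 : ℝ) ^ (4 * C) * (w a * (g a b * (g (a ∪ b) c * g (a ∪ b ∪ c) d))) := by
      have h1 := hg0 a b hb
      have h2 := hg0 (a ∪ b) c hc
      have h3 := hg0 (a ∪ b ∪ c) d hd
      have h4 := hw a ha
      positivity
    split_ifs with h2
    · rw [prs_inter', prs_inter', prs_inter', prs_card'] at h2
      have h3 : 3 ≤ (a ∩ b ∩ c ∩ d).card := by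
        by_contra hlt
        push Not at hlt
        have : (a ∩ b ∩ c ∩ d).card = 0 ∨ (a ∩ b ∩ c ∩ d).card = 1 ∨
            (a ∩ b ∩ c ∩ d).card = 2 := by omega
        rcases this with h | h | h <;> rw [h] at h2 <;> simp at h2
      have hb3 : 3 ≤ (b ∩ a).card := le_trans h3 (card_le_card (by
        intro x hx; simp only [mem_inter] at hx ⊢; tauto))
      have hc3 : 3 ≤ (c ∩ (a ∪ b)).card := le_trans h3 (card_le_card (by
        intro x hx; simp only [mem_inter, mem_union] at hx ⊢; tauto))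
      have hd3 : 3 ≤ (d ∩ (a ∪ b ∪ c)).card := le_trans h3 (card_le_card (by
        intro x hx; simp only [mem_inter, mem_union] at hx ⊢; tauto))
      have e1 := card_step (prs a) a b (subset_refl _)
      have e2 := card_step (prs a ∪ prs b) (a ∪ b) c
        (union_subset (prs_mono' subset_union_left) (prs_mono' subset_union_right))
      have e3 := card_step (prs a ∪ prs b ∪ prs c) (a ∪ b ∪ c) d
        (union_subset (union_subset (prs_mono' (subset_union_left.trans subset_union_left))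
          (prs_mono' (subset_union_right.trans subset_union_left)))
          (prs_mono' subset_union_right))
      rw [prs_card', hs a ha, hs b hb] at e1
      rw [hs c hc] at e2
      rw [hs d hd] at e3
      have hcard : 4 * C ≤ (prs a ∪ prs b ∪ prs c ∪ prs d).card +
          ((b ∩ a).card.choose 2 + (c ∩ (a ∪ b)).card.choose 2 +
            (d ∩ (a ∪ b ∪ c)).card.choose 2) := by
        rw [hC]; omega
      have hpow : (1 / 2 : ℝ) ^ (prs a ∪ prs b ∪ prs c ∪ prs d).card ≤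
          (1 / 2 : ℝ) ^ (4 * C) * (2 ^ ((b ∩ a).card.choose 2) *
            (2 ^ ((c ∩ (a ∪ b)).card.choose 2) * 2 ^ ((d ∩ (a ∪ b ∪ c)).card.choose 2))) := by
        have h5 : (1 / 2 : ℝ) ^ ((prs a ∪ prs b ∪ prs c ∪ prs d).card +
            ((b ∩ a).card.choose 2 + (c ∩ (a ∪ b)).card.choose 2 +
            (d ∩ (a ∪ b ∪ c)).card.choose 2)) ≤ (1 / 2 : ℝ) ^ (4 * C) :=
          pow_le_pow_of_le_one (by norm_num) (by norm_num) hcard
        have h6 : ∀ x : ℕ, (1 / 2 : ℝ) ^ x * 2 ^ x = 1 := by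
          intro x
          rw [← mul_pow]
          norm_num
        calc (1 / 2 : ℝ) ^ (prs a ∪ prs b ∪ prs c ∪ prs d).card
            = (1 / 2 : ℝ) ^ ((prs a ∪ prs b ∪ prs c ∪ prs d).card +
              ((b ∩ a).card.choose 2 + (c ∩ (a ∪ b)).card.choose 2 +
              (d ∩ (a ∪ b ∪ c)).card.choose 2)) * (2 ^ ((b ∩ a).card.choose 2) *
            (2 ^ ((c ∩ (a ∪ b)).card.choose 2) * 2 ^ ((d ∩ (a ∪ b ∪ c)).card.choose 2))) := by
                rw [pow_add, pow_add, pow_add]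
                have i1 := h6 ((b ∩ a).card.choose 2)
                have i2 := h6 ((c ∩ (a ∪ b)).card.choose 2)
                have i3 := h6 ((d ∩ (a ∪ b ∪ c)).card.choose 2)
                calc (1 / 2 : ℝ) ^ (prs a ∪ prs b ∪ prs c ∪ prs d).card
                    = (1 / 2 : ℝ) ^ (prs a ∪ prs b ∪ prs c ∪ prs d).card *
                      (((1 / 2 : ℝ) ^ ((b ∩ a).card.choose 2) * 2 ^ ((b ∩ a).card.choose 2)) *
                      (((1 / 2 : ℝ) ^ ((c ∩ (a ∪ b)).card.choose 2) *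
                        2 ^ ((c ∩ (a ∪ b)).card.choose 2)) *
                      ((1 / 2 : ℝ) ^ ((d ∩ (a ∪ b ∪ c)).card.choose 2) *
                        2 ^ ((d ∩ (a ∪ b ∪ c)).card.choose 2)))) := by
                          rw [i1, i2, i3]; ring
                  _ = _ := by ring
          _ ≤ _ := by
                apply mul_le_mul_of_nonneg_right h5
                positivity
      simp only [g, if_pos hb3, if_pos hc3, if_pos hd3]
      have hwp : 0 ≤ w a * w b * w c * w d :=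
        mul_nonneg (mul_nonneg (mul_nonneg (hw a ha) (hw b hb)) (hw c hc)) (hw d hd)
      calc w a * w b * w c * w d * (1 / 2 : ℝ) ^ (prs a ∪ prs b ∪ prs c ∪ prs d).card
          ≤ w a * w b * w c * w d * ((1 / 2 : ℝ) ^ (4 * C) * (2 ^ ((b ∩ a).card.choose 2) *
            (2 ^ ((c ∩ (a ∪ b)).card.choose 2) * 2 ^ ((d ∩ (a ∪ b ∪ c)).card.choose 2)))) :=
              mul_le_mul_of_nonneg_left hpow hwp
        _ = _ := by ring
    · exact hrhs
  have hQ : (∑ a ∈ 𝒥, ∑ b ∈ 𝒥, ∑ c ∈ 𝒥, ∑ d ∈ 𝒥,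
          if 2 ≤ (prs a ∩ prs b ∩ prs c ∩ prs d).card then
            w a * w b * w c * w d * (1 / 2 : ℝ) ^ (prs a ∪ prs b ∪ prs c ∪ prs d).card else 0)
      ≤ (1 / 2 : ℝ) ^ (4 * C) * (W * (σ * W * (σ * W * (σ * W)))) := by
    calc (∑ a ∈ 𝒥, ∑ b ∈ 𝒥, ∑ c ∈ 𝒥, ∑ d ∈ 𝒥,
          if 2 ≤ (prs a ∩ prs b ∩ prs c ∩ prs d).card then
            w a * w b * w c * w d * (1 / 2 : ℝ) ^ (prs a ∪ prs b ∪ prs c ∪ prs d).card else 0)
        ≤ ∑ a ∈ 𝒥, ∑ b ∈ 𝒥, ∑ c ∈ 𝒥, ∑ d ∈ 𝒥,
          (1 / 2 : ℝ) ^ (4 * C) * (w a * (g a b * (g (a ∪ b) c * g (a ∪ b ∪ c) d))) :=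
          Finset.sum_le_sum fun a ha => Finset.sum_le_sum fun b hb =>
            Finset.sum_le_sum fun c hc => Finset.sum_le_sum fun d hd => hpt a ha b hb c hc d hd
      _ = (1 / 2 : ℝ) ^ (4 * C) * ∑ a ∈ 𝒥, w a * ∑ b ∈ 𝒥, g a b * ∑ c ∈ 𝒥, g (a ∪ b) c *
            ∑ d ∈ 𝒥, g (a ∪ b ∪ c) d := by
          simp only [Finset.mul_sum]
      _ ≤ (1 / 2 : ℝ) ^ (4 * C) * ∑ a ∈ 𝒥, w a * (σ * W * (σ * W * (σ * W))) := by
          apply mul_le_mul_of_nonneg_left _ (by positivity)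
          apply Finset.sum_le_sum
          intro a ha
          apply mul_le_mul_of_nonneg_left _ (hw a ha)
          have ca : a.card = s := hs a ha
          calc ∑ b ∈ 𝒥, g a b * ∑ c ∈ 𝒥, g (a ∪ b) c * ∑ d ∈ 𝒥, g (a ∪ b ∪ c) d
              ≤ ∑ b ∈ 𝒥, g a b * (σ * W * (σ * W)) := by
                apply Finset.sum_le_sum
                intro b hb
                apply mul_le_mul_of_nonneg_left _ (hg0 a b hb)
                have cb : b.card = s := hs b hb
                have cab : (a ∪ b).card ≤ 2 * s := by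
                  have := card_union_le a b
                  omega
                calc ∑ c ∈ 𝒥, g (a ∪ b) c * ∑ d ∈ 𝒥, g (a ∪ b ∪ c) d
                    ≤ ∑ c ∈ 𝒥, g (a ∪ b) c * (σ * W) := by
                      apply Finset.sum_le_sum
                      intro c hc
                      apply mul_le_mul_of_nonneg_left _ (hg0 _ c hc)
                      apply hgs
                      have cc : c.card = s := hs c hc
                      have := card_union_le (a ∪ b) c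
                      omega
                  _ = (∑ c ∈ 𝒥, g (a ∪ b) c) * (σ * W) := by rw [Finset.sum_mul]
                  _ ≤ σ * W * (σ * W) := by
                      apply mul_le_mul_of_nonneg_right _ hsW
                      apply hgs
                      omega
            _ = (∑ b ∈ 𝒥, g a b) * (σ * W * (σ * W)) := by rw [Finset.sum_mul]
            _ ≤ σ * W * (σ * W * (σ * W)) := by
                apply mul_le_mul_of_nonneg_right _ (mul_nonneg hsW hsW)
                apply hgs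
                omega
      _ = (1 / 2 : ℝ) ^ (4 * C) * (W * (σ * W * (σ * W * (σ * W)))) := by
          rw [← Finset.sum_mul]
  rw [hT]
  have hT0 : 0 < (1 / 2 : ℝ) ^ C * W := mul_pos (by positivity) hW
  calc 4 * (F.card : ℝ) ^ 4 * (∑ a ∈ 𝒥, ∑ b ∈ 𝒥, ∑ c ∈ 𝒥, ∑ d ∈ 𝒥,
          if 2 ≤ (prs a ∩ prs b ∩ prs c ∩ prs d).card then
            w a * w b * w c * w d * (1 / 2 : ℝ) ^ (prs a ∪ prs b ∪ prs c ∪ prs d).card else 0)
      ≤ 4 * (F.card : ℝ) ^ 4 *
          ((1 / 2 : ℝ) ^ (4 * C) * (W * (σ * W * (σ * W * (σ * W))))) :=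
        mul_le_mul_of_nonneg_left hQ (by positivity)
    _ = ((1 / 2 : ℝ) ^ C * W) ^ 4 * (4 * (F.card : ℝ) ^ 4 * σ ^ 3) := by
        rw [mul_pow, ← pow_mul, Nat.mul_comm 4 C]
        ring
    _ < ((1 / 2 : ℝ) ^ C * W) ^ 4 * 1 :=
        mul_lt_mul_of_pos_left hnum (by positivity)
    _ = ((1 / 2 : ℝ) ^ C * W) ^ 4 := by rw [mul_one]

end Pool.Agent.TT2
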