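import Pool.Agent.TT2.Defs
import Pool.Agent.TT2.S
/-!
# Project TT2, module Q (phase two) (see /team-store/7dd320_TT.md)
-/

namespace Pool.Agent.TT2

open Finset
open Pool.Agent.helper11.OG (Free HasCopy)

private lemma mbwin_mono_q {E : Type*} [DecidableEq E] {W W' : Finset E → Prop}
    (h : ∀ X, W X → W' X) {F X : Finset E} (hw : MBWin W F X) : MBWin W' F X := by
  induction hw with
  | win F X hX => exact MBWin.win F X (h X hX)
  | move F X e he hlast _ ih => exact MBWin.move F X e he (fun h0 => h _ (hlast h0)) ih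

private lemma choose_ratio (n s : ℕ) (hs : s ≤ n) : ∀ j, j ≤ s →
    (n - j).choose (s - j) * n ^ j ≤ n.choose s * s ^ j := by
  intro j
  induction j with
  | zero => intro _; simp
  | succ j ih =>
    intro hj
    have ih' := ih (by omega)
    obtain ⟨b, hb⟩ : ∃ b, s - j = b + 1 := ⟨s - j - 1, by omega⟩
    obtain ⟨c, hc⟩ : ∃ c, n - j = c + 1 := ⟨n - j - 1, by omega⟩
    have hb' : s - (j + 1) = b := by omega
    have hc' : n - (j + 1) = c := by omega
    rw [hb', hc']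
    rw [hb, hc] at ih'
    have h1 : (c + 1) * c.choose b = (c + 1).choose (b + 1) * (b + 1) :=
      Nat.add_one_mul_choose_eq c b
    have h2 : n * (b + 1) ≤ s * (c + 1) := by
      rw [← hb, ← hc, Nat.mul_sub, Nat.mul_sub]
      have h3 : s * j ≤ n * j := Nat.mul_le_mul_right j hs
      rw [Nat.mul_comm s n]
      exact Nat.sub_le_sub_left h3 _
    have hpos : 0 < c + 1 := Nat.succ_pos c
    apply Nat.le_of_mul_le_mul_left _ hpos
    calc (c + 1) * (c.choose b * n ^ (j + 1)) = ((c + 1) * c.choose b) * n ^ (j + 1) := by ring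
      _ = (c + 1).choose (b + 1) * (b + 1) * n ^ (j + 1) := by rw [h1]
      _ = ((c + 1).choose (b + 1) * n ^ j) * (n * (b + 1)) := by ring
      _ ≤ (n.choose s * s ^ j) * (s * (c + 1)) := Nat.mul_le_mul ih' h2
      _ = (c + 1) * (n.choose s * s ^ (j + 1)) := by ring

private lemma card_containing {V : Type*} [DecidableEq V] (N J : Finset V) (s : ℕ) (hJ : J ⊆ N) :
    ((powersetCard s N).filter (fun S => J ⊆ S)).card
      ≤ (N.card - J.card).choose (s - J.card) := by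
  rw [← card_sdiff_of_subset hJ, ← card_powersetCard]
  apply card_le_card_of_injOn (fun S => S \ J)
  · intro S hS
    rw [mem_coe, mem_filter, mem_powersetCard] at hS
    rw [mem_coe, mem_powersetCard]
    refine ⟨sdiff_subset_sdiff hS.1.1 (le_refl J), ?_⟩
    rw [card_sdiff_of_subset hS.2, hS.1.2]
  · intro S hS T hT hST
    rw [mem_coe, mem_filter, mem_powersetCard] at hS hT
    have h1 : S \ J = T \ J := hST
    rw [← sdiff_union_of_subset hS.2, ← sdiff_union_of_subset hT.2, h1]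

private lemma moment {V : Type*} [DecidableEq V] (𝒥 : Finset (Finset V)) (u : Finset V → ℝ)
    (s m : ℕ) (B : ℝ) (hB0 : 0 ≤ B) (hu : ∀ S ∈ 𝒥, 0 ≤ u S) (hs : ∀ S ∈ 𝒥, S.card ≤ s)
    (hB : ∀ J' : Finset V, 3 ≤ J'.card → J'.card ≤ s →
      (∑ S ∈ 𝒥 with J' ⊆ S, u S) * 2 ^ (J'.card.choose 2) * (m : ℝ) ^ J'.card ≤ B)
    (U : Finset V) (hU : U.card ≤ m) :
    ∑ S ∈ 𝒥 with 3 ≤ (S ∩ U).card, u S * 2 ^ ((S ∩ U).card.choose 2) ≤ s * B := by
  classical
  -- split by the intersection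
  have h1 : ∑ S ∈ 𝒥 with 3 ≤ (S ∩ U).card, u S * 2 ^ ((S ∩ U).card.choose 2)
      = ∑ J' ∈ U.powerset.filter (fun J' => 3 ≤ J'.card ∧ J'.card ≤ s),
        ∑ S ∈ 𝒥.filter (fun S => 3 ≤ (S ∩ U).card) with S ∩ U = J',
          u S * 2 ^ ((S ∩ U).card.choose 2) := by
    symm
    apply sum_fiberwise_of_maps_to
    intro S hS
    rw [mem_filter] at hS
    rw [mem_filter, mem_powerset]
    exact ⟨inter_subset_right, hS.2, le_trans (card_le_card inter_subset_left) (hs S hS.1)⟩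
  rw [h1]
  have h2 : ∀ J' ∈ U.powerset.filter (fun J' => 3 ≤ J'.card ∧ J'.card ≤ s),
      ∑ S ∈ 𝒥.filter (fun S => 3 ≤ (S ∩ U).card) with S ∩ U = J',
          u S * 2 ^ ((S ∩ U).card.choose 2)
      ≤ (∑ S ∈ 𝒥 with J' ⊆ S, u S) * 2 ^ (J'.card.choose 2) := by
    intro J' _
    rw [sum_mul]
    have h3 : ∑ S ∈ 𝒥.filter (fun S => 3 ≤ (S ∩ U).card) with S ∩ U = J',
          u S * 2 ^ ((S ∩ U).card.choose 2)
        = ∑ S ∈ 𝒥.filter (fun S => 3 ≤ (S ∩ U).card) with S ∩ U = J',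
          u S * 2 ^ (J'.card.choose 2) := by
      apply sum_congr rfl
      intro S hS
      rw [mem_filter] at hS
      rw [hS.2]
    rw [h3]
    apply sum_le_sum_of_subset_of_nonneg
    · intro S hS
      rw [mem_filter, mem_filter] at hS
      rw [mem_filter]
      refine ⟨hS.1.1, ?_⟩
      rw [← hS.2]
      exact inter_subset_left
    · intro S hS _
      rw [mem_filter] at hS
      exact mul_nonneg (hu S hS.1) (by positivity)
  refine le_trans (sum_le_sum h2) ?_
  -- split by the size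
  have h4 : ∑ J' ∈ U.powerset.filter (fun J' => 3 ≤ J'.card ∧ J'.card ≤ s),
        (∑ S ∈ 𝒥 with J' ⊆ S, u S) * 2 ^ (J'.card.choose 2)
      = ∑ j ∈ Icc 3 s, ∑ J' ∈ U.powerset.filter (fun J' => 3 ≤ J'.card ∧ J'.card ≤ s)
          with J'.card = j, (∑ S ∈ 𝒥 with J' ⊆ S, u S) * 2 ^ (J'.card.choose 2) := by
    symm
    apply sum_fiberwise_of_maps_to
    intro J' hJ'
    rw [mem_filter] at hJ'
    rw [mem_Icc]
    exact hJ'.2
  rw [h4]
  have h5 : ∀ j ∈ Icc 3 s, ∑ J' ∈ U.powerset.filter (fun J' => 3 ≤ J'.card ∧ J'.card ≤ s)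
          with J'.card = j, (∑ S ∈ 𝒥 with J' ⊆ S, u S) * 2 ^ (J'.card.choose 2) ≤ B := by
    intro j hj
    rw [mem_Icc] at hj
    set P := (U.powerset.filter (fun J' => 3 ≤ J'.card ∧ J'.card ≤ s)).filter
      (fun J' => J'.card = j) with hP
    have hPc : P.card ≤ U.card ^ j := by
      calc P.card ≤ (powersetCard j U).card := by
            apply card_le_card
            intro J' hJ'
            rw [hP, mem_filter, mem_filter, mem_powerset] at hJ'
            rw [mem_powersetCard]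
            exact ⟨hJ'.1.1, hJ'.2⟩
        _ = U.card.choose j := card_powersetCard _ _
        _ ≤ U.card ^ j := Nat.choose_le_pow _ _
    rcases Nat.eq_zero_or_pos m with hm | hm
    · have hU0 : U.card = 0 := by omega
      have hP0 : P.card = 0 := by
        have h6 : U.card ^ j = 0 := by
          rw [hU0]
          exact zero_pow (by omega)
        omega
      rw [card_eq_zero.mp hP0, sum_empty]
      exact hB0
    · have hmp : (0 : ℝ) < (m : ℝ) ^ j := by positivity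
      have h6 : ∀ J' ∈ P, (∑ S ∈ 𝒥 with J' ⊆ S, u S) * 2 ^ (J'.card.choose 2)
          ≤ B / (m : ℝ) ^ j := by
        intro J' hJ'
        rw [hP, mem_filter, mem_filter] at hJ'
        rw [le_div_iff₀ hmp]
        have h7 := hB J' (by omega) (by omega)
        rw [hJ'.2] at h7 ⊢
        exact h7
      calc ∑ J' ∈ P, (∑ S ∈ 𝒥 with J' ⊆ S, u S) * 2 ^ (J'.card.choose 2)
          ≤ ∑ _J' ∈ P, B / (m : ℝ) ^ j := sum_le_sum h6
        _ = P.card * (B / (m : ℝ) ^ j) := by rw [sum_const, nsmul_eq_mul]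
        _ ≤ (m : ℝ) ^ j * (B / (m : ℝ) ^ j) := by
            apply mul_le_mul_of_nonneg_right _ (by positivity)
            calc (P.card : ℝ) ≤ ((U.card ^ j : ℕ) : ℝ) := by exact_mod_cast hPc
              _ ≤ ((m ^ j : ℕ) : ℝ) := by exact_mod_cast Nat.pow_le_pow_left hU j
              _ = (m : ℝ) ^ j := by push_cast; ring
        _ = B := by field_simp
  refine le_trans (sum_le_sum h5) ?_
  rw [sum_const, nsmul_eq_mul]
  apply mul_le_mul_of_nonneg_right _ hB0
  rw [Nat.card_Icc]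
  exact_mod_cast (by omega : s + 1 - 3 ≤ s)

private lemma num_small (s a v w j : ℕ) (hwa : w = a + v) (hv : 3 * s ^ 2 * 2 ^ 8 ≤ 2 ^ v)
    (hj3 : 3 ≤ j) (hj : j ≤ 2 * a) :
    (3 * s ^ 2) ^ j * 2 ^ (j.choose 2 + 3 * a) ≤ (2 ^ w) ^ j := by
  have h1 : (3 * s ^ 2 * 2 ^ 8) ^ j ≤ (2 ^ v) ^ j := Nat.pow_le_pow_left hv j
  have h2 : 2 * j.choose 2 = j * (j - 1) := by
    rw [Nat.choose_two_right]
    exact Nat.mul_div_cancel' (Nat.even_mul_pred_self j).two_dvd
  have h3 : j.choose 2 + 3 * a ≤ (a + 8) * j := by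
    obtain ⟨i, rfl⟩ : ∃ i, j = 3 + i := ⟨j - 3, by omega⟩
    have h4 : 3 + i - 1 = 2 + i := by omega
    rw [h4] at h2
    nlinarith [Nat.mul_le_mul_right i hj]
  have h8 : 0 < (2 ^ 8) ^ j := by positivity
  apply Nat.le_of_mul_le_mul_right _ h8
  calc (3 * s ^ 2) ^ j * 2 ^ (j.choose 2 + 3 * a) * (2 ^ 8) ^ j
      = (3 * s ^ 2 * 2 ^ 8) ^ j * 2 ^ (j.choose 2 + 3 * a) := by
        rw [mul_pow (3 * s ^ 2) (2 ^ 8) j, Nat.mul_right_comm]
    _ ≤ (2 ^ v) ^ j * 2 ^ ((a + 8) * j) :=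
        Nat.mul_le_mul h1 (Nat.pow_le_pow_right (by norm_num) h3)
    _ = (2 ^ w) ^ j * (2 ^ 8) ^ j := by
        rw [hwa, ← pow_mul, ← pow_mul, ← pow_mul, ← pow_add, ← pow_add]
        congr 1
        ring

private lemma num_large (s v w t j : ℕ) (hv : 3 * s ^ 2 * 2 ^ 8 ≤ 2 ^ v)
    (hs : s ≤ 2 * (w + t)) (hj : j ≤ s) :
    (3 * s ^ 2) ^ j * 2 ^ (j.choose 2) ≤ (2 ^ w) ^ j * 2 ^ (s * (v + t)) := by
  have h1 : (3 * s ^ 2) ^ j ≤ (2 ^ v) ^ j := Nat.pow_le_pow_left (by omega) j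
  have h2 : 2 * j.choose 2 = j * (j - 1) := by
    rw [Nat.choose_two_right]
    exact Nat.mul_div_cancel' (Nat.even_mul_pred_self j).two_dvd
  have h3 : j.choose 2 ≤ j * (w + t) := by
    have h4 : j * (j - 1) ≤ j * (2 * (w + t)) := Nat.mul_le_mul_left j (by omega)
    nlinarith
  have h5 : v * j + j * (w + t) ≤ w * j + s * (v + t) := by
    have h6 : j * (v + t) ≤ s * (v + t) := Nat.mul_le_mul_right _ hj
    nlinarith
  calc (3 * s ^ 2) ^ j * 2 ^ (j.choose 2)
      ≤ (2 ^ v) ^ j * 2 ^ (j * (w + t)) :=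
        Nat.mul_le_mul h1 (Nat.pow_le_pow_right (by norm_num) h3)
    _ = 2 ^ (v * j + j * (w + t)) := by rw [← pow_mul, ← pow_add]
    _ ≤ 2 ^ (w * j + s * (v + t)) := Nat.pow_le_pow_right (by norm_num) h5
    _ = (2 ^ w) ^ j * 2 ^ (s * (v + t)) := by rw [← pow_mul, ← pow_add]

private lemma num_comb (X g c' C n s j a k G : ℕ) (hn : 0 < n) (hX : X ≤ g * c')
    (hc : c' * n ^ j ≤ C * s ^ j) (hg : g * ((3 * s ^ 2) ^ j * 2 ^ (k + 3 * a)) ≤ G * n ^ j) :
    X * 2 ^ k * (3 * s) ^ j * 2 ^ (3 * a) ≤ G * C := by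
  have hpos : 0 < n ^ j := by positivity
  apply Nat.le_of_mul_le_mul_right _ hpos
  calc X * 2 ^ k * (3 * s) ^ j * 2 ^ (3 * a) * n ^ j
      ≤ (g * c') * 2 ^ k * (3 * s) ^ j * 2 ^ (3 * a) * n ^ j := by gcongr
    _ = g * (c' * n ^ j) * (2 ^ k * (3 * s) ^ j * 2 ^ (3 * a)) := by ring
    _ ≤ g * (C * s ^ j) * (2 ^ k * (3 * s) ^ j * 2 ^ (3 * a)) := by gcongr
    _ = C * (g * ((3 * s ^ 2) ^ j * 2 ^ (k + 3 * a))) := by
        rw [pow_add, mul_pow, mul_pow, ← pow_mul]
        ring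
    _ ≤ C * (G * n ^ j) := by gcongr
    _ = G * C * n ^ j := by ring

/-- Q (uses S): phase two -/
theorem phase_two {V ι : Type*} [LinearOrder V] [DecidableEq ι] (B₀ : Finset V) (F : Finset (V × V))
    (hF : F ⊆ prs B₀) (M₀ : ℕ) (hM : (prs B₀ \ F).card ≤ M₀) (r : ℕ) (𝒢 : Finset (Fin r → ι))
    (N' : (Fin r → ι) → Finset V) (I : Finset ι) (Gd : ι → V → Prop) [∀ i z, Decidable (Gd i z)]
    (w a v t s d₀ : ℕ) (hN' : ∀ f ∈ 𝒢, N' f ⊆ B₀ ∧ (N' f).card = 2 ^ w)
    (hG : ∀ f ∈ 𝒢, ∀ i, f i ∈ I ∧ ∀ z ∈ N' f, Gd (f i) z) (h𝒢 : 𝒢.Nonempty)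
    (hwa : w = a + v) (ha : 2 ≤ a) (hv : 3 * s ^ 2 * 2 ^ 8 ≤ 2 ^ v) (has : 2 * a ≤ s)
    (hs : s ≤ 2 * (w + t)) (hM₀ : 4 * M₀ * s ^ 2 ≤ 2 ^ (2 * w))
    (hξ : 2 ^ (s * (v + t) + 3 * a) * d₀ ^ r ≤ 𝒢.card)
    (hnum : 4 * F.card ^ 4 * (4 * s) ^ 3 < 2 ^ (9 * a)) :
    MBWin (fun X => (∃ f ∈ 𝒢, ∃ S ⊆ N' f, S.card = s ∧ prs S ⊆ X) ∨
      ∃ S ⊆ B₀, S.card = 2 * a ∧ d₀ ≤ (I.filter (fun i => ∀ z ∈ S, Gd i z)).card ∧ prs S ⊆ X) F ∅ := by
  classical
  have hs4 : 4 ≤ s := by omega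
  have hsw : s ≤ 2 ^ w := by
    have h1 : 2 ^ v ≤ 2 ^ w := Nat.pow_le_pow_right (by norm_num) (by omega)
    nlinarith
  set C := (2 ^ w).choose s with hC
  have hCpos : 0 < C := Nat.choose_pos hsw
  have hGpos : 0 < 𝒢.card := card_pos.mpr h𝒢
  set Fam : Finset (Finset V) :=
    (𝒢.biUnion fun f => powersetCard s (N' f)).filter (fun S => prs S ⊆ F) with hFam
  have hFam1 : ∀ S ∈ Fam, S.card = s ∧ prs S ⊆ F ∧ S ⊆ B₀ ∧ ∃ f ∈ 𝒢, S ⊆ N' f := by
    intro S hS
    rw [hFam, mem_filter, mem_biUnion] at hS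
    obtain ⟨⟨f, hf, hSf⟩, h2⟩ := hS
    rw [mem_powersetCard] at hSf
    exact ⟨hSf.2, h2, subset_trans hSf.1 (hN' f hf).1, f, hf, hSf.1⟩
  set wt : Finset V → ℕ := fun S => (𝒢.filter (fun f => S ⊆ N' f)).card with hwt
  -- upper bound
  have key : ∀ J' : Finset V, ∑ S ∈ Fam with J' ⊆ S, wt S ≤
      (𝒢.filter (fun f => J' ⊆ N' f)).card * (2 ^ w - J'.card).choose (s - J'.card) := by
    intro J'
    have h1 : ∑ S ∈ Fam with J' ⊆ S, wt S
        = ∑ f ∈ 𝒢, ((Fam.filter (fun S => J' ⊆ S)).filter (fun S => S ⊆ N' f)).card := by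
      simp only [hwt, card_filter]
      rw [sum_comm]
    rw [h1, card_filter, sum_mul]
    apply sum_le_sum
    intro f hf
    split_ifs with h
    · rw [one_mul, ← (hN' f hf).2]
      refine le_trans (card_le_card ?_) (card_containing (N' f) J' s h)
      intro S hS
      rw [mem_filter, mem_filter] at hS
      rw [mem_filter, mem_powersetCard]
      exact ⟨⟨hS.2, (hFam1 S hS.1.1).1⟩, hS.1.2⟩
    · rw [zero_mul, Nat.le_zero, card_eq_zero, filter_eq_empty_iff]
      intro S hS hSf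
      rw [mem_filter] at hS
      exact h (subset_trans hS.2 hSf)
  -- lower bound for the total
  have hbad : 4 * (M₀ * (2 ^ w - 2).choose (s - 2)) ≤ C := by
    have h1 := choose_ratio (2 ^ w) s hsw 2 (by omega)
    have hp : 0 < (2 ^ w) ^ 2 := by positivity
    apply Nat.le_of_mul_le_mul_right _ hp
    calc 4 * (M₀ * (2 ^ w - 2).choose (s - 2)) * (2 ^ w) ^ 2
        = 4 * M₀ * ((2 ^ w - 2).choose (s - 2) * (2 ^ w) ^ 2) := by ring
      _ ≤ 4 * M₀ * (C * s ^ 2) := by gcongr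
      _ = C * (4 * M₀ * s ^ 2) := by ring
      _ ≤ C * 2 ^ (2 * w) := by gcongr
      _ = C * (2 ^ w) ^ 2 := by rw [← pow_mul, Nat.mul_comm w 2]
  have htot : 3 * (𝒢.card * C) ≤ 4 * ∑ S ∈ Fam, wt S := by
    have h1 : ∑ S ∈ Fam, wt S = ∑ f ∈ 𝒢, (Fam.filter (fun S => S ⊆ N' f)).card := by
      simp only [hwt, card_filter]
      rw [sum_comm]
    rw [h1, mul_sum]
    have h2 : 3 * (𝒢.card * C) = ∑ _f ∈ 𝒢, 3 * C := by
      rw [sum_const, smul_eq_mul]; ring
    rw [h2]
    apply sum_le_sum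
    intro f hf
    have h3 : (powersetCard s (N' f)).card = C := by
      rw [card_powersetCard, (hN' f hf).2]
    have h4 := card_filter_add_card_filter_not (s := powersetCard s (N' f))
      (fun S => prs S ⊆ F)
    have h5 : ((powersetCard s (N' f)).filter (fun S => prs S ⊆ F)).card
        ≤ (Fam.filter (fun S => S ⊆ N' f)).card := by
      apply card_le_card
      intro S hS
      rw [mem_filter] at hS
      rw [mem_filter, hFam, mem_filter, mem_biUnion]
      exact ⟨⟨⟨f, hf, hS.1⟩, hS.2⟩, (mem_powersetCard.mp hS.1).1⟩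
    have h6 : ((powersetCard s (N' f)).filter (fun S => ¬ prs S ⊆ F)).card
        ≤ M₀ * (2 ^ w - 2).choose (s - 2) := by
      have h7 : ((powersetCard s (N' f)).filter (fun S => ¬ prs S ⊆ F)) ⊆
          (prs B₀ \ F).biUnion (fun p => if ({p.1, p.2} : Finset V) ⊆ N' f ∧ p.1 ≠ p.2 then
            (powersetCard s (N' f)).filter (fun S => {p.1, p.2} ⊆ S) else ∅) := by
        intro S hS
        rw [mem_filter, mem_powersetCard] at hS
        obtain ⟨⟨hSN, hSs⟩, hSF⟩ := hS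
        rw [not_subset] at hSF
        obtain ⟨p, hp, hpF⟩ := hSF
        have hp' : (p.1 ∈ S ∧ p.2 ∈ S) ∧ p.1 < p.2 := by
          simpa only [prs, mem_filter, mem_product] using hp
        rw [mem_biUnion]
        refine ⟨p, ?_, ?_⟩
        · rw [mem_sdiff]
          refine ⟨?_, hpF⟩
          simp only [prs, mem_filter, mem_product]
          exact ⟨⟨(hN' f hf).1 (hSN hp'.1.1), (hN' f hf).1 (hSN hp'.1.2)⟩, hp'.2⟩
        · have h8 : ({p.1, p.2} : Finset V) ⊆ S := by
            intro z hz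
            rw [mem_insert, mem_singleton] at hz
            rcases hz with rfl | rfl
            · exact hp'.1.1
            · exact hp'.1.2
          rw [if_pos ⟨subset_trans h8 hSN, hp'.2.ne⟩, mem_filter, mem_powersetCard]
          exact ⟨⟨hSN, hSs⟩, h8⟩
      refine le_trans (card_le_card h7) (le_trans card_biUnion_le ?_)
      refine le_trans (b := ∑ _p ∈ prs B₀ \ F, (2 ^ w - 2).choose (s - 2)) ?_ ?_
      · apply sum_le_sum
        intro p _
        split_ifs with h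
        · have h8 := card_containing (N' f) {p.1, p.2} s h.1
          rw [card_pair h.2, (hN' f hf).2] at h8
          exact h8
        · rw [card_empty]
          exact Nat.zero_le _
      · rw [sum_const, smul_eq_mul]
        exact Nat.mul_le_mul_right _ hM
    omega
  -- rich sets
  set D : Finset V → Finset ι := fun J => I.filter (fun i => ∀ z ∈ J, Gd i z) with hD
  let rich : Finset V → Prop := fun S => ∃ J ⊆ S, J.card = 2 * a ∧ d₀ ≤ (D J).card
  have hsplit : ∑ S ∈ Fam with rich S, wt S + ∑ S ∈ Fam with ¬ rich S, wt S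
      = ∑ S ∈ Fam, wt S := sum_filter_add_sum_filter_not Fam rich wt
  -- the numbers
  set B : ℝ := (𝒢.card * C : ℕ) / 2 ^ (3 * a) with hBdef
  have hB0 : 0 ≤ B := by positivity
  have toB : ∀ X k j : ℕ, X * 2 ^ k * (3 * s) ^ j * 2 ^ (3 * a) ≤ 𝒢.card * C →
      (X : ℝ) * 2 ^ k * ((3 * s : ℕ) : ℝ) ^ j ≤ B := by
    intro X k j h
    rw [hBdef, le_div_iff₀ (by positivity)]
    exact_mod_cast h
  have hsmall : ∀ J' : Finset V, 3 ≤ J'.card → J'.card ≤ 2 * a →
      (∑ S ∈ Fam with J' ⊆ S, wt S) * 2 ^ (J'.card.choose 2) * (3 * s) ^ J'.card * 2 ^ (3 * a)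
        ≤ 𝒢.card * C := by
    intro J' h3 h2
    apply num_comb _ 𝒢.card ((2 ^ w - J'.card).choose (s - J'.card)) C (2 ^ w) s J'.card a
      (J'.card.choose 2) 𝒢.card (by positivity)
    · refine le_trans (key J') (Nat.mul_le_mul_right _ (card_le_card (filter_subset _ _)))
    · exact choose_ratio (2 ^ w) s hsw J'.card (by omega)
    · exact Nat.mul_le_mul_left _ (num_small s a v w J'.card hwa hv h3 h2)
  have hσfin : ∀ (P : ℝ), (𝒢.card * C : ℕ) ≤ 4 * P → ∀ s' : ℕ, s' ≤ s →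
      (s' : ℝ) * B ≤ (4 * s / 2 ^ (3 * a)) * P := by
    intro P hP s' hs'
    rw [hBdef]
    have h1 : (s' : ℝ) ≤ s := by exact_mod_cast hs'
    have h2 : (0 : ℝ) < 2 ^ (3 * a) := by positivity
    rw [div_mul_eq_mul_div, mul_div_assoc', div_le_div_iff_of_pos_right h2]
    calc (s' : ℝ) * ((𝒢.card * C : ℕ) : ℝ) ≤ s * ((𝒢.card * C : ℕ) : ℝ) := by gcongr
      _ ≤ s * (4 * P) := by gcongr
      _ = 4 * s * P := by ring
  have hnum' : 4 * (F.card : ℝ) ^ 4 * (4 * s / 2 ^ (3 * a)) ^ 3 < 1 := by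
    rw [div_pow, mul_div_assoc', div_lt_one (by positivity)]
    rw [← pow_mul, show 3 * a * 3 = 9 * a by ring]
    exact_mod_cast hnum
  have hσ0 : (0 : ℝ) ≤ 4 * s / 2 ^ (3 * a) := by positivity
  have hGC : 0 < 𝒢.card * C := Nat.mul_pos hGpos hCpos
  by_cases hcase : 𝒢.card * C ≤ 4 * ∑ S ∈ Fam with ¬ rich S, wt S
  · -- the part that is not rich
    apply mbwin_mono_q (W := fun X => ∃ S ∈ Fam.filter (fun S => ¬ rich S), prs S ⊆ X)
    · rintro X ⟨S, hS, hSX⟩
      rw [mem_filter] at hS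
      obtain ⟨h1, -, -, f, hf, h2⟩ := hFam1 S hS.1
      exact Or.inl ⟨f, hf, S, h2, h1, hSX⟩
    apply structured (Fam.filter (fun S => ¬ rich S)) (fun S => (wt S : ℝ)) s F
      (fun S _ => Nat.cast_nonneg _) (fun S hS => (hFam1 S (mem_filter.mp hS).1).1)
      (fun S hS => (hFam1 S (mem_filter.mp hS).1).2.1) (4 * s / 2 ^ (3 * a)) hσ0 _ _ hnum'
    · intro U hU
      have hcast : ((𝒢.card * C : ℕ) : ℝ) ≤ 4 * ∑ S ∈ Fam with ¬ rich S, (wt S : ℝ) := by
        exact_mod_cast hcase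
      refine le_trans ?_ (hσfin _ hcast s le_rfl)
      apply moment (Fam.filter (fun S => ¬ rich S)) (fun S => (wt S : ℝ)) s (3 * s) B hB0
        (fun S _ => Nat.cast_nonneg _) (fun S hS => (hFam1 S (mem_filter.mp hS).1).1.le) _ U hU
      intro J' h3 hjs
      have hle : ∑ S ∈ (Fam.filter (fun S => ¬ rich S)) with J' ⊆ S, wt S
          ≤ ∑ S ∈ Fam with J' ⊆ S, wt S := by
        apply sum_le_sum_of_subset
        exact filter_subset_filter _ (filter_subset _ _)
      have hgoal : (∑ S ∈ (Fam.filter (fun S => ¬ rich S)) with J' ⊆ S, wt S)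
          * 2 ^ (J'.card.choose 2) * (3 * s) ^ J'.card * 2 ^ (3 * a) ≤ 𝒢.card * C := by
        rcases le_or_gt J'.card (2 * a) with hj | hj
        · refine le_trans ?_ (hsmall J' h3 hj)
          gcongr
        · rcases ((Fam.filter (fun S => ¬ rich S)).filter (fun S => J' ⊆ S)).eq_empty_or_nonempty
            with he | ⟨S₀, hS₀⟩
          · rw [he, sum_empty]
            simp
          · rw [mem_filter, mem_filter] at hS₀
            obtain ⟨⟨hS₀F, hS₀r⟩, hJS₀⟩ := hS₀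
            have hd : (𝒢.filter (fun f => J' ⊆ N' f)).card ≤ d₀ ^ r := by
              obtain ⟨J'', hJ'', hJc⟩ := exists_subset_card_eq hj.le
              have hDlt : (D J'').card < d₀ := by
                by_contra hcon
                push Not at hcon
                exact hS₀r ⟨J'', subset_trans hJ'' hJS₀, hJc, hcon⟩
              calc (𝒢.filter (fun f => J' ⊆ N' f)).card
                  ≤ (Fintype.piFinset fun _ : Fin r => D J'').card := by
                    apply card_le_card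
                    intro f hf
                    rw [mem_filter] at hf
                    rw [Fintype.mem_piFinset]
                    intro i
                    rw [hD, mem_filter]
                    exact ⟨(hG f hf.1 i).1, fun z hz => (hG f hf.1 i).2 z (hf.2 (hJ'' hz))⟩
                _ = (D J'').card ^ r := by
                    rw [Fintype.card_piFinset]; simp
                _ ≤ d₀ ^ r := Nat.pow_le_pow_left hDlt.le r
            apply num_comb _ (d₀ ^ r) ((2 ^ w - J'.card).choose (s - J'.card)) C (2 ^ w) s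
              J'.card a (J'.card.choose 2) 𝒢.card (by positivity)
            · exact le_trans hle (le_trans (key J') (Nat.mul_le_mul_right _ hd))
            · exact choose_ratio (2 ^ w) s hsw J'.card hjs
            · have h7 := num_large s v w t J'.card hv hs hjs
              calc d₀ ^ r * ((3 * s ^ 2) ^ J'.card * 2 ^ (J'.card.choose 2 + 3 * a))
                  = d₀ ^ r * 2 ^ (3 * a) * ((3 * s ^ 2) ^ J'.card * 2 ^ (J'.card.choose 2)) := by
                    rw [pow_add]; ring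
                _ ≤ d₀ ^ r * 2 ^ (3 * a) * ((2 ^ w) ^ J'.card * 2 ^ (s * (v + t))) := by gcongr
                _ = (2 ^ (s * (v + t) + 3 * a) * d₀ ^ r) * (2 ^ w) ^ J'.card := by
                    rw [pow_add]; ring
                _ ≤ 𝒢.card * (2 ^ w) ^ J'.card := by gcongr
      have h9 := toB _ _ _ hgoal
      push_cast at h9 ⊢
      exact h9
    · have h1 : 0 < ∑ S ∈ Fam with ¬ rich S, wt S := by omega
      exact_mod_cast h1
  · -- the rich part
    have hcase2 : 𝒢.card * C ≤ 4 * ∑ S ∈ Fam with rich S, wt S := by omega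
    let Jof : Finset V → Finset V := fun S => if h : rich S then h.choose else ∅
    have hJof : ∀ S, rich S → Jof S ⊆ S ∧ (Jof S).card = 2 * a ∧ d₀ ≤ (D (Jof S)).card := by
      intro S hS
      have h1 : Jof S = hS.choose := by simp only [Jof, dif_pos hS]
      rw [h1]
      exact hS.choose_spec
    set R := Fam.filter (fun S => rich S) with hR
    set 𝒥 := R.image Jof with h𝒥
    have h𝒥1 : ∀ J ∈ 𝒥, J.card = 2 * a ∧ prs J ⊆ F ∧ J ⊆ B₀ ∧ d₀ ≤ (D J).card := by
      intro J hJ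
      rw [h𝒥, mem_image] at hJ
      obtain ⟨S, hS, rfl⟩ := hJ
      rw [hR, mem_filter] at hS
      obtain ⟨h1, h2, h3⟩ := hJof S hS.2
      obtain ⟨-, h5, h6, -⟩ := hFam1 S hS.1
      refine ⟨h2, subset_trans ?_ h5, subset_trans h1 h6, h3⟩
      intro p hp
      simp only [prs, mem_filter, mem_product] at hp ⊢
      exact ⟨⟨h1 hp.1.1, h1 hp.1.2⟩, hp.2⟩
    apply mbwin_mono_q (W := fun X => ∃ S ∈ 𝒥, prs S ⊆ X)
    · rintro X ⟨J, hJ, hJX⟩
      obtain ⟨h1, -, h3, h4⟩ := h𝒥1 J hJ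
      exact Or.inr ⟨J, h3, h1, h4, hJX⟩
    let wt' : Finset V → ℕ := fun J => ∑ S ∈ R with Jof S = J, wt S
    have hsum : ∑ J ∈ 𝒥, wt' J = ∑ S ∈ R, wt S := by
      apply sum_fiberwise_of_maps_to
      intro S hS
      exact mem_image_of_mem _ hS
    apply structured 𝒥 (fun J => (wt' J : ℝ)) (2 * a) F
      (fun S _ => Nat.cast_nonneg _) (fun S hS => (h𝒥1 S hS).1)
      (fun S hS => (h𝒥1 S hS).2.1) (4 * s / 2 ^ (3 * a)) hσ0 _ _ hnum'
    · intro U hU
      have hcast : ((𝒢.card * C : ℕ) : ℝ) ≤ 4 * ∑ J ∈ 𝒥, (wt' J : ℝ) := by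
        rw [← hsum] at hcase2
        exact_mod_cast hcase2
      refine le_trans ?_ (hσfin _ hcast (2 * a) has)
      apply moment 𝒥 (fun J => (wt' J : ℝ)) (2 * a) (3 * s) B hB0
        (fun S _ => Nat.cast_nonneg _) (fun S hS => (h𝒥1 S hS).1.le) _ U (by omega)
      intro J' h3 hjs
      have hle : ∑ J ∈ 𝒥 with J' ⊆ J, wt' J ≤ ∑ S ∈ Fam with J' ⊆ S, wt S := by
        calc ∑ J ∈ 𝒥 with J' ⊆ J, wt' J
            = ∑ J ∈ 𝒥 with J' ⊆ J, ∑ S ∈ R.filter (fun S => J' ⊆ Jof S) with Jof S = J, wt S := by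
              apply sum_congr rfl
              intro J hJ
              rw [mem_filter] at hJ
              simp only [wt']
              apply sum_congr _ (fun _ _ => rfl)
              ext S
              simp only [mem_filter]
              constructor
              · rintro ⟨h1, h2⟩
                exact ⟨⟨h1, h2 ▸ hJ.2⟩, h2⟩
              · rintro ⟨⟨h1, -⟩, h2⟩
                exact ⟨h1, h2⟩
          _ = ∑ S ∈ R with J' ⊆ Jof S, wt S := by
              apply sum_fiberwise_of_maps_to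
              intro S hS
              rw [mem_filter] at hS ⊢
              exact ⟨mem_image_of_mem _ hS.1, hS.2⟩
          _ ≤ ∑ S ∈ Fam with J' ⊆ S, wt S := by
              apply sum_le_sum_of_subset
              intro S hS
              rw [mem_filter, hR, mem_filter] at hS
              rw [mem_filter]
              exact ⟨hS.1.1, subset_trans hS.2 (hJof S hS.1.2).1⟩
      have hgoal : (∑ J ∈ 𝒥 with J' ⊆ J, wt' J)
          * 2 ^ (J'.card.choose 2) * (3 * s) ^ J'.card * 2 ^ (3 * a) ≤ 𝒢.card * C := by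
        refine le_trans ?_ (hsmall J' h3 hjs)
        gcongr
      have h9 := toB _ _ _ hgoal
      push_cast at h9 ⊢
      exact h9
    · have h1 : 0 < ∑ J ∈ 𝒥, wt' J := by
        rw [hsum]
        omega
      exact_mod_cast h1

end Pool.Agent.TT2
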