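import Pool.Agent.TT2.Defs
import Pool.Agent.TT2.L
import Pool.Agent.TT2.C
import Pool.Agent.TT2.Q
/-!
# Project TT2, module Mode: phase two for one of the four modes, with the numerical choice of parameters
-/

namespace Pool.Agent.TT2

open Finset
open Pool.Agent.helper11.OG (Free HasCopy)

/-- `768 s² ≤ 2^(u/2)` for the sizes in use. -/
theorem num_v (u s : ℕ) (hu : 1000 ≤ u) (hs : s ≤ 2000000000 * u) :
    3 * s ^ 2 * 2 ^ 8 ≤ 2 ^ (u / 2) := by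
  -- u ≤ 2^(u/20)
  obtain ⟨m, hm⟩ : ∃ m, m = u / 20 := ⟨_, rfl⟩
  have hm50 : 50 ≤ m := by omega
  have hum : u < 20 * (m + 1) := by omega
  have h2 : ∀ m : ℕ, 50 ≤ m → 20 * (m + 1) ≤ 2 ^ m := by
    intro m hm
    induction m, hm using Nat.le_induction with
    | base => norm_num
    | succ m hm ih => rw [pow_succ]; omega
  have h3 : u ≤ 2 ^ m := le_trans hum.le (h2 m hm50)
  have h4 : s ≤ 2 ^ (m + 31) := by
    calc s ≤ 2000000000 * u := hs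
      _ ≤ 2 ^ 31 * 2 ^ m := Nat.mul_le_mul (by norm_num) h3
      _ = 2 ^ (m + 31) := by rw [← pow_add, add_comm]
  calc 3 * s ^ 2 * 2 ^ 8 ≤ 2 ^ 2 * (2 ^ (m + 31)) ^ 2 * 2 ^ 8 := by gcongr; norm_num
    _ = 2 ^ (2 * m + 72) := by rw [← pow_mul, ← pow_add, ← pow_add]; congr 1; omega
    _ ≤ 2 ^ (u / 2) := Nat.pow_le_pow_right (by norm_num) (by omega)

theorem mode_win_aux {n k u h ℓ q qa qi qd qn qz : ℕ} (hq : q = 1000000000 * u)
    (hqa : qa = 900000000 * u) (hqi : qi = 870000000 * u) (hqd : qd = 869999800 * u)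
    (hqn : qn = 1000000000 * (u + 1)) (hqz : qz = 75000 * u ^ 2 + 1500 * u) (hu : 1000 ≤ u) (hn1 : 2 ^ q ≤ n)
    (hn2 : n < 2 ^ qn) (hk : k ≤ 2000000007 * u) (hh : h ≤ 64) (hh' : 21 ≤ h)
    (hℓ : 2 * h + 8 ≤ 50 * ℓ + 42) (A₀ : Finset (Fin n)) (hA₀ : A₀.card = 2 ^ qa)
    (pos₂ : Finset (Fin n × Fin n)) (hpos₂ : IsPos pos₂)
    (hfree₂ : ∀ a, Free pos₂ a → a.1 ∉ A₀ ∧ a.2 ∉ A₀)
    (hcount₂ : (pos₂.filter (fun a => a.1 ∉ A₀ ∧ a.2 ∉ A₀)).card ≤ A₀.card * n)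
    (Rel : Fin n × Fin n → Fin n × Fin n → Prop) [DecidableRel Rel] (I : Finset (Fin n × Fin n))
    (K : ℕ) (hI : 2 ^ qi ≤ I.card)
    (hext : ∀ D ⊆ I, K ≤ D.card → (tc Rel (50 * u) I : ℝ) * (D.card : ℝ) ^ (51 * u) ≤
      tc Rel (50 * u) D * (I.card : ℝ) ^ (51 * u))
    (hKI : (K : ℝ) ≤ 1 / 5 * I.card)
    (htc : (1 / 2 : ℝ) ^ qz * (I.card : ℝ) ^ (50 * u) ≤ tc Rel (50 * u) I)
    (ρ : ℝ) (hρ : 2 / 5 ≤ ρ) (hρ1 : ρ ≤ 1) (hρE : (1 / 2 : ℝ) ^ h ≤ ρ ^ 51)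
    (Gd : Fin n × Fin n → Fin n → Prop) [∀ i z, Decidable (Gd i z)]
    (hG : ρ * (I.card * (A₀ᶜ : Finset (Fin n)).card : ℝ) ≤ ec Gd I A₀ᶜ) (dir : Bool)
    (cl : (Fin (50 * u) → Fin n × Fin n) → List (Fin n))
    (hcl : ∀ f ∈ chains Rel (50 * u) I, (cl f).length = ℓ * (50 * u) ∧
      (cl f).Pairwise (fun a b => (a, b) ∈ pos₂) ∧
      ∀ z, (∀ i, Gd (f i) z) → ∀ v ∈ cl f, arc pos₂ dir v z)
    (ver : Fin n × Fin n → Fin n)
    (hver : ∀ p ∈ I, ver p ∈ A₀ ∧ ∀ z, Gd p z → arc pos₂ dir (ver p) z)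
    (hinj : ∀ p ∈ I, ∀ q ∈ I, ver p = ver q → p = q)
    (hA : ∀ a ∈ A₀, ∀ b ∈ A₀, a ≠ b → (a, b) ∈ pos₂ ∨ (b, a) ∈ pos₂) :
    MBWin (fun X => HasCopy (TTk k) (pos₂ ∪ X))
      (univ.filter (fun p : Fin n × Fin n => p.1 < p.2 ∧ Free pos₂ p)) ∅ := by
  classical
  have hirr : ∀ a, (a, a) ∉ pos₂ := fun a ha => (hpos₂ _ ha).1 rfl
  set B₀ : Finset (Fin n) := A₀ᶜ with hB₀
  have hB₀card : B₀.card = n - A₀.card := by rw [hB₀, card_compl, Fintype.card_fin]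
  have hB₀low : 2 ^ (q - 1) ≤ B₀.card := by
    have e1 : 2 ^ q = 2 * 2 ^ (q - 1) := by
      rw [← pow_succ']; congr 1; omega
    have e2 : 2 ^ qa ≤ 2 ^ (q - 1) :=
      Nat.pow_le_pow_right (by norm_num) (by omega)
    omega
  set w : ℕ := q - h * u - 4 with hw
  have hhu : h * u ≤ 64 * u := Nat.mul_le_mul_right _ hh
  have hhu' : 21 * u ≤ h * u := Nat.mul_le_mul_right _ hh'
  have hρpow : (1 / 2 : ℝ) ^ (h * u) ≤ ρ ^ (51 * u) := by
    rw [pow_mul, pow_mul]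
    exact pow_le_pow_left₀ (by positivity) hρE _
  have hρpos : 0 < ρ := by linarith
  have hwle : (2 : ℝ) ^ w ≤ ρ ^ (51 * u) / 4 * B₀.card := by
    have e1 : (2 : ℝ) ^ (q - 1) ≤ B₀.card := by exact_mod_cast hB₀low
    have e2 : (2 : ℝ) ^ w = (1 / 2 : ℝ) ^ (h * u) / 4 * 2 ^ (q - 2) := by
      have : (2 : ℝ) ^ (q - 2) = 2 ^ (h * u) * 4 * 2 ^ w := by
        rw [show (4 : ℝ) = 2 ^ 2 by norm_num, ← pow_add, ← pow_add]
        congr 1; omega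
      rw [this, one_div, inv_pow]
      field_simp
    rw [e2]
    have e3 : (2 : ℝ) ^ (q - 2) ≤ 2 ^ (q - 1) :=
      pow_le_pow_right₀ (by norm_num) (by omega)
    have e4 : (0 : ℝ) ≤ (1 / 2 : ℝ) ^ (h * u) / 4 := by positivity
    calc (1 / 2 : ℝ) ^ (h * u) / 4 * 2 ^ (q - 2)
        ≤ (1 / 2 : ℝ) ^ (h * u) / 4 * B₀.card := mul_le_mul_of_nonneg_left (e3.trans e1) e4
      _ ≤ ρ ^ (51 * u) / 4 * B₀.card := by gcongr
  have hIpos : 0 < I.card := lt_of_lt_of_le (by positivity) hI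
  have hmg := many_good (R := Rel) Gd I B₀ K (50 * u) (51 * u) (by omega) ρ hρpos hρ1 hext hIpos
    (by nlinarith [hKI, hρ, (Nat.cast_pos (α := ℝ)).2 hIpos]) hG ((2 : ℝ) ^ w) hwle
  set 𝒢 := (chains Rel (50 * u) I).filter
    (fun f => (2 : ℝ) ^ w ≤ ((B₀.filter (fun z => ∀ i, Gd (f i) z)).card : ℝ)) with h𝒢
  have hsub : ∀ f ∈ 𝒢, ∃ N ⊆ B₀.filter (fun z => ∀ i, Gd (f i) z), N.card = 2 ^ w := by
    intro f hf
    have := (mem_filter.1 hf).2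
    apply exists_subset_card_eq
    exact_mod_cast this
  choose! N' hN'1 hN'2 using hsub
  have hIposR : (0 : ℝ) < I.card := by exact_mod_cast hIpos
  -- the size of 𝒢
  have h𝒢low : (1 / 2 : ℝ) ^ (h * u + 2 + qz) * (I.card : ℝ) ^ (50 * u) ≤
      𝒢.card := by
    refine le_trans ?_ hmg
    have e1 : (1 / 2 : ℝ) ^ (h * u + 2 + qz) =
        (1 / 2 : ℝ) ^ (h * u) / 4 * (1 / 2) ^ qz := by
      rw [pow_add, pow_add]; norm_num; ring
    rw [e1, mul_assoc]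
    exact mul_le_mul (by gcongr) htc (by positivity) (by positivity)
  have h𝒢ne : 𝒢.Nonempty := by
    rw [← card_pos]
    have : (0 : ℝ) < 𝒢.card := lt_of_lt_of_le (by positivity) h𝒢low
    exact_mod_cast this
  -- parameters
  set v : ℕ := u / 2 with hv
  set a : ℕ := w - v with ha
  set s : ℕ := 2 * (w + 21 * u) with hs
  set d₀ : ℕ := I.card / 2 ^ qd with hd₀
  have hsle : s ≤ 2000000000 * u := by omega
  have hvs := num_v u s hu hsle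
  have hd₀low : 2 ^ (200 * u) ≤ d₀ := by
    rw [hd₀, Nat.le_div_iff_mul_le (by positivity), ← pow_add]
    refine le_trans (le_of_eq ?_) hI
    congr 1; omega
  have hd₀le : (d₀ : ℝ) * 2 ^ qd ≤ I.card := by
    have := Nat.div_mul_le_self I.card (2 ^ qd)
    exact_mod_cast this
  have hexp : s * (v + 21 * u) + 3 * a + (h * u + 2 + qz) ≤
      qd * (50 * u) := by
    have e1 : 2 * (v + 21 * u) ≤ 43 * u := by omega
    have e2 : s * (2 * (v + 21 * u)) ≤ 2000000000 * u * (43 * u) := Nat.mul_le_mul hsle e1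
    have e3 : a ≤ 1000000000 * u := by omega
    rw [hqd, hqz]
    nlinarith [e2, e3, hhu, hu]
  have hξ : 2 ^ (s * (v + 21 * u) + 3 * a) * d₀ ^ (50 * u) ≤ 𝒢.card := by
    have : ((2 : ℝ) ^ (s * (v + 21 * u) + 3 * a) * d₀ ^ (50 * u)) ≤ 𝒢.card := by
      refine le_trans ?_ h𝒢low
      have e1 : ((d₀ : ℝ) * 2 ^ qd) ^ (50 * u) ≤ (I.card : ℝ) ^ (50 * u) :=
        pow_le_pow_left₀ (by positivity) hd₀le _
      rw [mul_pow, ← pow_mul] at e1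
      have e2 : (2 : ℝ) ^ (s * (v + 21 * u) + 3 * a) ≤
          (1 / 2 : ℝ) ^ (h * u + 2 + qz) * 2 ^ (qd * (50 * u)) := by
        rw [one_div, inv_pow, ← div_eq_inv_mul, le_div_iff₀ (by positivity), ← pow_add]
        exact pow_le_pow_right₀ (by norm_num) hexp
      calc (2 : ℝ) ^ (s * (v + 21 * u) + 3 * a) * d₀ ^ (50 * u)
          ≤ ((1 / 2 : ℝ) ^ (h * u + 2 + qz) *
              2 ^ (qd * (50 * u))) * d₀ ^ (50 * u) := by gcongr
        _ = (1 / 2 : ℝ) ^ (h * u + 2 + qz) *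
              (d₀ ^ (50 * u) * 2 ^ (qd * (50 * u))) := by ring
        _ ≤ _ := by gcongr
    exact_mod_cast this
  set F := (univ.filter (fun p : Fin n × Fin n => p.1 < p.2 ∧ Free pos₂ p)) with hF
  have hFsub : F ⊆ prs B₀ := by
    intro p hp
    rw [hF, mem_filter] at hp
    have := hfree₂ p hp.2.2
    simp [prs, hB₀, this.1, this.2, hp.2.1]
  have hFcard : F.card ≤ 2 ^ (2 * qn) := by
    calc F.card ≤ (univ : Finset (Fin n × Fin n)).card := card_le_card (filter_subset _ _)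
      _ = n * n := by simp
      _ ≤ 2 ^ qn * 2 ^ qn := Nat.mul_le_mul hn2.le hn2.le
      _ = 2 ^ (2 * qn) := by rw [← pow_add, two_mul]
  have hM : (prs B₀ \ F).card ≤ A₀.card * n := by
    refine le_trans ?_ hcount₂
    -- map a non-free pair to its arc
    refine card_le_card_of_injOn (fun p => if p ∈ pos₂ then p else p.swap) ?_ ?_
    · intro p hp
      rw [mem_coe, mem_sdiff] at hp
      obtain ⟨hp1, hp2⟩ := hp
      rw [prs, mem_filter, mem_product, hB₀, mem_compl, mem_compl] at hp1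
      have hnf : ¬ Free pos₂ p := fun hf => hp2 (by rw [hF, mem_filter]; exact ⟨mem_univ _, hp1.2, hf⟩)
      have hor : p ∈ pos₂ ∨ p.swap ∈ pos₂ := by
        by_contra hcon
        push Not at hcon
        exact hnf ⟨ne_of_lt hp1.2, hcon.1, hcon.2⟩
      by_cases hpp : p ∈ pos₂
      · simp [hpp, hp1.1.1, hp1.1.2]
      · have := hor.resolve_left hpp
        simp [hpp, this, hp1.1.1, hp1.1.2]
    · intro p hp q hq hpq
      rw [mem_coe, mem_sdiff] at hp hq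
      have hp1 := (mem_filter.1 hp.1).2
      have hq1 := (mem_filter.1 hq.1).2
      dsimp only at hpq
      split at hpq <;> split at hpq
      · exact hpq
      · subst hpq; simp at hp1; exact absurd hp1 (not_lt.2 hq1.le)
      · subst hpq; simp at hq1; exact absurd hq1 (not_lt.2 hp1.le)
      · exact Prod.swap_injective hpq
  have hM₀ : 4 * (A₀.card * n) * s ^ 2 ≤ 2 ^ (2 * w) := by
    have e1 : s ^ 2 ≤ 2 ^ (u / 2) := le_trans (by nlinarith [Nat.zero_le (s ^ 2)]) hvs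
    calc 4 * (A₀.card * n) * s ^ 2
        ≤ 2 ^ 2 * (2 ^ qa * 2 ^ qn) * 2 ^ (u / 2) := by
          rw [hA₀]; gcongr
          norm_num
      _ = 2 ^ (2 + (qa + qn) + u / 2) := by
          rw [← pow_add, ← pow_add, ← pow_add]
      _ ≤ 2 ^ (2 * w) := Nat.pow_le_pow_right (by norm_num) (by omega)
  have hnum : 4 * F.card ^ 4 * (4 * s) ^ 3 < 2 ^ (9 * a) := by
    have e1 : (4 * s) ^ 2 ≤ 2 ^ (u / 2) := le_trans (by nlinarith [Nat.zero_le (s ^ 2)]) hvs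
    have e2 : (4 * s) ^ 3 ≤ 2 ^ u := by
      have e3 : 1 ≤ 4 * s := by omega
      calc (4 * s) ^ 3 ≤ (4 * s) ^ 4 := Nat.pow_le_pow_right e3 (by norm_num)
        _ = ((4 * s) ^ 2) ^ 2 := by ring
        _ ≤ (2 ^ (u / 2)) ^ 2 := Nat.pow_le_pow_left e1 2
        _ = 2 ^ (u / 2 * 2) := by rw [← pow_mul]
        _ ≤ 2 ^ u := Nat.pow_le_pow_right (by norm_num) (by omega)
    calc 4 * F.card ^ 4 * (4 * s) ^ 3
        ≤ 2 ^ 2 * (2 ^ (2 * qn)) ^ 4 * 2 ^ u := by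
          gcongr
          norm_num
      _ = 2 ^ (2 + 2 * qn * 4 + u) := by rw [← pow_mul, ← pow_add, ← pow_add]
      _ < 2 ^ (9 * a) := Nat.pow_lt_pow_right (by norm_num) (by omega)
  have hmain := phase_two B₀ F hFsub (A₀.card * n) hM (50 * u) 𝒢 N' I Gd w a v (21 * u) s d₀
    (fun f hf => ⟨(hN'1 f hf).trans (filter_subset _ _), hN'2 f hf⟩)
    (fun f hf i => ⟨by
        have := (mem_filter.1 hf).1
        rw [chains, mem_filter, Fintype.mem_piFinset] at this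
        exact this.1 i, fun z hz => (mem_filter.1 (hN'1 f hf hz)).2 i⟩)
    h𝒢ne (by omega) (by omega) hvs (by omega) le_rfl hM₀ hξ hnum
  refine hmain.mono ?_
  rintro X (⟨f, hf, S, hSN, hScard, hSX⟩ | ⟨S, hSB, hScard, hSd, hSX⟩)
  · obtain ⟨hl1, hl2, hl3⟩ := hcl f (mem_filter.1 hf).1
    refine hasCopy_glue pos₂ X dir (cl f) S hirr hl2 ?_ hSX ?_
    · intro x hx z hz
      exact hl3 z (mem_filter.1 (hN'1 f hf (hSN hz))).2 x hx
    · rw [hl1, hScard]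
      have e1 : (2 * h + 8) * u ≤ (50 * ℓ + 42) * u := Nat.mul_le_mul_right _ hℓ
      have e2 : (2 * h + 8) * u = 2 * (h * u) + 8 * u := by ring
      have e3 : (50 * ℓ + 42) * u = ℓ * (50 * u) + 42 * u := by ring
      omega
  · set D := I.filter (fun i => ∀ z ∈ S, Gd i z) with hD
    have hinjD : Set.InjOn ver (D : Set (Fin n × Fin n)) := by
      intro p hp q hq hpq
      exact hinj p (mem_filter.1 hp).1 q (mem_filter.1 hq).1 hpq
    have hchain := hasChain_of_card (fun x y => (x, y) ∈ pos₂) (200 * u) (D.image ver)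
      (by
        intro x hx y hy hxy
        obtain ⟨p, hp, rfl⟩ := mem_image.1 hx
        obtain ⟨q, hq, rfl⟩ := mem_image.1 hy
        exact hA _ (hver p (mem_filter.1 hp).1).1 _ (hver q (mem_filter.1 hq).1).1 hxy)
      (by rw [card_image_of_injOn hinjD]; exact hd₀low.trans (hSd.trans (le_of_eq (by congr!))))
    obtain ⟨l, hl1, hl2, hl3⟩ := hchain
    refine hasCopy_glue pos₂ X dir l S hirr hl2 ?_ hSX ?_
    · intro x hx z hz
      obtain ⟨p, hp, rfl⟩ := mem_image.1 (hl3 x hx)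
      exact (hver p (mem_filter.1 hp).1).2 z ((mem_filter.1 hp).2 z hz)
    · rw [hl1, hScard]
      omega

theorem mode_win {n k u h ℓ : ℕ} (hu : 1000 ≤ u) (hn1 : 2 ^ (1000000000 * u) ≤ n)
    (hn2 : n < 2 ^ (1000000000 * (u + 1))) (hk : k ≤ 2000000007 * u) (hh : h ≤ 64) (hh' : 21 ≤ h)
    (hℓ : 2 * h + 8 ≤ 50 * ℓ + 42) (A₀ : Finset (Fin n)) (hA₀ : A₀.card = 2 ^ (900000000 * u))
    (pos₂ : Finset (Fin n × Fin n)) (hpos₂ : IsPos pos₂)
    (hfree₂ : ∀ a, Free pos₂ a → a.1 ∉ A₀ ∧ a.2 ∉ A₀)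
    (hcount₂ : (pos₂.filter (fun a => a.1 ∉ A₀ ∧ a.2 ∉ A₀)).card ≤ A₀.card * n)
    (Rel : Fin n × Fin n → Fin n × Fin n → Prop) [DecidableRel Rel] (I : Finset (Fin n × Fin n))
    (K : ℕ) (hI : 2 ^ (870000000 * u) ≤ I.card)
    (hext : ∀ D ⊆ I, K ≤ D.card → (tc Rel (50 * u) I : ℝ) * (D.card : ℝ) ^ (51 * u) ≤
      tc Rel (50 * u) D * (I.card : ℝ) ^ (51 * u))
    (hKI : (K : ℝ) ≤ 1 / 5 * I.card)
    (htc : (1 / 2 : ℝ) ^ (75000 * u ^ 2 + 1500 * u) * (I.card : ℝ) ^ (50 * u) ≤ tc Rel (50 * u) I)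
    (ρ : ℝ) (hρ : 2 / 5 ≤ ρ) (hρ1 : ρ ≤ 1) (hρE : (1 / 2 : ℝ) ^ h ≤ ρ ^ 51)
    (Gd : Fin n × Fin n → Fin n → Prop) [∀ i z, Decidable (Gd i z)]
    (hG : ρ * (I.card * (A₀ᶜ : Finset (Fin n)).card : ℝ) ≤ ec Gd I A₀ᶜ) (dir : Bool)
    (cl : (Fin (50 * u) → Fin n × Fin n) → List (Fin n))
    (hcl : ∀ f ∈ chains Rel (50 * u) I, (cl f).length = ℓ * (50 * u) ∧
      (cl f).Pairwise (fun a b => (a, b) ∈ pos₂) ∧
      ∀ z, (∀ i, Gd (f i) z) → ∀ v ∈ cl f, arc pos₂ dir v z)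
    (ver : Fin n × Fin n → Fin n)
    (hver : ∀ p ∈ I, ver p ∈ A₀ ∧ ∀ z, Gd p z → arc pos₂ dir (ver p) z)
    (hinj : ∀ p ∈ I, ∀ q ∈ I, ver p = ver q → p = q)
    (hA : ∀ a ∈ A₀, ∀ b ∈ A₀, a ≠ b → (a, b) ∈ pos₂ ∨ (b, a) ∈ pos₂) :
    MBWin (fun X => HasCopy (TTk k) (pos₂ ∪ X))
      (univ.filter (fun p : Fin n × Fin n => p.1 < p.2 ∧ Free pos₂ p)) ∅ :=
  mode_win_aux rfl rfl rfl rfl rfl rfl hu hn1 hn2 hk hh hh' hℓ A₀ hA₀ pos₂ hpos₂ hfree₂ hcount₂ Rel I K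
    hI hext hKI htc ρ hρ hρ1 hρE Gd hG dir cl hcl ver hver hinj hA

end Pool.Agent.TT2
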